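import Pool.Agent.V11302.FM.Dens

/-! Two-dimensional semisimple representations: the matrices span everything or commute. -/

set_option autoImplicit false

namespace Pool.Agent.V11302.FM

open Module Pool.Agent.Y800 Pool.Agent.Y802

variable {G : Type*} [Group G] {k : Type*} [Field k] {n : ℕ}

/-- **Burnside's theorem** for semisimple representations with scalar commutant -/
theorem span_top (ρ : G →* GL (Fin n) k) (hρ : IsSemisimpleRep ρ)
    (h : ∀ C : Matrix (Fin n) (Fin n) k, (∀ g, C * (ρ g : Matrix (Fin n) (Fin n) k) =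
      (ρ g : Matrix (Fin n) (Fin n) k) * C) → ∃ a : k, C = a • 1) :
    Submodule.span k {X | ∃ g, X = (ρ g : Matrix (Fin n) (Fin n) k)} = ⊤ := by
  classical
  have i1 := ss_module ρ hρ
  -- endomorphisms are scalars
  have hend : ∀ e : Module.End (MonoidAlgebra k G) (rp ρ).asModule, ∃ a : k,
      ∀ x : (rp ρ).asModule, e x = a • x := by
    intro e
    let B : (Fin n → k) →ₗ[k] (Fin n → k) :=
      (rp ρ).asModuleEquiv.toLinearMap ∘ₗ (e.restrictScalars k) ∘ₗ
        (rp ρ).asModuleEquiv.symm.toLinearMap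
    have hB : ∀ g v, B (rp ρ g v) = rp ρ g (B v) := by
      intro g v
      change (rp ρ).asModuleEquiv (e ((rp ρ).asModuleEquiv.symm (rp ρ g v))) = _
      rw [Representation.asModuleEquiv_symm_map_rho, map_smul, Representation.asModuleEquiv_map_smul,
        Representation.asAlgebraHom_of]
      rfl
    obtain ⟨a, ha⟩ := h (LinearMap.toMatrix' B) (by
      intro g
      apply Matrix.toLin'.injective
      rw [Matrix.toLin'_mul, Matrix.toLin'_mul, Matrix.toLin'_toMatrix']
      refine LinearMap.ext fun w => ?_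
      exact hB g _)
    refine ⟨a, fun x => ?_⟩
    have h1 : B x = a • x := by
      have h2 := congrArg Matrix.toLin' ha
      rw [Matrix.toLin'_toMatrix', map_smul, Matrix.toLin'_one] at h2
      rw [h2]
      rfl
    exact h1
  rw [eq_top_iff]
  intro X _
  let f : Module.End (Module.End (MonoidAlgebra k G) (rp ρ).asModule) (rp ρ).asModule :=
    { toFun := fun x => X.mulVec x
      map_add' := fun x y => Matrix.mulVec_add _ _ _
      map_smul' := fun e x => by
        obtain ⟨a, ha⟩ := hend e
        change X.mulVec (e x) = e (X.mulVec x)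
        rw [ha, ha]
        exact Matrix.mulVec_smul _ _ _ }
  obtain ⟨r, hr⟩ := jacobson_density f
    (Finset.univ.image fun i : Fin n => (rp ρ).asModuleEquiv.symm (Pi.single i 1))
  have hX : X = LinearMap.toMatrix' ((rp ρ).asAlgebraHom r) := by
    apply Matrix.toLin'.injective
    rw [Matrix.toLin'_toMatrix']
    refine LinearMap.pi_ext' fun i => LinearMap.ext_ring ?_
    have h1 := hr _ (Finset.mem_image_of_mem _ (Finset.mem_univ i))
    have h2 := congrArg (rp ρ).asModuleEquiv h1
    rw [Representation.asModuleEquiv_map_smul, LinearEquiv.apply_symm_apply] at h2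
    exact h2
  rw [hX]
  clear hr hX
  induction r using MonoidAlgebra.induction_linear with
  | zero => rw [map_zero, map_zero]; exact zero_mem _
  | add x y hx hy => rw [map_add, map_add]; exact add_mem hx hy
  | single v c =>
    rw [Representation.asAlgebraHom_single, map_smul]
    apply Submodule.smul_mem
    apply Submodule.subset_span
    exact ⟨v, LinearMap.toMatrix'_toLin' _⟩

/-- vectors parallel to the same nonzero vector are parallel -/
theorem cross {c1 c2 c3 a1 a2 a3 b1 b2 b3 : k} (hc : c1 ≠ 0 ∨ c2 ≠ 0 ∨ c3 ≠ 0)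
    (A12 : c1 * a2 - c2 * a1 = 0) (A13 : c3 * a1 - c1 * a3 = 0) (A23 : c2 * a3 - c3 * a2 = 0)
    (B12 : c1 * b2 - c2 * b1 = 0) (B13 : c3 * b1 - c1 * b3 = 0) (B23 : c2 * b3 - c3 * b2 = 0) :
    a1 * b2 - a2 * b1 = 0 ∧ a3 * b1 - a1 * b3 = 0 ∧ a2 * b3 - a3 * b2 = 0 := by
  rcases hc with h | h | h
  · refine ⟨mul_left_cancel₀ h ?_, mul_left_cancel₀ h ?_, mul_left_cancel₀ h ?_⟩
    · linear_combination a1 * B12 - b1 * A12
    · linear_combination a1 * B13 - b1 * A13
    · linear_combination b3 * A12 + b2 * A13 + a1 * B23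
  · refine ⟨mul_left_cancel₀ h ?_, mul_left_cancel₀ h ?_, mul_left_cancel₀ h ?_⟩
    · linear_combination a2 * B12 - b2 * A12
    · linear_combination b1 * A23 + a2 * B13 + b3 * A12
    · linear_combination a2 * B23 - b2 * A23
  · refine ⟨mul_left_cancel₀ h ?_, mul_left_cancel₀ h ?_, mul_left_cancel₀ h ?_⟩
    · linear_combination b2 * A13 + b1 * A23 + a3 * B12
    · linear_combination a3 * B13 - b3 * A13
    · linear_combination a3 * B23 - b3 * A23

/-- the commutant of a matrix of size two which is not scalar is commutative -/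
theorem comm_two {C A B : Matrix (Fin 2) (Fin 2) k} (hC : ∀ a : k, C ≠ a • 1)
    (hA : C * A = A * C) (hB : C * B = B * C) : A * B = B * A := by
  have hex : C 0 1 ≠ 0 ∨ C 1 0 ≠ 0 ∨ C 0 0 - C 1 1 ≠ 0 := by
    by_contra hcon
    push Not at hcon
    obtain ⟨h1, h2, h3⟩ := hcon
    apply hC (C 0 0)
    ext i j
    fin_cases i <;> fin_cases j <;> simp [Matrix.smul_apply, h1, h2]
    linear_combination -h3
  have eA00 := congrFun (congrFun hA 0) 0
  have eA01 := congrFun (congrFun hA 0) 1
  have eA10 := congrFun (congrFun hA 1) 0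
  have eB00 := congrFun (congrFun hB 0) 0
  have eB01 := congrFun (congrFun hB 0) 1
  have eB10 := congrFun (congrFun hB 1) 0
  rw [Matrix.mul_apply, Matrix.mul_apply, Fin.sum_univ_two, Fin.sum_univ_two] at eA00 eA01 eA10 eB00 eB01 eB10
  obtain ⟨h1, h2, h3⟩ := cross (a1 := A 0 1) (a2 := A 1 0) (a3 := A 0 0 - A 1 1) (b1 := B 0 1)
    (b2 := B 1 0) (b3 := B 0 0 - B 1 1) hex (by linear_combination eA00)
    (by linear_combination eA01) (by linear_combination eA10) (by linear_combination eB00)
    (by linear_combination eB01) (by linear_combination eB10)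
  ext i j
  rw [Matrix.mul_apply, Matrix.mul_apply, Fin.sum_univ_two, Fin.sum_univ_two]
  fin_cases i <;> fin_cases j
  · change A 0 0 * B 0 0 + A 0 1 * B 1 0 = B 0 0 * A 0 0 + B 0 1 * A 1 0
    linear_combination h1
  · change A 0 0 * B 0 1 + A 0 1 * B 1 1 = B 0 0 * A 0 1 + B 0 1 * A 1 1
    linear_combination h2
  · change A 1 0 * B 0 0 + A 1 1 * B 1 0 = B 1 0 * A 0 0 + B 1 1 * A 1 0
    linear_combination h3
  · change A 1 0 * B 0 1 + A 1 1 * B 1 1 = B 1 0 * A 0 1 + B 1 1 * A 1 1
    linear_combination -h1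

/-- a two-dimensional semisimple representation spans all matrices or is commutative -/
theorem dichotomy (ρ : G →* GL (Fin 2) k) (hρ : IsSemisimpleRep ρ) :
    Submodule.span k {X | ∃ g, X = (ρ g : Matrix (Fin 2) (Fin 2) k)} = ⊤ ∨
    ∀ g h, ρ g * ρ h = ρ h * ρ g := by
  by_cases h : ∀ C : Matrix (Fin 2) (Fin 2) k, (∀ g, C * (ρ g : Matrix (Fin 2) (Fin 2) k) =
      (ρ g : Matrix (Fin 2) (Fin 2) k) * C) → ∃ a : k, C = a • 1
  · exact Or.inl (span_top ρ hρ h)
  · right
    push Not at h
    obtain ⟨C, hC, hC'⟩ := h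
    intro g g'
    apply Units.ext
    rw [Units.val_mul, Units.val_mul]
    exact comm_two hC' (hC g) (hC g')

end Pool.Agent.V11302.FM
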