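import Pool.Agent.V11302.FM.Core
import Pool.Agent.Y802.TS.Est

/-! The main estimate for two representations. -/

set_option autoImplicit false

open Matrix IsLocalRing Finset NumberField Topology Polynomial

namespace Pool.Agent.V11302.FM

open Pool.Agent.Y800 Pool.Agent.Y802.TS

variable {p : ℕ} [hp : Fact p.Prime] {n m : ℕ}

theorem sub_mem_of {J : Ideal ℤ_[p]} {X Y Z : Matrix (Fin n) (Fin n) ℤ_[p]}
    (h : ∀ a b, (Y - 1) a b ∈ J) (hX : X = Y * Z) (a b : Fin n) : X a b - Z a b ∈ J := by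
  have h1 : X - Z = (Y - 1) * Z := by rw [hX, sub_mul, one_mul]
  have h2 := congrFun (congrFun h1 a) b
  rw [Matrix.sub_apply] at h2
  rw [h2]
  exact mem_mul_left h a b

theorem sub_mem_of' {J : Ideal ℤ_[p]} {X Y Z : Matrix (Fin n) (Fin n) ℤ_[p]}
    (h : ∀ a b, (Y - 1) a b ∈ J) (hX : X = Z * Y) (a b : Fin n) : X a b - Z a b ∈ J := by
  have h1 : X - Z = Z * (Y - 1) := by rw [hX, mul_sub, mul_one]
  have h2 := congrFun (congrFun h1 a) b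
  rw [Matrix.sub_apply] at h2
  rw [h2, Matrix.mul_apply]
  exact Ideal.sum_mem _ fun k _ => Ideal.mul_mem_left _ _ (h k b)

theorem charpoly_eq_X_pow {M : Matrix (Fin n) (Fin n) ℤ_[p]}
    (h : ∀ k < n, M.charpoly.coeff k = 0) : M ^ n = 0 := by
  have h1 : M.charpoly = Polynomial.X ^ n := by
    ext k
    rw [coeff_X_pow]
    have hd : M.charpoly.natDegree = n := by
      rw [Matrix.charpoly_natDegree_eq_dim, Fintype.card_fin]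
    rcases lt_trichotomy k n with hk | hk | hk
    · rw [h k hk, if_neg hk.ne]
    · rw [if_pos hk, hk]
      have h2 := (Matrix.charpoly_monic M).coeff_natDegree
      rwa [hd] at h2
    · rw [if_neg hk.ne', coeff_eq_zero_of_natDegree_lt (by omega)]
  have h2 := Matrix.aeval_self_charpoly M
  rwa [h1, map_pow, aeval_X] at h2

theorem est2 {Γ : Subgroup GQ} (ρ : Γ →* GL (Fin n) ℤ_[p]) (τ : Γ →* GL (Fin m) ℤ_[p])
    (g : ℕ → GQ) (hg : ∀ U : Subgroup GQ, IsOpen (U : Set GQ) → ∀ (γ : GQ) (j0 : ℕ),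
      ∃ j, j0 ≤ j ∧ γ⁻¹ * g j ∈ U)
    (N : ℕ → ℕ) (hN : ∀ j, 1 ≤ N j) (x : ℕ → GQ)
    (hx : ∀ j, x j * (g j ^ N j)⁻¹ ∈ Hj j (N j))
    (K : ℕ → Subgroup GQ)
    (hK : ∀ i γ, γ ∈ K i → ∃ h : γ ∈ Γ,
      (∀ a b, ((ρ ⟨γ, h⟩ : Matrix (Fin n) (Fin n) ℤ_[p]) - 1) a b ∈ maximalIdeal ℤ_[p] ^ i) ∧
      (∀ a b, ((τ ⟨γ, h⟩ : Matrix (Fin m) (Fin m) ℤ_[p]) - 1) a b ∈ maximalIdeal ℤ_[p] ^ i))
    (hmono : ∀ i i', i ≤ i' → K i' ≤ K i) (hopen : ∀ i, IsOpen (K i : Set GQ))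
    (hstar : ∃ j0, ∀ j ≥ j0, ∀ N ≥ 1, Hj j N ≤ K (j * N))
    (j1 : ℕ)
    (hfrob : ∀ j ≥ j1, ∀ h : x j ∈ Γ, ∀ z,
      Eig (Φ (ρ ⟨x j, h⟩ : Matrix (Fin n) (Fin n) ℤ_[p])) z → ∃ a : ℕ, a ≠ 0 ∧
        Eig (Φ (τ ⟨x j, h⟩ : Matrix (Fin m) (Fin m) ℤ_[p]) ^ a) (z ^ a)) :
    ∀ γ ∈ K 2, ∀ h : γ ∈ Γ, CX (ρ ⟨γ, h⟩ : Matrix (Fin n) (Fin n) ℤ_[p])
      (τ ⟨γ, h⟩ : Matrix (Fin m) (Fin m) ℤ_[p]) ^ n = 0 := by
  have hp1 : (1 : ℝ) < p := by exact_mod_cast hp.out.one_lt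
  have hpi : ((p : ℝ)⁻¹) < 1 := inv_lt_one_of_one_lt₀ hp1
  have hpi0 : 0 < ((p : ℝ)⁻¹) := inv_pos.2 (by linarith)
  obtain ⟨j0, hj0⟩ := hstar
  intro γ hγ hγΓ
  apply charpoly_eq_X_pow
  intro k hk
  have key : ∀ i ≥ 2, ‖(CX (ρ ⟨γ, hγΓ⟩ : Matrix (Fin n) (Fin n) ℤ_[p])
      (τ ⟨γ, hγΓ⟩ : Matrix (Fin m) (Fin m) ℤ_[p])).charpoly.coeff k‖ ≤ ((p : ℝ)⁻¹) ^ i * 2 ^ n := by
    intro i hi
    obtain ⟨j, hj, hgj⟩ := hg _ (hopen i) γ (max (max j0 j1) (i * n + m * n + 2))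
    have hjj0 : j0 ≤ j := (le_max_left _ _).trans ((le_max_left _ _).trans hj)
    have hjj1 : j1 ≤ j := (le_max_right _ _).trans ((le_max_left _ _).trans hj)
    have hji : i * n + m * n + 2 ≤ j := (le_max_right _ _).trans hj
    have hgK : g j ∈ K 2 := by
      have h1 := hmono _ _ hi hgj
      have h2 := (K 2).mul_mem hγ h1
      rwa [mul_inv_cancel_left] at h2
    have hNj := hN j
    have hjN : 2 ≤ j * N j := by
      calc 2 ≤ j := by omega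
        _ ≤ j * N j := Nat.le_mul_of_pos_right _ hNj
    have hxg : x j * (g j ^ N j)⁻¹ ∈ K (j * N j) := hj0 j hjj0 _ hNj (hx j)
    have hxK : x j ∈ K 2 := by
      have h1 := (K 2).mul_mem (hmono _ _ hjN hxg) ((K 2).pow_mem hgK (N j))
      rwa [inv_mul_cancel_right] at h1
    obtain ⟨hgΓ, hg1, hg2⟩ := hK _ _ hgK
    obtain ⟨hxΓ, hx1, hx2⟩ := hK _ _ hxK
    obtain ⟨hyΓ, hy1, hy2⟩ := hK _ _ hxg
    have hxy : (⟨x j, hxΓ⟩ : Γ) = ⟨_, hyΓ⟩ * (⟨g j, hgΓ⟩ : Γ) ^ N j := by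
      apply Subtype.ext
      change x j = x j * (g j ^ N j)⁻¹ * g j ^ N j
      rw [inv_mul_cancel_right]
    -- the Frobenius element
    have hx0 : CX (ρ ⟨x j, hxΓ⟩ : Matrix (Fin n) (Fin n) ℤ_[p])
        (τ ⟨x j, hxΓ⟩ : Matrix (Fin m) (Fin m) ℤ_[p]) ^ n = 0 := by
      apply CX_pow_eq_zero
      intro z hz
      obtain ⟨a, ha, h1⟩ := hfrob j hjj1 hxΓ z hz
      exact eig_of_pow (eig_near (near_of_mem hx1) hz) (near_of_mem hx2) ha h1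
    -- comparison with the power of `g j`
    have hg0 : ∀ a b, (CX ((ρ ⟨g j, hgΓ⟩ : Matrix (Fin n) (Fin n) ℤ_[p]) ^ N j)
        ((τ ⟨g j, hgΓ⟩ : Matrix (Fin m) (Fin m) ℤ_[p]) ^ N j) ^ n) a b ∈
          maximalIdeal ℤ_[p] ^ (j * N j) := by
      intro a b
      have h1 := CX_congr (J := maximalIdeal ℤ_[p] ^ (j * N j))
        (X := (ρ ⟨x j, hxΓ⟩ : Matrix (Fin n) (Fin n) ℤ_[p]))
        (X' := (ρ ⟨g j, hgΓ⟩ : Matrix (Fin n) (Fin n) ℤ_[p]) ^ N j)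
        (Y := (τ ⟨x j, hxΓ⟩ : Matrix (Fin m) (Fin m) ℤ_[p]))
        (Y' := (τ ⟨g j, hgΓ⟩ : Matrix (Fin m) (Fin m) ℤ_[p]) ^ N j)
        (sub_mem_of hy1 (by rw [hxy, map_mul, map_pow, Units.val_mul, Units.val_pow_eq_pow_val]))
        (sub_mem_of hy2 (by rw [hxy, map_mul, map_pow, Units.val_mul, Units.val_pow_eq_pow_val]))
        n a b
      rw [hx0, Matrix.zero_apply, zero_sub, neg_mem_iff] at h1
      exact h1
    -- division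
    have hvN : padicValNat p (N j) ≤ N j := by
      have h4 := padicValNat_le_nat_log (p := p) (N j)
      have h5 : Nat.log p (N j) < N j := Nat.log_lt_self _ (by omega)
      omega
    have hle : i * n + padicValNat p (N j) * m * n ≤ j * N j := by
      calc i * n + padicValNat p (N j) * m * n ≤ i * n * N j + (m * n) * N j := by
            apply Nat.add_le_add (Nat.le_mul_of_pos_right _ hNj)
            calc padicValNat p (N j) * m * n = (m * n) * padicValNat p (N j) := by ring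
              _ ≤ _ := Nat.mul_le_mul_left _ hvN
        _ = (i * n + m * n) * N j := by ring
        _ ≤ j * N j := Nat.mul_le_mul_right _ (by omega)
    have hgd : ∀ z, Eig (Φ (ρ ⟨g j, hgΓ⟩ : Matrix (Fin n) (Fin n) ℤ_[p])) z →
        ‖(Φ (τ ⟨g j, hgΓ⟩ : Matrix (Fin m) (Fin m) ℤ_[p])).charpoly.eval z‖ ≤ ((p : ℝ)⁻¹) ^ i :=
      fun z hz => step hg1 hg2 (by omega) hle hg0 hz
    have hgc : ‖(CX (ρ ⟨g j, hgΓ⟩ : Matrix (Fin n) (Fin n) ℤ_[p])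
        (τ ⟨g j, hgΓ⟩ : Matrix (Fin m) (Fin m) ℤ_[p])).charpoly.coeff k‖ ≤
          ((p : ℝ)⁻¹) ^ i * 2 ^ n := by
      apply coeff_small (pow_nonneg hpi0.le _) (pow_le_one₀ hpi0.le hpi.le) _ hk
      intro μ hμ
      rw [Φ_CX] at hμ
      obtain ⟨z, hz, rfl⟩ := eig_CX hμ
      exact hgd z hz
    -- comparison of `γ` and `g j`
    obtain ⟨hdΓ, hd1, hd2⟩ := hK _ _ hgj
    have hgd' : (⟨g j, hgΓ⟩ : Γ) = ⟨γ, hγΓ⟩ * ⟨_, hdΓ⟩ := by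
      apply Subtype.ext
      change g j = γ * (γ⁻¹ * g j)
      rw [mul_inv_cancel_left]
    have hc : ∀ a b, CX (ρ ⟨g j, hgΓ⟩ : Matrix (Fin n) (Fin n) ℤ_[p])
        (τ ⟨g j, hgΓ⟩ : Matrix (Fin m) (Fin m) ℤ_[p]) a b -
        CX (ρ ⟨γ, hγΓ⟩ : Matrix (Fin n) (Fin n) ℤ_[p])
        (τ ⟨γ, hγΓ⟩ : Matrix (Fin m) (Fin m) ℤ_[p]) a b ∈ maximalIdeal ℤ_[p] ^ i := by
      intro a b
      have h1 := CX_congr (J := maximalIdeal ℤ_[p] ^ i)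
        (X := (ρ ⟨g j, hgΓ⟩ : Matrix (Fin n) (Fin n) ℤ_[p]))
        (X' := (ρ ⟨γ, hγΓ⟩ : Matrix (Fin n) (Fin n) ℤ_[p]))
        (Y := (τ ⟨g j, hgΓ⟩ : Matrix (Fin m) (Fin m) ℤ_[p]))
        (Y' := (τ ⟨γ, hγΓ⟩ : Matrix (Fin m) (Fin m) ℤ_[p]))
        (sub_mem_of' hd1 (by rw [hgd', map_mul, Units.val_mul]))
        (sub_mem_of' hd2 (by rw [hgd', map_mul, Units.val_mul])) 1 a b
      rwa [pow_one, pow_one] at h1
    have h2 := (mem_pow _ _).1 (coeff_congr hc k)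
    set u := (CX (ρ ⟨g j, hgΓ⟩ : Matrix (Fin n) (Fin n) ℤ_[p])
        (τ ⟨g j, hgΓ⟩ : Matrix (Fin m) (Fin m) ℤ_[p])).charpoly.coeff k
    set w := (CX (ρ ⟨γ, hγΓ⟩ : Matrix (Fin n) (Fin n) ℤ_[p])
        (τ ⟨γ, hγΓ⟩ : Matrix (Fin m) (Fin m) ℤ_[p])).charpoly.coeff k
    have h3 : w = u + -(u - w) := by ring
    rw [h3]
    refine (PadicInt.nonarchimedean _ _).trans (max_le hgc ?_)
    rw [norm_neg]
    refine h2.trans ?_
    have h4 : (1 : ℝ) ≤ 2 ^ n := one_le_pow₀ (by norm_num)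
    calc ((p : ℝ)⁻¹) ^ i = ((p : ℝ)⁻¹) ^ i * 1 := (mul_one _).symm
      _ ≤ _ := mul_le_mul_of_nonneg_left h4 (pow_nonneg hpi0.le _)
  rw [← norm_eq_zero]
  apply le_antisymm _ (norm_nonneg _)
  apply le_of_forall_pos_lt_add
  intro ε hε
  rw [zero_add]
  have h2n : (0 : ℝ) < 2 ^ n := by positivity
  obtain ⟨i, hi⟩ := exists_pow_lt_of_lt_one (div_pos hε h2n) hpi
  have h1 := key (i + 2) (by omega)
  refine lt_of_le_of_lt h1 ?_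
  have h2 : ((p : ℝ)⁻¹) ^ (i + 2) ≤ ((p : ℝ)⁻¹) ^ i :=
    pow_le_pow_of_le_one hpi0.le hpi.le (by omega)
  calc ((p : ℝ)⁻¹) ^ (i + 2) * 2 ^ n ≤ ((p : ℝ)⁻¹) ^ i * 2 ^ n :=
        mul_le_mul_of_nonneg_right h2 h2n.le
    _ < ε / 2 ^ n * 2 ^ n := mul_lt_mul_of_pos_right hi h2n
    _ = ε := by field_simp

end Pool.Agent.V11302.FM
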