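import Pool.Agent.V11302.FM.BNEq
import Pool.Agent.V11302.FM.Est3

/-! The main estimate for finite families of representations, coefficients in the ring of integers of the
algebraic closure. -/

set_option autoImplicit false

open Matrix IsLocalRing Finset NumberField Topology Polynomial

namespace Pool.Agent.V11302.FM

open Pool.Agent.Y800 Pool.Agent.Y802.TS

variable {p : ℕ} [hp : Fact p.Prime] {n m : ℕ}

/-- the key comparison -/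
theorem key_neB {A B A' B' : Matrix (Fin n) (Fin n) (OB p)} {N i D : ℕ}
    (hA : ∀ a b, (A - 1) a b ∈ JB p 2)
    (hB : ∀ a b, (B - 1) a b ∈ JB p 2) (hN : N ≠ 0)
    (hD : i + padicValNat p N * n ≤ D)
    (h : ∀ k, (A ^ N).charpoly.coeff k - (B ^ N).charpoly.coeff k ∈ JB p D)
    (hAA' : ∀ a b, A a b - A' a b ∈ JB p i)
    (hBB' : ∀ a b, B a b - B' a b ∈ JB p i)
    {z : PadicAlgCl p} (hz : ‖z - 1‖ ≤ ((p : ℝ)⁻¹) ^ 2)
    (hi : ((p : ℝ)⁻¹) ^ i < max ‖(Ψ A').charpoly.eval z‖ ‖(Ψ B').charpoly.eval z‖) :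
    ‖(Ψ A').charpoly.eval z‖ = ‖(Ψ B').charpoly.eval z‖ := by
  have hp1 : (1 : ℝ) < p := by exact_mod_cast hp.out.one_lt
  have hpi : ((p : ℝ)⁻¹) < 1 := inv_lt_one_of_one_lt₀ hp1
  have hpi0 : 0 < ((p : ℝ)⁻¹) := inv_pos.2 (by linarith)
  have hz1 := norm_le_of_near hz
  by_contra hne
  have h1 := eval_congrB (fun k => coeff_congr hAA' k) hz1
  have h2 := eval_congrB (fun k => coeff_congr hBB' k) hz1
  -- the norms for `A` and `B` are different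
  have hc : ‖(Ψ A').charpoly.eval z - (Ψ B').charpoly.eval z‖ =
      max ‖(Ψ A').charpoly.eval z‖ ‖(Ψ B').charpoly.eval z‖ := norm_sub_of_ne hne
  have hd : ∀ x y x' y' : PadicAlgCl p, ‖x - x'‖ ≤ ((p : ℝ)⁻¹) ^ i → ‖y - y'‖ ≤ ((p : ℝ)⁻¹) ^ i →
      ‖x'‖ < ‖y'‖ → ((p : ℝ)⁻¹) ^ i < ‖y'‖ → ‖x‖ < ‖y‖ ∧ ((p : ℝ)⁻¹) ^ i < ‖y‖ := by
    intro x y x' y' hx hy h3 h4
    have h5 : ‖y‖ = ‖y'‖ := by
      have e : y = (y - y') + y' := by ring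
      rw [e, IsUltrametricDist.norm_add_eq_max_of_norm_ne_norm (by
        intro h6
        linarith), max_eq_right (by linarith)]
    have h6 : ‖x‖ < ‖y'‖ := by
      have e : x = (x - x') + x' := by ring
      rw [e]
      exact lt_of_le_of_lt (IsUltrametricDist.norm_add_le_max _ _) (max_lt (by linarith) h3)
    rw [h5]
    exact ⟨h6, h4⟩
  have hfin : ‖(Ψ A).charpoly.eval z‖ ≠ ‖(Ψ B).charpoly.eval z‖ ∧
      ((p : ℝ)⁻¹) ^ i < max ‖(Ψ A).charpoly.eval z‖ ‖(Ψ B).charpoly.eval z‖ := by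
    rcases lt_or_gt_of_ne hne with h3 | h3
    · rw [max_eq_right h3.le] at hi
      obtain ⟨h4, h5⟩ := hd _ _ _ _ h1 h2 h3 hi
      exact ⟨h4.ne, lt_of_lt_of_le h5 (le_max_right _ _)⟩
    · rw [max_eq_left h3.le] at hi
      obtain ⟨h4, h5⟩ := hd _ _ _ _ h2 h1 h3 hi
      exact ⟨h4.ne', lt_of_lt_of_le h5 (le_max_left _ _)⟩
  obtain ⟨h3, h4⟩ := hfin
  -- pass to the powers
  have e1 := norm_eval_powB hA hz hN
  have e2 := norm_eval_powB hB hz hN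
  have hzN : ‖z ^ N‖ ≤ 1 := by
    rw [norm_pow]
    exact pow_le_one₀ (norm_nonneg _) hz1
  have h5 := eval_congrB h hzN
  have hpos : 0 < ((p : ℝ)⁻¹) ^ (padicValNat p N * n) := pow_pos hpi0 _
  have h6 : ‖(Ψ (A ^ N)).charpoly.eval (z ^ N)‖ ≠ ‖(Ψ (B ^ N)).charpoly.eval (z ^ N)‖ := by
    rw [e1, e2]
    intro h7
    exact h3 (mul_left_cancel₀ hpos.ne' h7)
  rw [norm_sub_of_ne h6, e1, e2, ← mul_max_of_nonneg _ _ hpos.le] at h5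
  have h7 : ((p : ℝ)⁻¹) ^ (padicValNat p N * n) * ((p : ℝ)⁻¹) ^ i <
      ((p : ℝ)⁻¹) ^ (padicValNat p N * n) *
        max ‖(Ψ A).charpoly.eval z‖ ‖(Ψ B).charpoly.eval z‖ := mul_lt_mul_of_pos_left h4 hpos
  rw [← pow_add] at h7
  have h8 : ((p : ℝ)⁻¹) ^ D ≤ ((p : ℝ)⁻¹) ^ (padicValNat p N * n + i) :=
    pow_le_pow_of_le_one hpi0.le hpi.le (by omega)
  linarith

theorem est3B {Γ : Subgroup GQ} (ρ : Γ →* GL (Fin n) (OB p)) {ι : Type} [Finite ι]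
    (τ : ι → Γ →* GL (Fin n) (OB p))
    (g : ℕ → GQ) (hg : ∀ U : Subgroup GQ, IsOpen (U : Set GQ) → ∀ (γ : GQ) (j0 : ℕ),
      ∃ j, j0 ≤ j ∧ γ⁻¹ * g j ∈ U)
    (N : ℕ → ℕ) (hN : ∀ j, 1 ≤ N j) (x : ℕ → GQ)
    (hx : ∀ j, x j * (g j ^ N j)⁻¹ ∈ Hj j (N j))
    (K : ℕ → Subgroup GQ)
    (hK : ∀ i γ, γ ∈ K i → ∃ h : γ ∈ Γ,
      (∀ a b, ((ρ ⟨γ, h⟩ : Matrix (Fin n) (Fin n) (OB p)) - 1) a b ∈ JB p i) ∧
      (∀ c, ∀ a b, ((τ c ⟨γ, h⟩ : Matrix (Fin n) (Fin n) (OB p)) - 1) a b ∈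
        JB p i))
    (hmono : ∀ i i', i ≤ i' → K i' ≤ K i) (hopen : ∀ i, IsOpen (K i : Set GQ))
    (i0 : ℕ) (hstar : ∃ j0, ∀ j ≥ j0, ∀ N ≥ 1, Hj j N ≤ K ((j - i0) * N))
    (j1 : ℕ)
    (hfrob : ∀ j ≥ j1, ∀ h : x j ∈ Γ, ∃ c, ∃ a : ℕ, a ≠ 0 ∧
      ((ρ ⟨x j, h⟩ : Matrix (Fin n) (Fin n) (OB p)) ^ a).charpoly =
        ((τ c ⟨x j, h⟩ : Matrix (Fin n) (Fin n) (OB p)) ^ a).charpoly) :
    ∀ γ ∈ K 2, ∀ h : γ ∈ Γ, ∃ c, (ρ ⟨γ, h⟩ : Matrix (Fin n) (Fin n) (OB p)).charpoly =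
      (τ c ⟨γ, h⟩ : Matrix (Fin n) (Fin n) (OB p)).charpoly := by
  have hp1 : (1 : ℝ) < p := by exact_mod_cast hp.out.one_lt
  have hpi : ((p : ℝ)⁻¹) < 1 := inv_lt_one_of_one_lt₀ hp1
  have hpi0 : 0 < ((p : ℝ)⁻¹) := inv_pos.2 (by linarith)
  obtain ⟨j0, hj0⟩ := hstar
  intro γ hγ hγΓ
  by_contra hcon
  push Not at hcon
  obtain ⟨hγΓ', hγ1, hγ2⟩ := hK _ _ hγ
  -- for every index there is a point where the absolute values differ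
  have hex : ∀ c, ∃ (i : ℕ) (z : PadicAlgCl p), ‖z - 1‖ ≤ ((p : ℝ)⁻¹) ^ 2 ∧
      ‖(Ψ (ρ ⟨γ, hγΓ⟩ : Matrix (Fin n) (Fin n) (OB p))).charpoly.eval z‖ ≠
        ‖(Ψ (τ c ⟨γ, hγΓ⟩ : Matrix (Fin n) (Fin n) (OB p))).charpoly.eval z‖ ∧
      ((p : ℝ)⁻¹) ^ i < max
        ‖(Ψ (ρ ⟨γ, hγΓ⟩ : Matrix (Fin n) (Fin n) (OB p))).charpoly.eval z‖
        ‖(Ψ (τ c ⟨γ, hγΓ⟩ : Matrix (Fin n) (Fin n) (OB p))).charpoly.eval z‖ := by
    intro c
    by_contra hc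
    push Not at hc
    apply hcon c
    apply charpoly_eq_of_normB hγ1 (hγ2 c)
    intro z hz
    by_contra hne
    have hpos : 0 < max ‖(Ψ (ρ ⟨γ, hγΓ⟩ : Matrix (Fin n) (Fin n) (OB p))).charpoly.eval z‖
        ‖(Ψ (τ c ⟨γ, hγΓ⟩ : Matrix (Fin n) (Fin n) (OB p))).charpoly.eval z‖ := by
      by_contra h0
      push Not at h0
      have h1 := (le_max_left _ _).trans h0
      have h2 := (le_max_right _ _).trans h0
      apply hne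
      rw [le_antisymm h1 (norm_nonneg _), le_antisymm h2 (norm_nonneg _)]
    obtain ⟨i, hi⟩ := exists_pow_lt_of_lt_one hpos hpi
    have h3 := hc i z hz hne
    linarith
  choose I Z hZ1 hZ2 hZ3 using hex
  have hfin : Set.Finite (Set.range I) := Set.finite_range I
  obtain ⟨i1, hi1⟩ := hfin.bddAbove
  let i := max i1 2
  have hIi : ∀ c, I c ≤ i := fun c => (hi1 ⟨c, rfl⟩).trans (le_max_left _ _)
  have hi2 : 2 ≤ i := le_max_right _ _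
  obtain ⟨j, hj, hgj⟩ := hg _ (hopen i) γ (max (max j0 j1) (i + n + 2 + i0))
  have hjj0 : j0 ≤ j := (le_max_left _ _).trans ((le_max_left _ _).trans hj)
  have hjj1 : j1 ≤ j := (le_max_right _ _).trans ((le_max_left _ _).trans hj)
  have hji : i + n + 2 + i0 ≤ j := (le_max_right _ _).trans hj
  have hgK : g j ∈ K 2 := by
    have h1 := hmono _ _ hi2 hgj
    have h2 := (K 2).mul_mem hγ h1
    rwa [mul_inv_cancel_left] at h2
  have hNj := hN j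
  have hjN : 2 ≤ (j - i0) * N j := by
    calc 2 ≤ j - i0 := by omega
      _ ≤ (j - i0) * N j := Nat.le_mul_of_pos_right _ hNj
  have hxg : x j * (g j ^ N j)⁻¹ ∈ K ((j - i0) * N j) := hj0 j hjj0 _ hNj (hx j)
  have hxK : x j ∈ K 2 := by
    have h1 := (K 2).mul_mem (hmono _ _ hjN hxg) ((K 2).pow_mem hgK (N j))
    rwa [inv_mul_cancel_right] at h1
  obtain ⟨hgΓ, hg1, hg2⟩ := hK _ _ hgK
  obtain ⟨hxΓ, hx1, hx2⟩ := hK _ _ hxK
  obtain ⟨hyΓ, hy1, hy2⟩ := hK _ _ hxg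
  obtain ⟨hdΓ, hd1, hd2⟩ := hK _ _ hgj
  have hxy : (⟨x j, hxΓ⟩ : Γ) = ⟨_, hyΓ⟩ * (⟨g j, hgΓ⟩ : Γ) ^ N j := by
    apply Subtype.ext
    change x j = x j * (g j ^ N j)⁻¹ * g j ^ N j
    rw [inv_mul_cancel_right]
  have hgd' : (⟨g j, hgΓ⟩ : Γ) = ⟨γ, hγΓ⟩ * ⟨_, hdΓ⟩ := by
    apply Subtype.ext
    change g j = γ * (γ⁻¹ * g j)
    rw [mul_inv_cancel_left]
  obtain ⟨c, a, ha, hca⟩ := hfrob j hjj1 hxΓ
  have hxc := charpoly_eq_of_powB hx1 (hx2 c) ha hca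
  have hvN : padicValNat p (N j) ≤ N j := by
    have h4 := padicValNat_le_nat_log (p := p) (N j)
    have h5 : Nat.log p (N j) < N j := Nat.log_lt_self _ (by omega)
    omega
  have hle : i + padicValNat p (N j) * n ≤ (j - i0) * N j := by
    calc i + padicValNat p (N j) * n ≤ i * N j + n * N j := by
          apply Nat.add_le_add (Nat.le_mul_of_pos_right _ hNj)
          calc padicValNat p (N j) * n = n * padicValNat p (N j) := by ring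
            _ ≤ _ := Nat.mul_le_mul_left _ hvN
      _ = (i + n) * N j := by ring
      _ ≤ (j - i0) * N j := Nat.mul_le_mul_right _ (by omega)
  refine hZ2 c (key_neB (i := i) hg1 (hg2 c) (by omega) hle ?_
    (sub_mem_ofB' hd1 (by rw [hgd', map_mul, Units.val_mul]))
    (sub_mem_ofB' (hd2 c) (by rw [hgd', map_mul, Units.val_mul])) (hZ1 c)
    (lt_of_le_of_lt (pow_le_pow_of_le_one hpi0.le hpi.le (hIi c)) (hZ3 c)))
  intro k
  have h1 := coeff_congr (sub_mem_ofB (X := (ρ ⟨x j, hxΓ⟩ : Matrix (Fin n) (Fin n) (OB p)))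
    (Z := (ρ ⟨g j, hgΓ⟩ : Matrix (Fin n) (Fin n) (OB p)) ^ N j) hy1
    (by rw [hxy, map_mul, map_pow, Units.val_mul, Units.val_pow_eq_pow_val])) k
  have h2 := coeff_congr (sub_mem_ofB (X := (τ c ⟨x j, hxΓ⟩ : Matrix (Fin n) (Fin n) (OB p)))
    (Z := (τ c ⟨g j, hgΓ⟩ : Matrix (Fin n) (Fin n) (OB p)) ^ N j) (hy2 c)
    (by rw [hxy, map_mul, map_pow, Units.val_mul, Units.val_pow_eq_pow_val])) k
  rw [← hxc] at h2
  have h3 := Ideal.sub_mem _ h2 h1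
  rwa [sub_sub_sub_cancel_left] at h3

end Pool.Agent.V11302.FM
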