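import Pool.Agent.V11302.FM.Est3
import Pool.Agent.Y802.TS.PEst

/-! The main estimate for finite families of representations over the field of `p`-adic numbers. -/

set_option autoImplicit false

open Matrix IsLocalRing Finset NumberField Topology Polynomial

namespace Pool.Agent.V11302.FM

attribute [local instance 10] DivisionRing.toRatAlgebra

open Pool.Agent.Y800 Pool.Agent.Y802.TS

theorem integral_star (p : ℕ) [hp : Fact p.Prime] (n : ℕ) {Γ : Subgroup GQ}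
    (hΓ : IsOpen (Γ : Set GQ)) (ρ : Γ →* GL (Fin n) ℚ_[p]) (hρ : Continuous ρ)
    (hS : ∃ S : Finset ℕ, ∀ q : ℕ, q.Prime → q ∉ S → ∀ P : Ideal ZBar, P.IsMaximal →
      (q : ZBar) ∈ P → ∀ τ : GQ, ∀ h : τ ∈ Γ, InInertia P τ → ρ ⟨τ, h⟩ = 1) :
    ∃ (Γ' : Subgroup GQ) (ρ' : Γ' →* GL (Fin n) ℤ_[p]), IsOpen (Γ' : Set GQ) ∧ Γ' ≤ Γ ∧
      (∀ (γ : GQ) (h : γ ∈ Γ') (h' : γ ∈ Γ), inc p n (ρ' ⟨γ, h⟩) = ρ ⟨γ, h'⟩) ∧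
      (∀ i, IsOpen (Kj ρ' (maximalIdeal ℤ_[p] ^ i) : Set GQ)) ∧
      ∃ j0, ∀ j ≥ j0, ∀ N ≥ 1, Hj j N ≤ Kj ρ' (maximalIdeal ℤ_[p] ^ (j * N)) := by
  obtain ⟨S, hS⟩ := hS
  obtain ⟨Γ', ρ', hΓ', hΓ'Γ, hρ', hopen1⟩ := exists_integral p n hΓ ρ hρ
  have htriv : ∀ (γ : GQ) (h : γ ∈ Γ') (h' : γ ∈ Γ), ρ ⟨γ, h'⟩ = 1 ↔ ρ' ⟨γ, h⟩ = 1 := by
    intro γ h h'
    rw [← hρ' γ h h']
    exact map_eq_one_iff _ (inc_inj p n)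
  obtain ⟨S', hS'⟩ := almost_unr Γ' hΓ'
  have hunr1 : UnrOut ρ' (S ∪ S') := by
    intro q hq hqS P hP hqP τ hτ
    rw [Finset.mem_union, not_or] at hqS
    have h1 := hS' q hq hqS.2 P hP hqP τ hτ
    exact ⟨h1, (htriv τ h1 (hΓ'Γ h1)).1 (hS q hq hqS.1 P hP hqP τ (hΓ'Γ h1) hτ)⟩
  exact ⟨Γ', ρ', hΓ', hΓ'Γ, hρ', hopen1, star ρ' hΓ' (fun i => maximalIdeal ℤ_[p] ^ i)
    (fun i => (card_quot p i).1) (grow_padic p n) hopen1 _ hunr1⟩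

theorem map_inc (p : ℕ) [hp : Fact p.Prime] (n : ℕ) (X : GL (Fin n) ℤ_[p]) :
    (inc p n X : Matrix (Fin n) (Fin n) ℚ_[p]) =
      (algebraMap ℤ_[p] ℚ_[p]).mapMatrix (X : Matrix (Fin n) (Fin n) ℤ_[p]) := rfl

theorem charpoly_inc (p : ℕ) [hp : Fact p.Prime] (n : ℕ) (X : GL (Fin n) ℤ_[p]) (a : ℕ) :
    ((inc p n X : Matrix (Fin n) (Fin n) ℚ_[p]) ^ a).charpoly =
      ((X : Matrix (Fin n) (Fin n) ℤ_[p]) ^ a).charpoly.map (algebraMap ℤ_[p] ℚ_[p]) := by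
  rw [map_inc, ← map_pow, ← Matrix.charpoly_map]
  rfl

theorem charpoly_inc_inj (p : ℕ) [hp : Fact p.Prime] (n : ℕ) (X Y : GL (Fin n) ℤ_[p]) (a : ℕ) :
    ((inc p n X : Matrix (Fin n) (Fin n) ℚ_[p]) ^ a).charpoly =
      ((inc p n Y : Matrix (Fin n) (Fin n) ℚ_[p]) ^ a).charpoly ↔
    ((X : Matrix (Fin n) (Fin n) ℤ_[p]) ^ a).charpoly =
      ((Y : Matrix (Fin n) (Fin n) ℤ_[p]) ^ a).charpoly := by
  rw [charpoly_inc, charpoly_inc]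
  have hinj : Function.Injective (algebraMap ℤ_[p] ℚ_[p]) := Subtype.coe_injective
  exact (map_injective _ hinj).eq_iff

theorem trace_ne_zero (p : ℕ) [hp : Fact p.Prime] (n : ℕ) (hn : 0 < n) :
    ∃ i : ℕ, ∀ X : Matrix (Fin n) (Fin n) ℤ_[p],
      (∀ a b, (X - 1) a b ∈ maximalIdeal ℤ_[p] ^ i) → X.trace ≠ 0 := by
  have hp1 : (1 : ℝ) < p := by exact_mod_cast hp.out.one_lt
  have hpi : ((p : ℝ)⁻¹) < 1 := inv_lt_one_of_one_lt₀ hp1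
  have hn0 : (n : ℤ_[p]) ≠ 0 := by exact_mod_cast hn.ne'
  obtain ⟨i, hi⟩ := exists_pow_lt_of_lt_one (norm_pos_iff.2 hn0) hpi
  refine ⟨i, fun X hX h0 => ?_⟩
  have h1 : (X - 1).trace ∈ maximalIdeal ℤ_[p] ^ i := by
    rw [Matrix.trace]
    exact Ideal.sum_mem _ fun k _ => hX k k
  rw [Matrix.trace_sub, Matrix.trace_one, Fintype.card_fin, h0, zero_sub, neg_mem_iff, mem_pow] at h1
  linarith

/-- **The main estimate.** -/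
theorem est4 (p : ℕ) [hp : Fact p.Prime] (n : ℕ) (hn : 0 < n) {Γ : Subgroup GQ}
    (hΓ : IsOpen (Γ : Set GQ)) (ρ : Γ →* GL (Fin n) ℚ_[p]) (hρ : Continuous ρ)
    (hS : ∃ S : Finset ℕ, ∀ q : ℕ, q.Prime → q ∉ S → ∀ P : Ideal ZBar, P.IsMaximal →
      (q : ZBar) ∈ P → ∀ τ : GQ, ∀ h : τ ∈ Γ, InInertia P τ → ρ ⟨τ, h⟩ = 1)
    {r : ℕ} (τ : Fin r → Γ →* GL (Fin n) ℚ_[p]) (hτ : ∀ c, Continuous (τ c))
    (hSτ : ∀ c, ∃ S : Finset ℕ, ∀ q : ℕ, q.Prime → q ∉ S → ∀ P : Ideal ZBar, P.IsMaximal →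
      (q : ZBar) ∈ P → ∀ t : GQ, ∀ h : t ∈ Γ, InInertia P t → τ c ⟨t, h⟩ = 1)
    (g : ℕ → GQ) (hg : ∀ U : Subgroup GQ, IsOpen (U : Set GQ) → ∀ (γ : GQ) (j0 : ℕ),
      ∃ j, j0 ≤ j ∧ γ⁻¹ * g j ∈ U)
    (N : ℕ → ℕ) (hN : ∀ j, 1 ≤ N j) (x : ℕ → GQ)
    (hx : ∀ j, x j * (g j ^ N j)⁻¹ ∈ Hj j (N j)) (j1 : ℕ)
    (hfrob : ∀ j ≥ j1, ∀ h : x j ∈ Γ, ∃ c, ∃ a : ℕ, a ≠ 0 ∧
      ((ρ ⟨x j, h⟩ : Matrix (Fin n) (Fin n) ℚ_[p]) ^ a).charpoly =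
        ((τ c ⟨x j, h⟩ : Matrix (Fin n) (Fin n) ℚ_[p]) ^ a).charpoly) :
    ∃ U : Subgroup GQ, IsOpen (U : Set GQ) ∧ U ≤ Γ ∧ ∀ γ ∈ U, ∀ h : γ ∈ Γ,
      (ρ ⟨γ, h⟩ : Matrix (Fin n) (Fin n) ℚ_[p]).trace ≠ 0 ∧ ∃ c,
      (ρ ⟨γ, h⟩ : Matrix (Fin n) (Fin n) ℚ_[p]).charpoly =
        (τ c ⟨γ, h⟩ : Matrix (Fin n) (Fin n) ℚ_[p]).charpoly := by
  obtain ⟨Γ0, ρ0, hΓ0, hΓ0Γ, hρ0, hop0, j0, hj0⟩ := integral_star p n hΓ ρ hρ hS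
  choose Γ1 τ1 hΓ1 hΓ1Γ hτ1 hop1 j2 hj2 using fun c => integral_star p n hΓ (τ c) (hτ c) (hSτ c)
  let G : Subgroup GQ := Γ0 ⊓ ⨅ c, Γ1 c
  have hG0 : G ≤ Γ0 := inf_le_left
  have hG1 : ∀ c, G ≤ Γ1 c := fun c => inf_le_right.trans (iInf_le _ c)
  let ρ' : G →* GL (Fin n) ℤ_[p] := ρ0.comp (Subgroup.inclusion hG0)
  let τ' : Fin r → G →* GL (Fin n) ℤ_[p] := fun c => (τ1 c).comp (Subgroup.inclusion (hG1 c))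
  let K : ℕ → Subgroup GQ := fun i => Kj ρ0 (maximalIdeal ℤ_[p] ^ i) ⊓
    ⨅ c, Kj (τ1 c) (maximalIdeal ℤ_[p] ^ i)
  have hKG : ∀ i γ, γ ∈ K i → ∃ h : γ ∈ G,
      (∀ a b, ((ρ' ⟨γ, h⟩ : Matrix (Fin n) (Fin n) ℤ_[p]) - 1) a b ∈ maximalIdeal ℤ_[p] ^ i) ∧
      (∀ c, ∀ a b, ((τ' c ⟨γ, h⟩ : Matrix (Fin n) (Fin n) ℤ_[p]) - 1) a b ∈
        maximalIdeal ℤ_[p] ^ i) := by
    rintro i γ ⟨h1, h2⟩
    obtain ⟨h3, h4⟩ := (mem_Kj ρ0).1 h1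
    have h5 : ∀ c, γ ∈ Kj (τ1 c) (maximalIdeal ℤ_[p] ^ i) := fun c => by
      have := (Subgroup.mem_iInf.1 h2) c
      exact this
    have h6 : γ ∈ G := by
      refine Subgroup.mem_inf.2 ⟨h3, Subgroup.mem_iInf.2 fun c => ?_⟩
      obtain ⟨h7, _⟩ := (mem_Kj (τ1 c)).1 (h5 c)
      exact h7
    refine ⟨h6, h4, fun c => ?_⟩
    obtain ⟨h7, h8⟩ := (mem_Kj (τ1 c)).1 (h5 c)
    exact h8
  have hKopen : ∀ i, IsOpen (K i : Set GQ) := by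
    intro i
    change IsOpen ((Kj ρ0 (maximalIdeal ℤ_[p] ^ i) : Set GQ) ∩
      ((⨅ c, Kj (τ1 c) (maximalIdeal ℤ_[p] ^ i) : Subgroup GQ) : Set GQ))
    rw [Subgroup.coe_iInf]
    exact (hop0 i).inter (isOpen_iInter_of_finite fun c => hop1 c i)
  have hKmono : ∀ i i', i ≤ i' → K i' ≤ K i := by
    intro i i' hi
    exact inf_le_inf (Kj_mono _ (Ideal.pow_le_pow_right hi))
      (iInf_mono fun c => Kj_mono _ (Ideal.pow_le_pow_right hi))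
  have hbd : ∃ j3, ∀ c, j2 c ≤ j3 := by
    obtain ⟨b, hb⟩ := (Set.finite_range j2).bddAbove
    exact ⟨b, fun c => hb ⟨c, rfl⟩⟩
  obtain ⟨j3, hj3⟩ := hbd
  have hstar : ∃ j0, ∀ j ≥ j0, ∀ N ≥ 1, Hj j N ≤ K (j * N) := by
    refine ⟨max j0 j3, fun j hj N hN => le_inf (hj0 j ((le_max_left _ _).trans hj) N hN)
      (le_iInf fun c => hj2 c j ((hj3 c).trans ((le_max_right _ _).trans hj)) N hN)⟩
  have hval : ∀ (γ : GQ) (h : γ ∈ G) (h' : γ ∈ Γ), inc p n (ρ' ⟨γ, h⟩) = ρ ⟨γ, h'⟩ :=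
    fun γ h h' => hρ0 γ (hG0 h) h'
  have hvalτ : ∀ (c : Fin r) (γ : GQ) (h : γ ∈ G) (h' : γ ∈ Γ),
      inc p n (τ' c ⟨γ, h⟩) = τ c ⟨γ, h'⟩ :=
    fun c γ h h' => hτ1 c γ (hG1 c h) h'
  have hGΓ : G ≤ Γ := hG0.trans hΓ0Γ
  have main := est3 ρ' τ' g hg N hN x hx K hKG hKmono hKopen hstar j1 (by
    intro j hj h
    obtain ⟨c, a, ha, h1⟩ := hfrob j hj (hGΓ h)
    refine ⟨c, a, ha, ?_⟩
    rw [← hval _ h, ← hvalτ c _ h] at h1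
    exact (charpoly_inc_inj p n _ _ a).1 h1)
  obtain ⟨i1, hi1⟩ := trace_ne_zero p n hn
  refine ⟨K (max 2 i1), hKopen _, ?_, ?_⟩
  · intro γ hγ
    obtain ⟨h, _⟩ := hKG _ _ hγ
    exact hGΓ h
  · intro γ hγ h
    obtain ⟨h1, h2, _⟩ := hKG _ _ (hKmono _ _ (le_max_right 2 i1) hγ)
    constructor
    · rw [← hval γ h1 h]
      have h3 := hi1 _ h2
      intro h4
      apply h3
      apply Subtype.ext
      rw [map_inc] at h4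
      have h5 : algebraMap ℤ_[p] ℚ_[p] (ρ' ⟨γ, h1⟩ : Matrix (Fin n) (Fin n) ℤ_[p]).trace =
          ((algebraMap ℤ_[p] ℚ_[p]).mapMatrix
            (ρ' ⟨γ, h1⟩ : Matrix (Fin n) (Fin n) ℤ_[p])).trace := by
        rw [Matrix.trace, Matrix.trace]
        exact map_sum (algebraMap ℤ_[p] ℚ_[p]) _ _
      rw [h4] at h5
      exact h5
    · obtain ⟨c, hc⟩ := main γ (hKmono _ _ (le_max_left 2 i1) hγ) h1
      refine ⟨c, ?_⟩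
      rw [← hval γ h1 h, ← hvalτ c γ h1 h]
      have h3 := (charpoly_inc_inj p n (ρ' ⟨γ, h1⟩) (τ' c ⟨γ, h1⟩) 1).2 (by
        rw [pow_one, pow_one]; exact hc)
      rwa [pow_one, pow_one] at h3

end Pool.Agent.V11302.FM
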