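import Pool.Agent.V11302.FM.BEst
import Pool.Agent.V11302.FM.Pest

/-! Integral models of representations over finite extensions of the field of `p`-adic numbers. -/

set_option autoImplicit false

open Matrix IsLocalRing Finset NumberField Topology Polynomial

namespace Pool.Agent.V11302.FM

attribute [local instance 10] DivisionRing.toRatAlgebra

open Pool.Agent.Y800 Pool.Agent.Y802.TS

section

variable {p : ℕ} [hp : Fact p.Prime] {E : IntermediateField ℚ_[p] (PadicAlgCl p)} {d n : ℕ}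

/-- restriction of scalars for matrices -/
noncomputable def RS (b : Module.Basis (Fin d) ℚ_[p] E) (n : ℕ) :
    Matrix (Fin n) (Fin n) E →+* Matrix (Fin (n * d)) (Fin (n * d)) ℚ_[p] :=
  (Matrix.reindexRingEquiv ℚ_[p] finProdFinEquiv).toRingHom.comp
    ((Matrix.compRingEquiv (Fin n) (Fin d) ℚ_[p]).toRingHom.comp
      (Algebra.leftMulMatrix b).toRingHom.mapMatrix)

theorem RS_apply (b : Module.Basis (Fin d) ℚ_[p] E) (X : Matrix (Fin n) (Fin n) E)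
    (u v : Fin (n * d)) : RS b n X u v =
      Algebra.leftMulMatrix b (X (finProdFinEquiv.symm u).1 (finProdFinEquiv.symm v).1)
        (finProdFinEquiv.symm u).2 (finProdFinEquiv.symm v).2 := rfl

theorem RS_cont [FiniteDimensional ℚ_[p] E] (b : Module.Basis (Fin d) ℚ_[p] E) :
    Continuous (RS b n) := by
  refine continuous_matrix fun u v => ?_
  have h1 : ∀ X : Matrix (Fin n) (Fin n) E, RS b n X u v =
      b.coord (finProdFinEquiv.symm u).2 (X (finProdFinEquiv.symm u).1 (finProdFinEquiv.symm v).1 *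
        b (finProdFinEquiv.symm v).2) := by
    intro X
    rw [RS_apply, Algebra.leftMulMatrix_eq_repr_mul]
    rfl
  simp only [h1]
  refine (LinearMap.continuous_of_finiteDimensional _).comp ?_
  exact (continuous_id.matrix_elem _ _).mul continuous_const

/-- the norm is controlled by the matrix of the multiplication -/
theorem norm_le_RS (b : Module.Basis (Fin d) ℚ_[p] E) : ∃ i0 : ℕ, ∀ (x : E) (r : ℕ),
    (∀ i j, ‖Algebra.leftMulMatrix b x i j‖ ≤ ((p : ℝ)⁻¹) ^ (r + i0)) →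
      ‖(x : PadicAlgCl p)‖ ≤ ((p : ℝ)⁻¹) ^ r := by
  have hp1 : (1 : ℝ) < p := by exact_mod_cast hp.out.one_lt
  have hpi0 : 0 < ((p : ℝ)⁻¹) := inv_pos.2 (by linarith)
  obtain ⟨C, hC⟩ := (Set.finite_range fun ij : Fin d × Fin d =>
    ‖(b.repr 1 ij.2 : ℚ_[p])‖ * ‖((b ij.1 : E) : PadicAlgCl p)‖).bddAbove
  obtain ⟨i0, hi0⟩ := pow_unbounded_of_one_lt C hp1
  refine ⟨i0, fun x r h => ?_⟩
  have hx : x = ∑ j, ∑ i, (b.repr 1 j * Algebra.leftMulMatrix b x i j) • b i := by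
    have h1 : x = x * ∑ j, b.repr 1 j • b j := by rw [b.sum_repr, mul_one]
    conv_lhs => rw [h1, Finset.mul_sum]
    refine Finset.sum_congr rfl fun j _ => ?_
    rw [mul_smul_comm]
    conv_lhs => rw [← b.sum_repr (x * b j), Finset.smul_sum]
    refine Finset.sum_congr rfl fun i _ => ?_
    rw [smul_smul, Algebra.leftMulMatrix_eq_repr_mul]
  have hx' : (x : PadicAlgCl p) = ∑ j, ∑ i, (b.repr 1 j * Algebra.leftMulMatrix b x i j) •
      ((b i : E) : PadicAlgCl p) := by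
    have h1 := congrArg (fun y : E => (y : PadicAlgCl p)) hx
    simpa using h1
  rw [hx']
  refine IsUltrametricDist.norm_sum_le_of_forall_le_of_nonneg (pow_nonneg hpi0.le _) fun j _ => ?_
  refine IsUltrametricDist.norm_sum_le_of_forall_le_of_nonneg (pow_nonneg hpi0.le _) fun i _ => ?_
  rw [norm_smul, norm_mul]
  have h1 : ‖(b.repr 1 j : ℚ_[p])‖ * ‖((b i : E) : PadicAlgCl p)‖ ≤ C := hC ⟨(i, j), rfl⟩
  have h2 := h i j
  have h3 : ((p : ℝ)⁻¹) ^ (r + i0) * (p : ℝ) ^ i0 = ((p : ℝ)⁻¹) ^ r := by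
    rw [pow_add, mul_assoc, ← mul_pow, inv_mul_cancel₀ (by linarith), one_pow, mul_one]
  have hCnn : (0 : ℝ) ≤ (p : ℝ) ^ i0 := by positivity
  calc ‖(b.repr 1 j : ℚ_[p])‖ * ‖Algebra.leftMulMatrix b x i j‖ * ‖((b i : E) : PadicAlgCl p)‖
      = ‖Algebra.leftMulMatrix b x i j‖ *
        (‖(b.repr 1 j : ℚ_[p])‖ * ‖((b i : E) : PadicAlgCl p)‖) := by ring
    _ ≤ ((p : ℝ)⁻¹) ^ (r + i0) * (p : ℝ) ^ i0 :=
        mul_le_mul h2 (h1.trans hi0.le) (by positivity) (pow_nonneg hpi0.le _)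
    _ = _ := h3

/-- the inclusion of the integral matrices -/
noncomputable def incB (p : ℕ) [Fact p.Prime] (n : ℕ) : GL (Fin n) (OB p) →* GL (Fin n) (PadicAlgCl p) :=
  Matrix.GeneralLinearGroup.map (OB p).subtype

theorem incB_val (M : GL (Fin n) (OB p)) :
    (incB p n M : Matrix (Fin n) (Fin n) (PadicAlgCl p)) = Ψ (M : Matrix (Fin n) (Fin n) (OB p)) := rfl

theorem incB_inj : Function.Injective (incB p n) := by
  intro M M' h
  apply Units.ext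
  ext a b
  have h1 := congrArg (fun X : GL (Fin n) (PadicAlgCl p) =>
    (X : Matrix (Fin n) (Fin n) (PadicAlgCl p)) a b) h
  exact h1

theorem mem_incB_range (M : GL (Fin n) (PadicAlgCl p))
    (h1 : ∀ a b, ‖(M : Matrix (Fin n) (Fin n) (PadicAlgCl p)) a b‖ ≤ 1)
    (h2 : ∀ a b, ‖((M⁻¹ : GL (Fin n) (PadicAlgCl p)) : Matrix (Fin n) (Fin n) (PadicAlgCl p)) a b‖ ≤ 1) :
    M ∈ (incB p n).range := by
  let X : Matrix (Fin n) (Fin n) (OB p) := fun a b => ⟨_, mem_OB.2 (h1 a b)⟩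
  let Y : Matrix (Fin n) (Fin n) (OB p) := fun a b => ⟨_, mem_OB.2 (h2 a b)⟩
  have hX : Ψ X = (M : Matrix (Fin n) (Fin n) (PadicAlgCl p)) := rfl
  have hY : Ψ Y = ((M⁻¹ : GL (Fin n) (PadicAlgCl p)) : Matrix (Fin n) (Fin n) (PadicAlgCl p)) := rfl
  have hinj : Function.Injective (Ψ : Matrix (Fin n) (Fin n) (OB p) → _) := by
    intro Z Z' h
    ext a b
    exact congrFun (congrFun h a) b
  have hXY : X * Y = 1 := by
    apply hinj
    have e1 : Ψ (X * Y) = Ψ X * Ψ Y := map_mul _ _ _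
    have e2 : Ψ (1 : Matrix (Fin n) (Fin n) (OB p)) = 1 := map_one _
    rw [e1, e2, hX, hY, Units.mul_inv]
  have hYX : Y * X = 1 := by
    apply hinj
    have e1 : Ψ (Y * X) = Ψ Y * Ψ X := map_mul _ _ _
    have e2 : Ψ (1 : Matrix (Fin n) (Fin n) (OB p)) = 1 := map_one _
    rw [e1, e2, hX, hY, Units.inv_mul]
  refine ⟨⟨X, Y, hXY, hYX⟩, ?_⟩
  apply Units.ext
  ext a b
  rfl

end

theorem integral_starB (p : ℕ) [hp : Fact p.Prime] (E : IntermediateField ℚ_[p] (PadicAlgCl p))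
    [FiniteDimensional ℚ_[p] E] (n : ℕ) {Γ : Subgroup GQ}
    (hΓ : IsOpen (Γ : Set GQ)) (ρ : Γ →* GL (Fin n) E) (hρ : Continuous ρ)
    (hS : ∃ S : Finset ℕ, ∀ q : ℕ, q.Prime → q ∉ S → ∀ P : Ideal ZBar, P.IsMaximal →
      (q : ZBar) ∈ P → ∀ τ : GQ, ∀ h : τ ∈ Γ, InInertia P τ → ρ ⟨τ, h⟩ = 1) :
    ∃ (Γ' : Subgroup GQ) (ρ' : Γ' →* GL (Fin n) (OB p)) (K : ℕ → Subgroup GQ) (i0 : ℕ), Γ' ≤ Γ ∧
      (∀ (γ : GQ) (h : γ ∈ Γ') (h' : γ ∈ Γ), Ψ (ρ' ⟨γ, h⟩ : Matrix (Fin n) (Fin n) (OB p)) =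
        (algebraMap E (PadicAlgCl p)).mapMatrix (ρ ⟨γ, h'⟩ : Matrix (Fin n) (Fin n) E)) ∧
      (∀ i, IsOpen (K i : Set GQ)) ∧ (∀ i i', i ≤ i' → K i' ≤ K i) ∧
      (∀ i γ, γ ∈ K i → ∃ h : γ ∈ Γ', ∀ a b,
        ((ρ' ⟨γ, h⟩ : Matrix (Fin n) (Fin n) (OB p)) - 1) a b ∈ JB p i) ∧
      ∃ j0, ∀ j ≥ j0, ∀ N ≥ 1, Hj j N ≤ K ((j - i0) * N) := by
  have hp1 : (1 : ℝ) < p := by exact_mod_cast hp.out.one_lt
  have hpi : ((p : ℝ)⁻¹) < 1 := inv_lt_one_of_one_lt₀ hp1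
  have hpi0 : 0 < ((p : ℝ)⁻¹) := inv_pos.2 (by linarith)
  let b := Module.finBasis ℚ_[p] E
  obtain ⟨i0, hi0⟩ := norm_le_RS b
  let F : GL (Fin n) E →* GL (Fin (n * Module.finrank ℚ_[p] E)) ℚ_[p] := Units.map (RS b n).toMonoidHom
  have hF : ∀ M : GL (Fin n) E, (F M : Matrix _ _ ℚ_[p]) = RS b n (M : Matrix (Fin n) (Fin n) E) :=
    fun M => rfl
  let ρ0 : Γ →* GL (Fin (n * Module.finrank ℚ_[p] E)) ℚ_[p] := F.comp ρ
  have hρ0 : Continuous ρ0 := by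
    rw [Units.continuous_iff]
    constructor
    · exact (RS_cont b).comp (Units.continuous_val.comp hρ)
    · have h1 : Continuous fun γ => ((ρ γ)⁻¹ : GL (Fin n) E) := hρ.inv
      have h2 : Continuous fun γ => RS b n (((ρ γ)⁻¹ : GL (Fin n) E) : Matrix (Fin n) (Fin n) E) :=
        (RS_cont b).comp (Units.continuous_val.comp h1)
      refine h2.congr fun γ => ?_
      rfl
  obtain ⟨Γ0, ρ1, hΓ0, hΓ0Γ, hρ1, hopen, j0, hj0⟩ := integral_star p _ hΓ ρ0 hρ0 (by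
    obtain ⟨S, hS⟩ := hS
    refine ⟨S, fun q hq hqS P hP hqP τ h hτ => ?_⟩
    change F (ρ ⟨τ, h⟩) = 1
    rw [hS q hq hqS P hP hqP τ h hτ, map_one])
  -- the comparison of the norms
  have hcmp : ∀ (r : ℕ) (γ : GQ), γ ∈ Kj ρ1 (maximalIdeal ℤ_[p] ^ (r + i0)) → ∀ h : γ ∈ Γ, ∀ a c,
      ‖((((ρ ⟨γ, h⟩ : Matrix (Fin n) (Fin n) E) - 1) a c : E) : PadicAlgCl p)‖ ≤ ((p : ℝ)⁻¹) ^ r := by
    intro r γ hγ h a c
    obtain ⟨h1, h2⟩ := (mem_Kj ρ1).1 hγ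
    apply hi0
    intro i j
    have h3 : Algebra.leftMulMatrix b (((ρ ⟨γ, h⟩ : Matrix (Fin n) (Fin n) E) - 1) a c) i j =
        (RS b n ((ρ ⟨γ, h⟩ : Matrix (Fin n) (Fin n) E) - 1)) (finProdFinEquiv (a, i))
          (finProdFinEquiv (c, j)) := by
      rw [RS_apply, Equiv.symm_apply_apply, Equiv.symm_apply_apply]
    have h4 : (inc p _ (ρ1 ⟨γ, h1⟩) : Matrix _ _ ℚ_[p]) =
        RS b n (ρ ⟨γ, h⟩ : Matrix (Fin n) (Fin n) E) := by
      rw [hρ1 γ h1 h]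
      rfl
    rw [h3, map_sub, map_one, ← h4, map_inc]
    have h5 := (mem_pow _ _).1 (h2 (finProdFinEquiv (a, i)) (finProdFinEquiv (c, j)))
    have h6 : ((algebraMap ℤ_[p] ℚ_[p]).mapMatrix (ρ1 ⟨γ, h1⟩).val - 1)
        (finProdFinEquiv (a, i)) (finProdFinEquiv (c, j)) =
        (((((ρ1 ⟨γ, h1⟩).val - 1) (finProdFinEquiv (a, i))
          (finProdFinEquiv (c, j)) : ℤ_[p])) : ℚ_[p]) := by
      have h7 : (algebraMap ℤ_[p] ℚ_[p]).mapMatrix (ρ1 ⟨γ, h1⟩).val - 1 =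
          (algebraMap ℤ_[p] ℚ_[p]).mapMatrix ((ρ1 ⟨γ, h1⟩).val - 1) := by
        rw [map_sub, map_one]
      rw [h7]
      rfl
    rw [h6]
    exact h5
  let Γ' : Subgroup GQ := Kj ρ1 (maximalIdeal ℤ_[p] ^ (0 + i0))
  have hΓ'Γ : Γ' ≤ Γ := by
    intro γ hγ
    obtain ⟨h1, _⟩ := (mem_Kj ρ1).1 hγ
    exact hΓ0Γ h1
  have hint : ∀ (γ : GQ), γ ∈ Γ' → ∀ h : γ ∈ Γ, ∀ a c,
      ‖(((ρ ⟨γ, h⟩ : Matrix (Fin n) (Fin n) E) a c : E) : PadicAlgCl p)‖ ≤ 1 := by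
    intro γ hγ h a c
    have h1 := hcmp 0 γ hγ h a c
    rw [pow_zero, Matrix.sub_apply] at h1
    have h2 : (((ρ ⟨γ, h⟩ : Matrix (Fin n) (Fin n) E) a c : E) : PadicAlgCl p) =
        (((ρ ⟨γ, h⟩ : Matrix (Fin n) (Fin n) E) a c - (1 : Matrix (Fin n) (Fin n) E) a c : E) :
          PadicAlgCl p) + (((1 : Matrix (Fin n) (Fin n) E) a c : E) : PadicAlgCl p) := by
      push_cast
      ring
    rw [h2]
    refine (IsUltrametricDist.norm_add_le_max _ _).trans (max_le h1 ?_)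
    rw [Matrix.one_apply]
    split_ifs <;> simp
  let ρK : Γ' →* GL (Fin n) (PadicAlgCl p) :=
    (Matrix.GeneralLinearGroup.map (algebraMap E (PadicAlgCl p))).comp
      (ρ.comp (Subgroup.inclusion hΓ'Γ))
  have hρK : ∀ (γ : GQ) (h : γ ∈ Γ') (h' : γ ∈ Γ), (ρK ⟨γ, h⟩ : Matrix (Fin n) (Fin n) (PadicAlgCl p)) =
      (algebraMap E (PadicAlgCl p)).mapMatrix (ρ ⟨γ, h'⟩ : Matrix (Fin n) (Fin n) E) :=
    fun γ h h' => rfl
  have hrange : ∀ y : Γ', ρK y ∈ (incB p n).range := by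
    intro y
    apply mem_incB_range
    · intro a c
      exact hint y.1 y.2 (hΓ'Γ y.2) a c
    · intro a c
      have h1 : (ρK y)⁻¹ = ρK y⁻¹ := (map_inv _ _).symm
      rw [h1]
      exact hint (y⁻¹ : Γ').1 (y⁻¹ : Γ').2 (hΓ'Γ (y⁻¹ : Γ').2) a c
  let e := MonoidHom.ofInjective (incB_inj (p := p) (n := n))
  let ρr : Γ' →* (incB p n).range := ρK.codRestrict _ hrange
  let ρ' : Γ' →* GL (Fin n) (OB p) := e.symm.toMonoidHom.comp ρr
  have hρ' : ∀ y : Γ', incB p n (ρ' y) = ρK y := by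
    intro y
    have h1 : e (ρ' y) = ρr y := e.apply_symm_apply _
    exact congrArg Subtype.val h1
  refine ⟨Γ', ρ', fun i => Kj ρ1 (maximalIdeal ℤ_[p] ^ (i + i0)), i0, hΓ'Γ, ?_, fun i => hopen _,
    fun i i' hi => Kj_mono _ (Ideal.pow_le_pow_right (by omega)), ?_, max j0 i0, ?_⟩
  · intro γ h h'
    rw [← incB_val, hρ', hρK γ h h']
  · intro i γ hγ
    have hγ' : γ ∈ Γ' := Kj_mono _ (Ideal.pow_le_pow_right (by omega)) hγ
    refine ⟨hγ', fun a c => ?_⟩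
    rw [mem_JB]
    have h1 := hcmp i γ hγ (hΓ'Γ hγ') a c
    have h2 : Ψ ((ρ' ⟨γ, hγ'⟩ : Matrix (Fin n) (Fin n) (OB p)) - 1) =
        (algebraMap E (PadicAlgCl p)).mapMatrix ((ρ ⟨γ, hΓ'Γ hγ'⟩ : Matrix (Fin n) (Fin n) E) - 1) := by
      have e1 : Ψ ((ρ' ⟨γ, hγ'⟩ : Matrix (Fin n) (Fin n) (OB p)) - 1) =
          Ψ (ρ' ⟨γ, hγ'⟩ : Matrix (Fin n) (Fin n) (OB p)) - Ψ 1 := map_sub _ _ _
      have e2 : Ψ (1 : Matrix (Fin n) (Fin n) (OB p)) = 1 := map_one _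
      rw [e1, e2, ← incB_val, hρ', hρK γ hγ' (hΓ'Γ hγ'), map_sub, map_one]
    have h3 := congrFun (congrFun h2 a) c
    have h4 : ((((ρ' ⟨γ, hγ'⟩ : Matrix (Fin n) (Fin n) (OB p)) - 1) a c : OB p) : PadicAlgCl p) =
        ((((ρ ⟨γ, hΓ'Γ hγ'⟩ : Matrix (Fin n) (Fin n) E) - 1) a c : E) : PadicAlgCl p) := h3
    rw [h4]
    exact h1
  · intro j hj N hN
    have hj1 : j0 ≤ j := (le_max_left _ _).trans hj
    have hj2 : i0 ≤ j := (le_max_right _ _).trans hj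
    refine (hj0 j hj1 N hN).trans (Kj_mono _ (Ideal.pow_le_pow_right ?_))
    calc (j - i0) * N + i0 ≤ (j - i0) * N + i0 * N :=
          Nat.add_le_add_left (Nat.le_mul_of_pos_right _ hN) _
      _ = j * N := by rw [← add_mul, Nat.sub_add_cancel hj2]

end Pool.Agent.V11302.FM
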