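import Pool.Agent.Y802.Cliff

/-! Restriction of a semisimple representation to a normal subgroup. -/

set_option autoImplicit false
set_option linter.all false

namespace Pool.Agent.V11302.FM

open Module Pool.Agent.Y800 Pool.Agent.Y802

variable {G : Type*} [Group G] {k : Type*} [Field k] {n : ℕ}

theorem tr_mono (ρ : G →* GL (Fin n) k) (g : G) {W W' : Submodule k (Fin n → k)} (h : W ≤ W') :
    tr ρ g W ≤ tr ρ g W' := Submodule.map_mono h

/-- **Clifford's theorem** for semisimple representations. -/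
theorem clifford_ss (ρ : G →* GL (Fin n) k) (h : IsSemisimpleRep ρ) (N : Subgroup G) [N.Normal] :
    IsSemisimpleRep (ρ.comp N.subtype) := by
  classical
  intro W hW
  -- a maximal stable subspace which meets `W` trivially
  have hex : ∃ d : ℕ, ∃ W' : Submodule k (Fin n → k), Stable (ρ.comp N.subtype) W' ∧ Disjoint W W' ∧
      finrank k (Fin n → k) - finrank k W' = d :=
    ⟨_, ⊥, fun g w hw => by
      rw [Submodule.mem_bot] at hw ⊢; rw [hw, Matrix.mulVec_zero], disjoint_bot_right, rfl⟩
  obtain ⟨W', hW', hdis, hd⟩ := Nat.find_spec hex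
  have hmax : ∀ X : Submodule k (Fin n → k), Stable (ρ.comp N.subtype) X → Disjoint W X → W' ≤ X →
      X = W' := by
    intro X hX hXd hle
    have h1 := Nat.find_min' hex ⟨X, hX, hXd, rfl⟩
    rw [← hd] at h1
    have h2 := Submodule.finrank_mono hle
    have h3 : finrank k X ≤ finrank k (Fin n → k) := Submodule.finrank_le X
    exact (Submodule.eq_of_le_of_finrank_le hle (by omega)).symm
  refine ⟨W', hW', ⟨hdis, ?_⟩⟩
  rw [codisjoint_iff]
  by_contra hne
  -- the largest subspace of `W ⊔ W'` which is stable under the whole group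
  have hexY : ∃ d : ℕ, ∃ Y : Submodule k (Fin n → k), Stable ρ Y ∧ Y ≤ W ⊔ W' ∧
      finrank k (Fin n → k) - finrank k Y = d :=
    ⟨_, ⊥, fun g w hw => by
      rw [Submodule.mem_bot] at hw ⊢; rw [hw, Matrix.mulVec_zero], bot_le, rfl⟩
  obtain ⟨Y, hY, hYle, hYd⟩ := Nat.find_spec hexY
  have hYmax : ∀ Z : Submodule k (Fin n → k), Stable ρ Z → Z ≤ W ⊔ W' → Z ≤ Y := by
    intro Z hZ hZle
    have hst : Stable ρ (Y ⊔ Z) := by
      intro x w hw
      rw [Submodule.mem_sup] at hw ⊢
      obtain ⟨a, ha, b, hb, rfl⟩ := hw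
      exact ⟨_, hY x a ha, _, hZ x b hb, (Matrix.mulVec_add _ _ _).symm⟩
    have h1 := Nat.find_min' hexY ⟨Y ⊔ Z, hst, sup_le hYle hZle, rfl⟩
    rw [← hYd] at h1
    have h3 : finrank k (Y ⊔ Z : Submodule k (Fin n → k)) ≤ finrank k (Fin n → k) :=
      Submodule.finrank_le _
    have h4 : Y = Y ⊔ Z := Submodule.eq_of_le_of_finrank_le le_sup_left (by
      have := Submodule.finrank_mono (le_sup_left : Y ≤ Y ⊔ Z)
      omega)
    rw [h4]
    exact le_sup_right
  obtain ⟨C, hC, hYC⟩ := h Y hY
  have hCne : C ≠ ⊥ := by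
    intro h0
    apply hne
    rw [eq_top_iff]
    have h1 := hYC.sup_eq_top
    rw [h0, sup_bot_eq] at h1
    rw [← h1]
    exact hYle
  -- a minimal stable subspace of `C`
  have hex2 : ∃ d : ℕ, ∃ S : Submodule k (Fin n → k), Stable (ρ.comp N.subtype) S ∧ S ≠ ⊥ ∧ S ≤ C ∧
      finrank k S = d := ⟨_, C, fun g w hw => hC g w hw, hCne, le_rfl, rfl⟩
  obtain ⟨S, hS, hSne, hSC, hSd⟩ := Nat.find_spec hex2
  have hmin : ∀ X : Submodule k (Fin n → k), Stable (ρ.comp N.subtype) X → X ≤ S → X ≠ ⊥ → X = S := by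
    intro X hX hle hXne
    have h1 := Nat.find_min' hex2 ⟨X, hX, hXne, hle.trans hSC, rfl⟩
    rw [← hSd] at h1
    exact Submodule.eq_of_le_of_finrank_le hle h1
  -- some translate is not contained in `W ⊔ W'`
  have h1 : ∃ g, ¬ tr ρ g S ≤ W ⊔ W' := by
    by_contra hall
    push Not at hall
    have hst : Stable ρ (⨆ g, tr ρ g S) := by
      intro g w hw
      have e : ∀ w ∈ ⨆ g, tr ρ g S, (ρ g : Matrix (Fin n) (Fin n) k).mulVec w ∈ ⨆ g, tr ρ g S := by
        intro w hw
        induction hw using Submodule.iSup_induction' with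
        | mem a x hx =>
          refine Submodule.mem_iSup_of_mem (g * a) ?_
          rw [mem_tr] at hx ⊢
          rw [Matrix.mulVec_mulVec, ← Units.val_mul, ← map_mul, mul_inv_rev, mul_assoc, inv_mul_cancel,
            mul_one]
          exact hx
        | zero => rw [Matrix.mulVec_zero]; exact zero_mem _
        | add x y _ _ hx hy => rw [Matrix.mulVec_add]; exact add_mem hx hy
      exact e w hw
    have h2 := hYmax _ hst (iSup_le hall)
    have h3 : S ≤ ⨆ g, tr ρ g S := by
      intro s hs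
      refine Submodule.mem_iSup_of_mem 1 ?_
      rw [mem_tr, inv_one, map_one, Units.val_one, Matrix.one_mulVec]
      exact hs
    apply hSne
    rw [eq_bot_iff, ← hYC.inf_eq_bot]
    exact le_inf (h3.trans h2) hSC
  obtain ⟨g, hg⟩ := h1
  have hstab : Stable (ρ.comp N.subtype) (W ⊔ W') := by
    intro x w hw
    rw [Submodule.mem_sup] at hw ⊢
    obtain ⟨a, ha, b, hb, rfl⟩ := hw
    exact ⟨_, hW x a ha, _, hW' x b hb, (Matrix.mulVec_add _ _ _).symm⟩
  have hdis2 : Disjoint (W ⊔ W') (tr ρ g S) := by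
    rw [disjoint_iff]
    by_contra hb
    -- pull back
    have h2 : tr ρ g⁻¹ ((W ⊔ W') ⊓ tr ρ g S) = S := by
      apply hmin
      · apply tr_stable
        intro x w hw
        exact ⟨hstab x w hw.1, tr_stable ρ N g hS x w hw.2⟩
      · intro v hv
        rw [mem_tr, inv_inv] at hv
        have : _ ∈ tr ρ g S := hv.2
        rw [mem_tr, Matrix.mulVec_mulVec, ← Units.val_mul, ← map_mul, inv_mul_cancel, map_one,
          Units.val_one, Matrix.one_mulVec] at this
        exact this
      · intro h0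
        apply hb
        rw [eq_bot_iff]
        intro v hv
        have : (ρ g⁻¹ : Matrix (Fin n) (Fin n) k).mulVec v ∈ tr ρ g⁻¹ ((W ⊔ W') ⊓ tr ρ g S) := by
          rw [mem_tr, inv_inv, Matrix.mulVec_mulVec, ← Units.val_mul, ← map_mul, mul_inv_cancel, map_one,
            Units.val_one, Matrix.one_mulVec]
          exact hv
        rw [h0, Submodule.mem_bot] at this
        rw [Submodule.mem_bot]
        have h3 := congrArg (fun w => (ρ g : Matrix (Fin n) (Fin n) k).mulVec w) this
        simp only [Matrix.mulVec_zero] at h3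
        rwa [Matrix.mulVec_mulVec, ← Units.val_mul, ← map_mul, mul_inv_cancel, map_one,
            Units.val_one, Matrix.one_mulVec] at h3
    apply hg
    intro v hv
    rw [mem_tr] at hv
    rw [← h2, mem_tr, inv_inv, Matrix.mulVec_mulVec, ← Units.val_mul, ← map_mul, mul_inv_cancel, map_one,
            Units.val_one, Matrix.one_mulVec] at hv
    exact hv.1
  have h4 : Disjoint W (W' ⊔ tr ρ g S) := by
    exact Disjoint.disjoint_sup_right_of_disjoint_sup_left hdis hdis2
  have h5 := hmax (W' ⊔ tr ρ g S) (by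
    intro x w hw
    rw [Submodule.mem_sup] at hw ⊢
    obtain ⟨a, ha, b, hb, rfl⟩ := hw
    exact ⟨_, hW' x a ha, _, tr_stable ρ N g hS x b hb, (Matrix.mulVec_add _ _ _).symm⟩) h4 le_sup_left
  apply hg
  have h6 : tr ρ g S ≤ W' := by
    rw [← h5]; exact le_sup_right
  exact h6.trans le_sup_right

end Pool.Agent.V11302.FM
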