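import Pool.Agent.Y802.Cliff

/-! Semisimple representations: density, restriction to normal subgroups, and traces on a coset. -/

set_option autoImplicit false

namespace Pool.Agent.V11302.FM

open Module Pool.Agent.Y800 Pool.Agent.Y802

variable {G : Type*} [Group G] {k : Type*} [Field k] {n m : ℕ}

/-- the representation on column vectors -/
noncomputable def rp (ρ : G →* GL (Fin n) k) : Representation k G (Fin n → k) where
  toFun g := Matrix.toLin' (ρ g : Matrix (Fin n) (Fin n) k)
  map_one' := by rw [map_one, Units.val_one, Matrix.toLin'_one]; rfl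
  map_mul' a b := by rw [map_mul, Units.val_mul, Matrix.toLin'_mul]; rfl

theorem rp_apply (ρ : G →* GL (Fin n) k) (g : G) (v : Fin n → k) :
    rp ρ g v = (ρ g : Matrix (Fin n) (Fin n) k).mulVec v := rfl

theorem ss_module (ρ : G →* GL (Fin n) k) (h : IsSemisimpleRep ρ) :
    IsSemisimpleModule (MonoidAlgebra k G) (rp ρ).asModule := by
  rw [← Representation.isSemisimpleRepresentation_iff_isSemisimpleModule_asModule]
  constructor
  intro W
  obtain ⟨W', hW', hc⟩ := h W.toSubmodule (fun g w hw => W.apply_mem_toSubmodule g hw)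
  refine ⟨⟨W', fun g w hw => hW' g w hw⟩, ?_⟩
  rw [isCompl_iff] at hc ⊢
  constructor
  · rw [disjoint_iff] at hc ⊢
    apply Subrepresentation.toSubmodule_injective
    exact hc.1
  · rw [codisjoint_iff] at hc ⊢
    apply Subrepresentation.toSubmodule_injective
    exact hc.2

/-- a nonzero homomorphism between semisimple modules can be reversed -/
theorem reverse {R M N : Type*} [Ring R] [AddCommGroup M] [Module R M] [AddCommGroup N] [Module R N]
    [IsSemisimpleModule R M] [IsSemisimpleModule R N] (h : ∀ b : N →ₗ[R] M, b = 0)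
    (c : M →ₗ[R] N) : c = 0 := by
  obtain ⟨s, hs⟩ := IsSemisimpleModule.lifting_property (LinearMap.rangeRestrict c)
    (LinearMap.surjective_rangeRestrict c) (LinearMap.id : LinearMap.range c →ₗ[R] _)
  obtain ⟨t, ht⟩ := IsSemisimpleModule.extension_property (LinearMap.range c).subtype
    (Submodule.injective_subtype _) s
  rw [h t, LinearMap.zero_comp] at ht
  rw [← ht, LinearMap.comp_zero] at hs
  ext x
  have h1 := LinearMap.congr_fun hs ⟨c x, x, rfl⟩
  have h2 := congrArg Subtype.val h1
  exact h2.symm

theorem ss_prod {R M N : Type*} [Ring R] [AddCommGroup M] [Module R M] [AddCommGroup N]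
    [Module R N] [IsSemisimpleModule R M] [IsSemisimpleModule R N] :
    IsSemisimpleModule R (M × N) := by
  have h1 : IsSemisimpleModule R (LinearMap.range (LinearMap.inl R M N)) :=
    IsSemisimpleModule.range _
  have h2 : IsSemisimpleModule R (LinearMap.range (LinearMap.inr R M N)) :=
    IsSemisimpleModule.range _
  have h3 := IsSemisimpleModule.sup h1 h2
  rw [LinearMap.sup_range_inl_inr] at h3
  exact IsSemisimpleModule.congr Submodule.topEquiv.symm

theorem dens_module {R M N : Type*} [Ring R] [AddCommGroup M] [Module R M] [AddCommGroup N]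
    [Module R N] [IsSemisimpleModule R M] [IsSemisimpleModule R N] (h : ∀ b : N →ₗ[R] M, b = 0)
    (s : Finset M) (t : Finset N) : ∃ r : R, (∀ x ∈ s, r • x = x) ∧ (∀ x ∈ t, r • x = 0) := by
  classical
  have hss : IsSemisimpleModule R (M × N) := ss_prod
  let f : Module.End (Module.End R (M × N)) (M × N) :=
    { toFun := fun x => (x.1, 0)
      map_add' := fun x y => by
        ext
        · rfl
        · exact (add_zero _).symm
      map_smul' := fun e x => by
        have h1 : (LinearMap.snd R M N) ∘ₗ e ∘ₗ (LinearMap.inl R M N) = 0 := reverse h _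
        have h2 : (LinearMap.fst R M N) ∘ₗ e ∘ₗ (LinearMap.inr R M N) = 0 := h _
        have h3 : (e (x.1, 0)).2 = 0 := LinearMap.congr_fun h1 x.1
        have h4 : (e (0, x.2)).1 = 0 := LinearMap.congr_fun h2 x.2
        have h5 : e x = e (x.1, 0) + e (0, x.2) := by
          rw [← map_add]
          congr 1
          ext <;> simp
        change ((e x).1, (0 : N)) = e (x.1, 0)
        ext
        · rw [h5]
          change (e (x.1, 0)).1 + (e (0, x.2)).1 = _
          rw [h4, add_zero]
        · exact h3.symm }
  obtain ⟨r, hr⟩ := jacobson_density f ((s.image fun x => (x, (0 : N))) ∪ (t.image fun x => ((0 : M), x)))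
  refine ⟨r, fun x hx => ?_, fun x hx => ?_⟩
  · have h1 := hr (x, 0) (Finset.mem_union_left _ (Finset.mem_image_of_mem _ hx))
    exact (congrArg Prod.fst h1).symm
  · have h1 := hr (0, x) (Finset.mem_union_right _ (Finset.mem_image_of_mem _ hx))
    exact (congrArg Prod.snd h1).symm

theorem dens (ρ : G →* GL (Fin n) k) (τ : G →* GL (Fin m) k) (hρ : IsSemisimpleRep ρ)
    (hτ : IsSemisimpleRep τ)
    (h : ∀ T : Matrix (Fin n) (Fin m) k, (∀ g, (ρ g : Matrix (Fin n) (Fin n) k) * T =
      T * (τ g : Matrix (Fin m) (Fin m) k)) → T = 0) :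
    ∃ r : MonoidAlgebra k G, (rp ρ).asAlgebraHom r = 1 ∧ (rp τ).asAlgebraHom r = 0 := by
  classical
  have i1 := ss_module ρ hρ
  have i2 := ss_module τ hτ
  have hb : ∀ b : (rp τ).asModule →ₗ[MonoidAlgebra k G] (rp ρ).asModule, b = 0 := by
    intro b
    let B : (Fin m → k) →ₗ[k] (Fin n → k) :=
      (rp ρ).asModuleEquiv.toLinearMap ∘ₗ (b.restrictScalars k) ∘ₗ
        (rp τ).asModuleEquiv.symm.toLinearMap
    have hB : ∀ g v, B (rp τ g v) = rp ρ g (B v) := by
      intro g v
      change (rp ρ).asModuleEquiv (b ((rp τ).asModuleEquiv.symm (rp τ g v))) = _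
      rw [Representation.asModuleEquiv_symm_map_rho, map_smul, Representation.asModuleEquiv_map_smul,
        Representation.asAlgebraHom_of]
      rfl
    have h1 := h (LinearMap.toMatrix' B) (by
      intro g
      apply Matrix.toLin'.injective
      rw [Matrix.toLin'_mul, Matrix.toLin'_mul, Matrix.toLin'_toMatrix']
      ext1 v
      refine LinearMap.ext fun w => ?_
      exact (hB g _).symm)
    have h2 : B = 0 := by
      apply LinearMap.toMatrix'.injective
      rw [h1, map_zero]
    refine LinearMap.ext fun x => ?_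
    exact LinearMap.congr_fun h2 x
  obtain ⟨r, hr1, hr2⟩ := dens_module hb
    (Finset.univ.image fun i : Fin n => (rp ρ).asModuleEquiv.symm (Pi.single i 1))
    (Finset.univ.image fun i : Fin m => (rp τ).asModuleEquiv.symm (Pi.single i 1))
  refine ⟨r, ?_, ?_⟩
  · refine LinearMap.pi_ext' fun i => LinearMap.ext_ring ?_
    have h1 := hr1 _ (Finset.mem_image_of_mem _ (Finset.mem_univ i))
    have h2 := congrArg (rp ρ).asModuleEquiv h1
    rw [Representation.asModuleEquiv_map_smul, LinearEquiv.apply_symm_apply] at h2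
    exact h2
  · refine LinearMap.pi_ext' fun i => LinearMap.ext_ring ?_
    have h1 := hr2 _ (Finset.mem_image_of_mem _ (Finset.mem_univ i))
    have h2 := congrArg (rp τ).asModuleEquiv h1
    rw [Representation.asModuleEquiv_map_smul, LinearEquiv.apply_symm_apply, map_zero] at h2
    exact h2

/-- two semisimple representations whose traces agree on a coset of a normal subgroup -/
theorem exists_hom (ρ τ : G →* GL (Fin n) k) (V : Subgroup G)
    (hρ : IsSemisimpleRep (ρ.comp V.subtype)) (hτ : IsSemisimpleRep (τ.comp V.subtype)) (u : G)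
    (h0 : (ρ u : Matrix (Fin n) (Fin n) k).trace ≠ 0)
    (h : ∀ v ∈ V, (ρ (u * v) : Matrix (Fin n) (Fin n) k).trace =
      (τ (u * v) : Matrix (Fin n) (Fin n) k).trace) :
    ∃ T : Matrix (Fin n) (Fin n) k, T ≠ 0 ∧ ∀ v ∈ V, (ρ v : Matrix (Fin n) (Fin n) k) * T =
      T * (τ v : Matrix (Fin n) (Fin n) k) := by
  by_contra hcon
  push Not at hcon
  obtain ⟨r, hr1, hr2⟩ := dens (ρ.comp V.subtype) (τ.comp V.subtype) hρ hτ (by
    intro T hT
    by_contra hne
    obtain ⟨v, hv, h1⟩ := hcon T hne
    exact h1 (hT ⟨v, hv⟩))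
  have key : ∀ r : MonoidAlgebra k V,
      ((ρ u : Matrix (Fin n) (Fin n) k) *
        LinearMap.toMatrix' ((rp (ρ.comp V.subtype)).asAlgebraHom r)).trace =
      ((τ u : Matrix (Fin n) (Fin n) k) *
        LinearMap.toMatrix' ((rp (τ.comp V.subtype)).asAlgebraHom r)).trace := by
    intro r
    induction r using MonoidAlgebra.induction_linear with
    | zero => simp
    | add x y hx hy => simp only [map_add, mul_add, Matrix.trace_add, hx, hy]
    | single v c =>
      rw [Representation.asAlgebraHom_single, Representation.asAlgebraHom_single, map_smul, map_smul,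
        Matrix.mul_smul, Matrix.mul_smul, Matrix.trace_smul, Matrix.trace_smul]
      congr 1
      have e1 : LinearMap.toMatrix' (rp (ρ.comp V.subtype) v) =
          (ρ v.1 : Matrix (Fin n) (Fin n) k) := LinearMap.toMatrix'_toLin' _
      have e2 : LinearMap.toMatrix' (rp (τ.comp V.subtype) v) =
          (τ v.1 : Matrix (Fin n) (Fin n) k) := LinearMap.toMatrix'_toLin' _
      rw [e1, e2, ← Units.val_mul, ← Units.val_mul, ← map_mul, ← map_mul]
      exact h v.1 v.2
  have h1 := key r
  rw [hr1, hr2, map_zero, mul_zero, Matrix.trace_zero] at h1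
  apply h0
  rw [← h1]
  have e : LinearMap.toMatrix' (1 : (Fin n → k) →ₗ[k] (Fin n → k)) = 1 := LinearMap.toMatrix'_one
  rw [e, mul_one]

end Pool.Agent.V11302.FM
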