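import Pool.Agent.Y802.Cliff
import Mathlib.LinearAlgebra.Matrix.Kronecker

/-! From a homomorphism on a normal subgroup of finite index to a quotient of a tensor product with a
representation with finite image. -/

set_option autoImplicit false

namespace Pool.Agent.V11302.FM

open Module Pool.Agent.Y800 Pool.Agent.Y802 Matrix Kronecker

variable {G : Type*} [Group G] {k : Type*} [Field k] {n m : ℕ}

/-- matrices of the action on a finite set -/
noncomputable def permMat (k : Type*) [Field k] {d : ℕ} (f : G →* Equiv.Perm (Fin d)) :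
    G →* Matrix (Fin d) (Fin d) k where
  toFun g := Matrix.of fun a b => if a = f g b then 1 else 0
  map_one' := by
    ext a b
    simp [Matrix.one_apply]
  map_mul' g h := by
    ext a b
    simp [Matrix.mul_apply]

theorem permMat_apply {d : ℕ} (f : G →* Equiv.Perm (Fin d)) (g : G) (a b : Fin d) :
    permMat k f g a b = if a = f g b then 1 else 0 := rfl

theorem induced (ρ : G →* GL (Fin n) k) (hirr : Irr ρ) (τ : G →* GL (Fin m) k) (V : Subgroup G)
    [V.Normal] (hV : Finite (G ⧸ V)) (T : Matrix (Fin n) (Fin m) k) (hT : T ≠ 0)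
    (h : ∀ v ∈ V, (ρ v : Matrix (Fin n) (Fin n) k) * T = T * (τ v : Matrix (Fin m) (Fin m) k)) :
    ∃ (d : ℕ) (π : G →* GL (Fin d) k) (E : Matrix (Fin n) (Fin m × Fin d) k),
      (∀ v ∈ V, π v = 1) ∧ Function.Surjective E.mulVec ∧
      ∀ σ, (ρ σ : Matrix (Fin n) (Fin n) k) * E =
        E * ((τ σ : Matrix (Fin m) (Fin m) k) ⊗ₖ (π σ : Matrix (Fin d) (Fin d) k)) := by
  classical
  let e : (G ⧸ V) ≃ Fin (Nat.card (G ⧸ V)) := Finite.equivFin _
  let f : G →* Equiv.Perm (Fin (Nat.card (G ⧸ V))) :=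
    { toFun := fun g => (e.symm.trans (MulAction.toPerm g)).trans e
      map_one' := by ext b; simp
      map_mul' := fun g h => by ext b; simp [mul_smul] }
  have hf : ∀ g b, f g b = e (g • e.symm b) := fun g b => rfl
  let π : G →* GL (Fin (Nat.card (G ⧸ V))) k := (permMat k f).toHomUnits
  have hπ : ∀ g a b, (π g : Matrix (Fin (Nat.card (G ⧸ V))) (Fin (Nat.card (G ⧸ V))) k) a b =
      if a = f g b then 1 else 0 := fun g a b => rfl
  let M : G → Matrix (Fin n) (Fin m) k := fun g =>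
    (ρ g : Matrix (Fin n) (Fin n) k) * T * (τ g⁻¹ : Matrix (Fin m) (Fin m) k)
  have hM1 : ∀ g, ∀ v ∈ V, M (g * v) = M g := by
    intro g v hv
    change (ρ (g * v) : Matrix (Fin n) (Fin n) k) * T * (τ (g * v)⁻¹ : Matrix (Fin m) (Fin m) k) = _
    rw [_root_.mul_inv_rev, map_mul, map_mul, Units.val_mul, Units.val_mul,
      Matrix.mul_assoc (ρ g : Matrix (Fin n) (Fin n) k), h v hv]
    have e1 : (τ v : Matrix (Fin m) (Fin m) k) * (τ v⁻¹ : Matrix (Fin m) (Fin m) k) = 1 := by
      rw [← Units.val_mul, ← map_mul, mul_inv_cancel, map_one, Units.val_one]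
    calc _ = (ρ g : Matrix (Fin n) (Fin n) k) * T * ((τ v : Matrix (Fin m) (Fin m) k) *
          (τ v⁻¹ : Matrix (Fin m) (Fin m) k)) * (τ g⁻¹ : Matrix (Fin m) (Fin m) k) := by
          simp only [Matrix.mul_assoc]
      _ = _ := by rw [e1, Matrix.mul_one]
  have hM2 : ∀ σ g, M (σ * g) * (τ σ : Matrix (Fin m) (Fin m) k) =
      (ρ σ : Matrix (Fin n) (Fin n) k) * M g := by
    intro σ g
    change (ρ (σ * g) : Matrix (Fin n) (Fin n) k) * T *
      (τ (σ * g)⁻¹ : Matrix (Fin m) (Fin m) k) * _ = _ * (_ * T * _)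
    rw [_root_.mul_inv_rev, map_mul, map_mul, Units.val_mul, Units.val_mul]
    have e1 : (τ σ⁻¹ : Matrix (Fin m) (Fin m) k) * (τ σ : Matrix (Fin m) (Fin m) k) = 1 := by
      rw [← Units.val_mul, ← map_mul, inv_mul_cancel, map_one, Units.val_one]
    simp only [Matrix.mul_assoc]
    rw [e1, Matrix.mul_one]
  let o : G ⧸ V → G := Quotient.out
  have ho : ∀ q, ((o q : G) : G ⧸ V) = q := fun q => Quotient.out_eq q
  have hM3 : ∀ σ q, M (o (σ • q)) = M (σ * o q) := by
    intro σ q
    have h1 : ((σ * o q : G) : G ⧸ V) = ((o (σ • q) : G) : G ⧸ V) := by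
      rw [ho]
      change σ • ((o q : G) : G ⧸ V) = _
      rw [ho]
    have h2 := QuotientGroup.eq.1 h1
    have h3 := hM1 (σ * o q) _ h2
    rwa [mul_inv_cancel_left] at h3
  let E : Matrix (Fin n) (Fin m × Fin (Nat.card (G ⧸ V))) k :=
    Matrix.of fun i jq => M (o (e.symm jq.2)) i jq.1
  have hE : ∀ i j q, E i (j, q) = M (o (e.symm q)) i j := fun _ _ _ => rfl
  have heq : ∀ σ, (ρ σ : Matrix (Fin n) (Fin n) k) * E =
        E * ((τ σ : Matrix (Fin m) (Fin m) k) ⊗ₖ
          (π σ : Matrix (Fin (Nat.card (G ⧸ V))) (Fin (Nat.card (G ⧸ V))) k)) := by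
    intro σ
    ext i ⟨j, q⟩
    rw [Matrix.mul_apply, Matrix.mul_apply, Fintype.sum_prod_type]
    have h1 : ∑ a, (ρ σ : Matrix (Fin n) (Fin n) k) i a * E a (j, q) =
        ((ρ σ : Matrix (Fin n) (Fin n) k) * M (o (e.symm q))) i j := by
      rw [Matrix.mul_apply]
      exact Finset.sum_congr rfl fun a _ => by rw [hE]
    have h2 : ∀ a, ∑ b, E i (a, b) * ((τ σ : Matrix (Fin m) (Fin m) k) ⊗ₖ
          (π σ : Matrix (Fin (Nat.card (G ⧸ V))) (Fin (Nat.card (G ⧸ V))) k)) (a, b) (j, q) =
        M (σ * o (e.symm q)) i a * (τ σ : Matrix (Fin m) (Fin m) k) a j := by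
      intro a
      rw [Finset.sum_eq_single (f σ q)]
      · rw [hE, Matrix.kroneckerMap_apply, hπ, if_pos rfl, mul_one, hf, Equiv.symm_apply_apply, hM3]
      · intro b _ hb
        rw [Matrix.kroneckerMap_apply, hπ, if_neg hb, mul_zero, mul_zero]
      · intro hb
        exact absurd (Finset.mem_univ _) hb
    rw [h1, Finset.sum_congr rfl fun a _ => h2 a, ← hM2, Matrix.mul_apply]
  refine ⟨_, π, E, ?_, ?_, heq⟩
  · intro v hv
    apply Units.ext
    ext a b
    rw [hπ, Units.val_one, Matrix.one_apply, hf]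
    have h1 : v • e.symm b = e.symm b := by
      obtain ⟨g, hg⟩ := QuotientGroup.mk_surjective (e.symm b)
      rw [← hg]
      change ((v * g : G) : G ⧸ V) = (g : G ⧸ V)
      apply QuotientGroup.eq.2
      have h2 := (inferInstance : V.Normal).conj_mem _ (V.inv_mem hv) g⁻¹
      rw [inv_inv] at h2
      rwa [_root_.mul_inv_rev]
    rw [h1, Equiv.apply_symm_apply]
  · let W : Submodule k (Fin n → k) := LinearMap.range E.mulVecLin
    have hW : Stable ρ W := by
      rintro σ _ ⟨w, rfl⟩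
      refine ⟨((τ σ : Matrix (Fin m) (Fin m) k) ⊗ₖ
          (π σ : Matrix (Fin (Nat.card (G ⧸ V))) (Fin (Nat.card (G ⧸ V))) k)).mulVec w, ?_⟩
      rw [Matrix.mulVecLin_apply, Matrix.mulVecLin_apply, Matrix.mulVec_mulVec, Matrix.mulVec_mulVec,
        heq]
    rcases hirr W hW with h1 | h1
    · exfalso
      apply hT
      have h2 : E = 0 := by
        have h3 : E.mulVecLin = 0 := LinearMap.range_eq_bot.1 h1
        ext i j
        have h4 := congrFun (LinearMap.congr_fun h3 (Pi.single j 1)) i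
        rw [Matrix.mulVecLin_apply, Matrix.mulVec_single_one] at h4
        exact h4
      have h3 : M (o ((1 : G) : G ⧸ V)) = 0 := by
        ext i j
        have h4 := hE i j (e ((1 : G) : G ⧸ V))
        rw [Equiv.symm_apply_apply] at h4
        rw [← h4, h2]
        rfl
      have h4 : M (o ((1 : G) : G ⧸ V)) = M 1 := by
        have h5 : ((o ((1 : G) : G ⧸ V) : G) : G ⧸ V) = ((1 : G) : G ⧸ V) := ho _
        have h6 := QuotientGroup.eq.1 h5.symm
        have h7 := hM1 1 _ h6
        rwa [inv_one, one_mul, one_mul] at h7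
      rw [h4] at h3
      have h5 : M 1 = T := by
        change (ρ 1 : Matrix (Fin n) (Fin n) k) * T * (τ 1⁻¹ : Matrix (Fin m) (Fin m) k) = T
        rw [inv_one, map_one, map_one, Units.val_one, Units.val_one, Matrix.one_mul, Matrix.mul_one]
      rw [← h5]
      exact h3
    · intro v
      have h2 : v ∈ W := by rw [h1]; trivial
      obtain ⟨w, hw⟩ := h2
      exact ⟨w, hw⟩

end Pool.Agent.V11302.FM
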