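import Pool.Agent.Y802.Cliff
import Mathlib.LinearAlgebra.Matrix.Basis

/-! From a homomorphism on a normal subgroup to a twist by a character. -/

set_option autoImplicit false

namespace Pool.Agent.V11302.FM

open Module Pool.Agent.Y800 Pool.Agent.Y802 Matrix

variable {G : Type*} [Group G] {k : Type*} [Field k] {n : ℕ}

theorem twist_of_hom (ρ τ : G →* GL (Fin n) k) (hn : 0 < n) (V : Subgroup G) [V.Normal]
    (hspan : Submodule.span k {X | ∃ v ∈ V, X = (ρ v : Matrix (Fin n) (Fin n) k)} = ⊤)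
    (T : Matrix (Fin n) (Fin n) k) (hT : T ≠ 0)
    (h : ∀ v ∈ V, (ρ v : Matrix (Fin n) (Fin n) k) * T = T * (τ v : Matrix (Fin n) (Fin n) k)) :
    ∃ (Q : GL (Fin n) k) (ε : G →* kˣ), (∀ v ∈ V, ε v = 1) ∧
      ∀ σ, (ρ σ : Matrix (Fin n) (Fin n) k) = (ε σ : k) • ((Q : Matrix (Fin n) (Fin n) k) *
        (τ σ : Matrix (Fin n) (Fin n) k) * ((Q⁻¹ : GL (Fin n) k) : Matrix (Fin n) (Fin n) k)) := by
  classical
  -- `T` is invertible
  have hst : ∀ X : Matrix (Fin n) (Fin n) k, ∀ w ∈ LinearMap.range T.mulVecLin,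
      X.mulVec w ∈ LinearMap.range T.mulVecLin := by
    intro X
    have hX : X ∈ Submodule.span k {X | ∃ v ∈ V, X = (ρ v : Matrix (Fin n) (Fin n) k)} := by
      rw [hspan]; trivial
    induction hX using Submodule.span_induction with
    | mem X hX =>
      obtain ⟨v, hv, rfl⟩ := hX
      rintro _ ⟨u, rfl⟩
      refine ⟨(τ v : Matrix (Fin n) (Fin n) k).mulVec u, ?_⟩
      rw [Matrix.mulVecLin_apply, Matrix.mulVecLin_apply, Matrix.mulVec_mulVec,
        Matrix.mulVec_mulVec, h v hv]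
    | zero => intro w _; rw [Matrix.zero_mulVec]; exact zero_mem _
    | add X Y _ _ hX hY => intro w hw; rw [Matrix.add_mulVec]; exact add_mem (hX w hw) (hY w hw)
    | smul c X _ hX => intro w hw; rw [Matrix.smul_mulVec]; exact Submodule.smul_mem _ _ (hX w hw)
  have hex : ∃ w ∈ LinearMap.range T.mulVecLin, w ≠ 0 := by
    by_contra hcon
    push Not at hcon
    apply hT
    ext i j
    have h1 := hcon _ ⟨Pi.single j 1, rfl⟩
    rw [Matrix.mulVecLin_apply, Matrix.mulVec_single_one] at h1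
    exact congrFun h1 i
  obtain ⟨w, hw, hw0⟩ := hex
  obtain ⟨j, hj⟩ := Function.ne_iff.1 hw0
  have hsurj : Function.Surjective T.mulVec := by
    intro u
    have h1 := hst (Matrix.of fun a b => if b = j then u a * (w j)⁻¹ else 0) w hw
    have h2 : (Matrix.of fun a b => if b = j then u a * (w j)⁻¹ else 0).mulVec w = u := by
      funext a
      rw [Matrix.mulVec, dotProduct, Finset.sum_eq_single j]
      · rw [Matrix.of_apply, if_pos rfl, mul_assoc, inv_mul_cancel₀ hj, mul_one]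
      · intro b _ hb
        rw [Matrix.of_apply, if_neg hb, zero_mul]
      · intro hb
        exact absurd (Finset.mem_univ _) hb
    rw [h2] at h1
    obtain ⟨x, hx⟩ := h1
    exact ⟨x, hx⟩
  have hunit : IsUnit T := Matrix.mulVec_surjective_iff_isUnit.1 hsurj
  obtain ⟨Q, hQ⟩ := hunit
  -- the scalars
  let A : G → GL (Fin n) k := fun σ => ρ σ * Q * (τ σ)⁻¹ * Q⁻¹
  have hQv : ∀ v ∈ V, ρ v * Q = Q * τ v := by
    intro v hv
    apply Units.ext
    rw [Units.val_mul, Units.val_mul, hQ]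
    exact h v hv
  have hcomm : ∀ σ, ∀ v ∈ V, ρ v * A σ = A σ * ρ v := by
    intro σ v hv
    have hv' : σ⁻¹ * v * σ ∈ V := by
      have := (inferInstance : V.Normal).conj_mem v hv σ⁻¹
      rwa [inv_inv] at this
    have e1 : ρ v * ρ σ = ρ σ * ρ (σ⁻¹ * v * σ) := by
      rw [← map_mul, ← map_mul]
      congr 1
      group
    have e2 : τ (σ⁻¹ * v * σ) * (τ σ)⁻¹ = (τ σ)⁻¹ * τ v := by
      rw [map_mul, map_mul, map_inv, mul_assoc, mul_inv_cancel, mul_one]
    have e3 : τ v * Q⁻¹ = Q⁻¹ * ρ v := by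
      have := hQv v hv
      calc τ v * Q⁻¹ = Q⁻¹ * (Q * τ v) * Q⁻¹ := by group
        _ = Q⁻¹ * ρ v := by rw [← this]; group
    calc ρ v * A σ = (ρ v * ρ σ) * Q * (τ σ)⁻¹ * Q⁻¹ := by
          change ρ v * (ρ σ * Q * (τ σ)⁻¹ * Q⁻¹) = _
          group
      _ = ρ σ * (ρ (σ⁻¹ * v * σ) * Q) * (τ σ)⁻¹ * Q⁻¹ := by rw [e1]; group
      _ = ρ σ * Q * (τ (σ⁻¹ * v * σ) * (τ σ)⁻¹) * Q⁻¹ := by rw [hQv _ hv']; group
      _ = ρ σ * Q * (τ σ)⁻¹ * (τ v * Q⁻¹) := by rw [e2]; group
      _ = A σ * ρ v := by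
          rw [e3]
          change _ = ρ σ * Q * (τ σ)⁻¹ * Q⁻¹ * ρ v
          group
  have hcomm2 : ∀ σ, ∀ X : Matrix (Fin n) (Fin n) k, Commute X (A σ : Matrix (Fin n) (Fin n) k) := by
    intro σ X
    have hX : X ∈ Submodule.span k {X | ∃ v ∈ V, X = (ρ v : Matrix (Fin n) (Fin n) k)} := by
      rw [hspan]; trivial
    induction hX using Submodule.span_induction with
    | mem X hX =>
      obtain ⟨v, hv, rfl⟩ := hX
      have := congrArg (fun u : GL (Fin n) k => (u : Matrix (Fin n) (Fin n) k)) (hcomm σ v hv)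
      exact this
    | zero => exact Commute.zero_left _
    | add X Y _ _ hX hY => exact hX.add_left hY
    | smul c X _ hX => exact hX.smul_left c
  have hsc : ∀ σ, ∃ c : k, (A σ : Matrix (Fin n) (Fin n) k) = c • 1 := by
    intro σ
    obtain ⟨c, hc⟩ := Matrix.mem_range_scalar_of_commute_single (M := (A σ : Matrix (Fin n) (Fin n) k))
      (fun i j _ => hcomm2 σ _)
    exact ⟨c, by rw [← hc, Matrix.scalar_apply, Matrix.smul_one_eq_diagonal]⟩
  choose e he using hsc
  have hρ : ∀ σ, (ρ σ : Matrix (Fin n) (Fin n) k) = e σ • ((Q : Matrix (Fin n) (Fin n) k) *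
        (τ σ : Matrix (Fin n) (Fin n) k) * ((Q⁻¹ : GL (Fin n) k) : Matrix (Fin n) (Fin n) k)) := by
    intro σ
    have e1 : ρ σ = A σ * (Q * τ σ * Q⁻¹) := by
      change ρ σ = ρ σ * Q * (τ σ)⁻¹ * Q⁻¹ * (Q * τ σ * Q⁻¹)
      group
    conv_lhs => rw [e1]
    rw [Units.val_mul, he, smul_mul_assoc, one_mul, Units.val_mul, Units.val_mul]
  have hne : Nonempty (Fin n) := ⟨⟨0, hn⟩⟩
  have hcancel : ∀ (a b : k) (X : GL (Fin n) k), a • (X : Matrix (Fin n) (Fin n) k) =
      b • (X : Matrix (Fin n) (Fin n) k) → a = b := by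
    intro a b X hab
    have h1 := congrArg (fun Y => Y * ((X⁻¹ : GL (Fin n) k) : Matrix (Fin n) (Fin n) k)) hab
    simp only [smul_mul_assoc] at h1
    rw [Units.mul_inv] at h1
    have h2 := congrFun (congrFun h1 ⟨0, hn⟩) ⟨0, hn⟩
    rw [Matrix.smul_apply, Matrix.smul_apply, Matrix.one_apply_eq, smul_eq_mul, smul_eq_mul, mul_one,
      mul_one] at h2
    exact h2
  have he1 : ∀ v ∈ V, e v = 1 := by
    intro v hv
    have h1 : A v = 1 := by
      change ρ v * Q * (τ v)⁻¹ * Q⁻¹ = 1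
      rw [hQv v hv]
      group
    have h2 := he v
    rw [h1, Units.val_one] at h2
    apply hcancel _ _ (1 : GL (Fin n) k)
    rw [Units.val_one, ← h2, one_smul]
  let ε0 : G →* k :=
    { toFun := e
      map_one' := he1 1 V.one_mem
      map_mul' := fun σ σ' => by
        apply hcancel _ _ (Q * τ (σ * σ') * Q⁻¹)
        rw [Units.val_mul, Units.val_mul, ← hρ, map_mul, Units.val_mul, hρ σ, hρ σ', smul_mul_smul_comm]
        congr 1
        have e1 : (Q * τ σ * Q⁻¹) * (Q * τ σ' * Q⁻¹) = Q * (τ σ * τ σ') * Q⁻¹ := by group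
        have e2 := congrArg (fun u : GL (Fin n) k => (u : Matrix (Fin n) (Fin n) k)) e1
        simp only [Units.val_mul] at e2
        rw [map_mul, Units.val_mul]
        exact e2 }
  refine ⟨Q, ε0.toHomUnits, fun v hv => Units.ext (he1 v hv), fun σ => ?_⟩
  exact hρ σ

end Pool.Agent.V11302.FM
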