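import Pool.Agent.V11302.FM.BInt
import Pool.Agent.V11302.FM.Dens
import Pool.Agent.V11302.FM.Cliff
import Pool.Agent.V11302.FM.Ind
import Pool.Agent.V11302.FM.Twist
import Pool.Agent.Y802.TS.Main

/-! Representations over finite extensions of the field of `p`-adic numbers whose Frobenius eigenvalues at a
sparse set of primes agree, up to roots of unity, with those of a member of a finite family. -/

set_option autoImplicit false

open Matrix IsLocalRing Finset NumberField Topology Polynomial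

namespace Pool.Agent.V11302.FM

attribute [local instance 10] DivisionRing.toRatAlgebra

open Pool.Agent.Y800 Pool.Agent.Y802 Pool.Agent.Y802.TS Kronecker

theorem trace_ne_zeroB (p : ℕ) [hp : Fact p.Prime] (n : ℕ) (hn : 0 < n) :
    ∃ i : ℕ, ∀ X : Matrix (Fin n) (Fin n) (OB p),
      (∀ a b, (X - 1) a b ∈ JB p i) → X.trace ≠ 0 := by
  have hp1 : (1 : ℝ) < p := by exact_mod_cast hp.out.one_lt
  have hpi : ((p : ℝ)⁻¹) < 1 := inv_lt_one_of_one_lt₀ hp1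
  have hn0 : (n : PadicAlgCl p) ≠ 0 := by exact_mod_cast hn.ne'
  obtain ⟨i, hi⟩ := exists_pow_lt_of_lt_one (norm_pos_iff.2 hn0) hpi
  refine ⟨i, fun X hX h0 => ?_⟩
  have h1 : (X - 1).trace ∈ JB p i := by
    rw [Matrix.trace]
    exact Ideal.sum_mem _ fun k _ => hX k k
  rw [Matrix.trace_sub, Matrix.trace_one, Fintype.card_fin, h0, zero_sub, neg_mem_iff, mem_JB] at h1
  have h2 : (((n : ℕ) : OB p) : PadicAlgCl p) = (n : PadicAlgCl p) := by simp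
  rw [h2] at h1
  linarith

/-- **The main estimate.** -/
theorem est4B (p : ℕ) [hp : Fact p.Prime] (E : IntermediateField ℚ_[p] (PadicAlgCl p))
    [FiniteDimensional ℚ_[p] E] (n : ℕ) (hn : 0 < n) {Γ : Subgroup GQ}
    (hΓ : IsOpen (Γ : Set GQ)) (ρ : Γ →* GL (Fin n) E) (hρ : Continuous ρ)
    (hS : ∃ S : Finset ℕ, ∀ q : ℕ, q.Prime → q ∉ S → ∀ P : Ideal ZBar, P.IsMaximal →
      (q : ZBar) ∈ P → ∀ τ : GQ, ∀ h : τ ∈ Γ, InInertia P τ → ρ ⟨τ, h⟩ = 1)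
    {r : ℕ} (τ : Fin r → Γ →* GL (Fin n) E) (hτ : ∀ c, Continuous (τ c))
    (hSτ : ∀ c, ∃ S : Finset ℕ, ∀ q : ℕ, q.Prime → q ∉ S → ∀ P : Ideal ZBar, P.IsMaximal →
      (q : ZBar) ∈ P → ∀ t : GQ, ∀ h : t ∈ Γ, InInertia P t → τ c ⟨t, h⟩ = 1)
    (g : ℕ → GQ) (hg : ∀ U : Subgroup GQ, IsOpen (U : Set GQ) → ∀ (γ : GQ) (j0 : ℕ),
      ∃ j, j0 ≤ j ∧ γ⁻¹ * g j ∈ U)
    (N : ℕ → ℕ) (hN : ∀ j, 1 ≤ N j) (x : ℕ → GQ)
    (hx : ∀ j, x j * (g j ^ N j)⁻¹ ∈ Hj j (N j)) (j1 : ℕ)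
    (hfrob : ∀ j ≥ j1, ∀ h : x j ∈ Γ, ∃ c, ∃ a : ℕ, a ≠ 0 ∧
      ((ρ ⟨x j, h⟩ : Matrix (Fin n) (Fin n) E) ^ a).charpoly =
        ((τ c ⟨x j, h⟩ : Matrix (Fin n) (Fin n) E) ^ a).charpoly) :
    ∃ U : Subgroup GQ, IsOpen (U : Set GQ) ∧ U ≤ Γ ∧ ∀ γ ∈ U, ∀ h : γ ∈ Γ,
      (ρ ⟨γ, h⟩ : Matrix (Fin n) (Fin n) E).trace ≠ 0 ∧ ∃ c,
      (ρ ⟨γ, h⟩ : Matrix (Fin n) (Fin n) E).charpoly =
        (τ c ⟨γ, h⟩ : Matrix (Fin n) (Fin n) E).charpoly := by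
  obtain ⟨Γ0, ρ0, K0, s0, hΓ0Γ, hρ0, hop0, hmo0, hK0, j0, hj0⟩ := integral_starB p E n hΓ ρ hρ hS
  choose Γ1 τ1 K1 s1 hΓ1Γ hτ1 hop1 hmo1 hK1 j2 hj2 using
    fun c => integral_starB p E n hΓ (τ c) (hτ c) (hSτ c)
  let G : Subgroup GQ := Γ0 ⊓ ⨅ c, Γ1 c
  have hG0 : G ≤ Γ0 := inf_le_left
  have hG1 : ∀ c, G ≤ Γ1 c := fun c => inf_le_right.trans (iInf_le _ c)
  let ρ' : G →* GL (Fin n) (OB p) := ρ0.comp (Subgroup.inclusion hG0)
  let τ' : Fin r → G →* GL (Fin n) (OB p) := fun c => (τ1 c).comp (Subgroup.inclusion (hG1 c))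
  let K : ℕ → Subgroup GQ := fun i => K0 i ⊓ ⨅ c, K1 c i
  have hKG : ∀ i γ, γ ∈ K i → ∃ h : γ ∈ G,
      (∀ a b, ((ρ' ⟨γ, h⟩ : Matrix (Fin n) (Fin n) (OB p)) - 1) a b ∈ JB p i) ∧
      (∀ c, ∀ a b, ((τ' c ⟨γ, h⟩ : Matrix (Fin n) (Fin n) (OB p)) - 1) a b ∈ JB p i) := by
    rintro i γ ⟨h1, h2⟩
    obtain ⟨h3, h4⟩ := hK0 i γ h1
    have h5 : ∀ c, γ ∈ K1 c i := fun c => by
      have := (Subgroup.mem_iInf.1 h2) c
      exact this
    have h6 : γ ∈ G := by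
      refine Subgroup.mem_inf.2 ⟨h3, Subgroup.mem_iInf.2 fun c => ?_⟩
      obtain ⟨h7, _⟩ := hK1 c i γ (h5 c)
      exact h7
    refine ⟨h6, h4, fun c => ?_⟩
    obtain ⟨h7, h8⟩ := hK1 c i γ (h5 c)
    exact h8
  have hKopen : ∀ i, IsOpen (K i : Set GQ) := by
    intro i
    change IsOpen ((K0 i : Set GQ) ∩ ((⨅ c, K1 c i : Subgroup GQ) : Set GQ))
    rw [Subgroup.coe_iInf]
    exact (hop0 i).inter (isOpen_iInter_of_finite fun c => hop1 c i)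
  have hKmono : ∀ i i', i ≤ i' → K i' ≤ K i := by
    intro i i' hi
    exact inf_le_inf (hmo0 _ _ hi) (iInf_mono fun c => hmo1 c _ _ hi)
  have hbd : ∃ j3, ∀ c, j2 c ≤ j3 := by
    obtain ⟨b, hb⟩ := (Set.finite_range j2).bddAbove
    exact ⟨b, fun c => hb ⟨c, rfl⟩⟩
  obtain ⟨j3, hj3⟩ := hbd
  have hbd2 : ∃ s3, ∀ c, s1 c ≤ s3 := by
    obtain ⟨b, hb⟩ := (Set.finite_range s1).bddAbove
    exact ⟨b, fun c => hb ⟨c, rfl⟩⟩
  obtain ⟨s3, hs3⟩ := hbd2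
  have hstar : ∃ j0, ∀ j ≥ j0, ∀ N ≥ 1, Hj j N ≤ K ((j - max s0 s3) * N) := by
    refine ⟨max j0 j3, fun j hj N hN => le_inf ?_ (le_iInf fun c => ?_)⟩
    · exact (hj0 j ((le_max_left _ _).trans hj) N hN).trans (hmo0 _ _ (Nat.mul_le_mul_right _
        (by have := le_max_left s0 s3; omega)))
    · exact (hj2 c j ((hj3 c).trans ((le_max_right _ _).trans hj)) N hN).trans
        (hmo1 c _ _ (Nat.mul_le_mul_right _ (by
          have := le_max_right s0 s3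
          have := hs3 c
          omega)))
  have hinj : Function.Injective (algebraMap E (PadicAlgCl p)) := (algebraMap E (PadicAlgCl p)).injective
  have hval : ∀ (γ : GQ) (h : γ ∈ G) (h' : γ ∈ Γ), Ψ (ρ' ⟨γ, h⟩ : Matrix (Fin n) (Fin n) (OB p)) =
      (algebraMap E (PadicAlgCl p)).mapMatrix (ρ ⟨γ, h'⟩ : Matrix (Fin n) (Fin n) E) :=
    fun γ h h' => hρ0 γ (hG0 h) h'
  have hvalτ : ∀ (c : Fin r) (γ : GQ) (h : γ ∈ G) (h' : γ ∈ Γ),
      Ψ (τ' c ⟨γ, h⟩ : Matrix (Fin n) (Fin n) (OB p)) =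
        (algebraMap E (PadicAlgCl p)).mapMatrix (τ c ⟨γ, h'⟩ : Matrix (Fin n) (Fin n) E) :=
    fun c γ h h' => hτ1 c γ (hG1 c h) h'
  have hcp : ∀ (X : Matrix (Fin n) (Fin n) (OB p)) (Y : Matrix (Fin n) (Fin n) E),
      Ψ X = (algebraMap E (PadicAlgCl p)).mapMatrix Y → ∀ a : ℕ,
      (Ψ (X ^ a)).charpoly = (Y ^ a).charpoly.map (algebraMap E (PadicAlgCl p)) := by
    intro X Y h a
    rw [Ψ_pow, h, ← map_pow, ← Matrix.charpoly_map]
    rfl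
  have hiff : ∀ (X X' : Matrix (Fin n) (Fin n) (OB p)) (Y Y' : Matrix (Fin n) (Fin n) E),
      Ψ X = (algebraMap E (PadicAlgCl p)).mapMatrix Y →
      Ψ X' = (algebraMap E (PadicAlgCl p)).mapMatrix Y' → ∀ a : ℕ,
      ((X ^ a).charpoly = (X' ^ a).charpoly ↔ (Y ^ a).charpoly = (Y' ^ a).charpoly) := by
    intro X X' Y Y' h h' a
    rw [← charpoly_inj, hcp X Y h, hcp X' Y' h']
    exact (map_injective _ hinj).eq_iff
  have hGΓ : G ≤ Γ := hG0.trans hΓ0Γ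
  have main := est3B ρ' τ' g hg N hN x hx K hKG hKmono hKopen (max s0 s3) hstar j1 (by
    intro j hj h
    obtain ⟨c, a, ha, h1⟩ := hfrob j hj (hGΓ h)
    exact ⟨c, a, ha, (hiff _ _ _ _ (hval _ h (hGΓ h)) (hvalτ c _ h (hGΓ h)) a).2 h1⟩)
  obtain ⟨i1, hi1⟩ := trace_ne_zeroB p n hn
  refine ⟨K (max 2 i1), hKopen _, ?_, ?_⟩
  · intro γ hγ
    obtain ⟨h, _⟩ := hKG _ _ hγ
    exact hGΓ h
  · intro γ hγ h
    obtain ⟨h1, h2, _⟩ := hKG _ _ (hKmono _ _ (le_max_right 2 i1) hγ)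
    constructor
    · have h3 := hi1 _ h2
      intro h4
      apply h3
      apply Subtype.ext
      have h5 : ((ρ' ⟨γ, h1⟩ : Matrix (Fin n) (Fin n) (OB p)).trace : PadicAlgCl p) =
          (Ψ (ρ' ⟨γ, h1⟩ : Matrix (Fin n) (Fin n) (OB p))).trace := by
        rw [Matrix.trace, Matrix.trace]
        exact map_sum (OB p).subtype _ _
      have h6 : ((algebraMap E (PadicAlgCl p)).mapMatrix
          (ρ ⟨γ, h⟩ : Matrix (Fin n) (Fin n) E)).trace =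
          algebraMap E (PadicAlgCl p) (ρ ⟨γ, h⟩ : Matrix (Fin n) (Fin n) E).trace := by
        rw [Matrix.trace, Matrix.trace]
        exact (map_sum (algebraMap E (PadicAlgCl p)) _ _).symm
      rw [h5, hval γ h1 h, h6, h4, map_zero]
      rfl
    · obtain ⟨c, hc⟩ := main γ (hKmono _ _ (le_max_left 2 i1) hγ) h1
      refine ⟨c, ?_⟩
      have h3 := (hiff _ _ _ _ (hval γ h1 h) (hvalτ c γ h1 h) 1).1 (by
        rw [pow_one, pow_one]; exact hc)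
      rwa [pow_one, pow_one] at h3

theorem trace_of_charpolyB {K : Type*} [Field K] {n : ℕ} (hn : 0 < n) {A B : Matrix (Fin n) (Fin n) K}
    (h : A.charpoly = B.charpoly) : A.trace = B.trace := by
  have : Nonempty (Fin n) := ⟨⟨0, hn⟩⟩
  rw [Matrix.trace_eq_neg_charpoly_coeff, Matrix.trace_eq_neg_charpoly_coeff, h]

/-- one member of the family has the same traces on a coset of an open normal subgroup -/
theorem exists_cosetB {k : Type*} [Field k] [TopologicalSpace k] [IsTopologicalRing k] [T2Space k]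
    (n : ℕ) {Γ : Subgroup GQ}
    (hΓ : IsOpen (Γ : Set GQ)) (ρ : Γ →* GL (Fin n) k) (hρ : Continuous ρ)
    {r : ℕ} (τ : Fin r → Γ →* GL (Fin n) k) (hτ : ∀ c, Continuous (τ c))
    (U : Subgroup GQ) (hU : IsOpen (U : Set GQ))
    (h : ∀ γ ∈ U, ∀ h : γ ∈ Γ, ∃ c, (ρ ⟨γ, h⟩ : Matrix (Fin n) (Fin n) k).trace =
        (τ c ⟨γ, h⟩ : Matrix (Fin n) (Fin n) k).trace) :
    ∃ (c : Fin r) (x : Γ) (V : Subgroup GQ), (x : GQ) ∈ U ∧ IsOpen (V : Set GQ) ∧ V.Normal ∧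
      ∀ v : Γ, (v : GQ) ∈ V → (ρ (x * v) : Matrix (Fin n) (Fin n) k).trace =
        (τ c (x * v) : Matrix (Fin n) (Fin n) k).trace := by
  have hcl : IsClosed (Γ : Set GQ) := Subgroup.isClosed_of_isOpen Γ hΓ
  have hcomp : CompactSpace Γ := isCompact_iff_compactSpace.1 hcl.isCompact
  have htr : ∀ (σ : Γ →* GL (Fin n) k), Continuous σ →
      Continuous fun γ => (σ γ : Matrix (Fin n) (Fin n) k).trace := by
    intro σ hσ
    have h1 : Continuous fun γ => (σ γ : Matrix (Fin n) (Fin n) k) :=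
      Units.continuous_val.comp hσ
    exact h1.matrix_trace
  let F : Option (Fin r) → Set Γ := fun i => match i with
    | none => {γ | (γ : GQ) ∉ U}
    | some c => {γ | (ρ γ : Matrix (Fin n) (Fin n) k).trace =
        (τ c γ : Matrix (Fin n) (Fin n) k).trace}
  have hF : ∀ i, IsClosed (F i) := by
    intro i
    match i with
    | none =>
      have h1 : IsOpen {γ : Γ | (γ : GQ) ∈ U} := hU.preimage continuous_subtype_val
      exact h1.isClosed_compl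
    | some c => exact isClosed_eq (htr ρ hρ) (htr (τ c) (hτ c))
  have hFU : ⋃ i, F i = Set.univ := by
    rw [Set.eq_univ_iff_forall]
    intro γ
    rw [Set.mem_iUnion]
    by_cases hγ : (γ : GQ) ∈ U
    · obtain ⟨c, hc⟩ := h γ hγ γ.2
      exact ⟨some c, hc⟩
    · exact ⟨none, hγ⟩
  have hd := dense_iUnion_interior_of_closed hF hFU
  have hUo : IsOpen {γ : Γ | (γ : GQ) ∈ U} := hU.preimage continuous_subtype_val
  obtain ⟨x, hx1, hx2⟩ := hd.inter_open_nonempty _ hUo ⟨1, U.one_mem⟩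
  rw [Set.mem_iUnion] at hx2
  obtain ⟨i, hi⟩ := hx2
  match i, hi with
  | none, hi => exact absurd hx1 (interior_subset hi)
  | some c, hi =>
    have hO : IsOpen {v : Γ | x * v ∈ interior (F (some c))} :=
      isOpen_interior.preimage (continuous_const.mul continuous_id)
    have hO1 : IsOpen ((Subtype.val : Γ → GQ) '' {v : Γ | x * v ∈ interior (F (some c))}) :=
      hΓ.isOpenEmbedding_subtypeVal.isOpenMap _ hO
    have hO2 : ((Subtype.val : Γ → GQ) '' {v : Γ | x * v ∈ interior (F (some c))}) ∈ 𝓝 (1 : GQ) := by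
      apply hO1.mem_nhds
      refine ⟨1, ?_, rfl⟩
      rw [Set.mem_ofPred, mul_one]
      exact hi
    obtain ⟨E, hE, hEs⟩ := (krullTopology_mem_nhds_one_iff ℚ (AlgebraicClosure ℚ) _).1 hO2
    have hV0 : IsOpen (E.fixingSubgroup : Set GQ) := E.fixingSubgroup_isOpen
    refine ⟨c, x, E.fixingSubgroup.normalCore, hx1, core_open hV0, Subgroup.normalCore_normal _, ?_⟩
    intro v hv
    obtain ⟨w, hw, hwv⟩ := hEs (Subgroup.normalCore_le _ hv)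
    have hwv' : w = v := Subtype.ext hwv
    rw [← hwv']
    have h5 : x * w ∈ F (some c) := interior_subset hw
    exact h5

theorem mainB (f : ℕ → ℕ) :
    ∃ (T : ℕ → ℕ) (k L : IntermediateField ℚ (AlgebraicClosure ℚ)),
      (∀ i, (T i).Prime) ∧ (∀ i, f (T i) + T i < T (i + 1)) ∧ IsTower k L T ∧
      ∀ (Γ : Subgroup GQ), IsOpen (Γ : Set GQ) → ∀ (p : ℕ) [Fact p.Prime]
        (E : IntermediateField ℚ_[p] (PadicAlgCl p)), FiniteDimensional ℚ_[p] E → ∀ (n : ℕ)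
        (ρ : Γ →* GL (Fin n) E), Continuous ρ →
        (∃ S : Finset ℕ, ∀ q : ℕ, q.Prime → q ∉ S → ∀ P : Ideal ZBar, P.IsMaximal →
          (q : ZBar) ∈ P → ∀ τ : GQ, ∀ h : τ ∈ Γ, InInertia P τ → ρ ⟨τ, h⟩ = 1) →
        Irr ρ → 0 < n →
        ∀ (r : ℕ) (τ : Fin r → Γ →* GL (Fin n) E), (∀ c, Continuous (τ c)) →
        (∀ c, ∃ S : Finset ℕ, ∀ q : ℕ, q.Prime → q ∉ S → ∀ P : Ideal ZBar, P.IsMaximal →
          (q : ZBar) ∈ P → ∀ t : GQ, ∀ h : t ∈ Γ, InInertia P t → τ c ⟨t, h⟩ = 1) →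
        (∀ c, IsSemisimpleRep (τ c)) →
        (∃ i0, ∀ i ≥ i0, ∀ P : Ideal ZBar, P.IsMaximal → (T i : ZBar) ∈ P →
          ∀ σ : GQ, ∀ h : σ ∈ Γ, IsGeomFrob (T i) P σ → ∃ c, ∃ a : ℕ, a ≠ 0 ∧
            ((ρ ⟨σ, h⟩ : Matrix (Fin n) (Fin n) E) ^ a).charpoly =
              ((τ c ⟨σ, h⟩ : Matrix (Fin n) (Fin n) E) ^ a).charpoly) →
        ∃ (c : Fin r) (d : ℕ) (π : Γ →* GL (Fin d) E)
          (A : Matrix (Fin n) (Fin n × Fin d) E),
          (∃ V : Subgroup GQ, IsOpen (V : Set GQ) ∧ ∀ σ : Γ, (σ : GQ) ∈ V → π σ = 1) ∧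
          Function.Surjective A.mulVec ∧ (∀ σ, (ρ σ : Matrix (Fin n) (Fin n) E) * A =
            A * ((τ c σ : Matrix (Fin n) (Fin n) E) ⊗ₖ
              (π σ : Matrix (Fin d) (Fin d) E))) ∧
          ((∀ V : Subgroup GQ, IsOpen (V : Set GQ) →
              Submodule.span E {X | ∃ σ : Γ, (σ : GQ) ∈ V ∧
                X = (ρ σ : Matrix (Fin n) (Fin n) E)} = ⊤) →
            ∃ (Q : GL (Fin n) E) (ε : Γ →* (E : Type)ˣ),
              (∃ V : Subgroup GQ, IsOpen (V : Set GQ) ∧ ∀ σ : Γ, (σ : GQ) ∈ V → ε σ = 1) ∧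
              ∀ σ, (ρ σ : Matrix (Fin n) (Fin n) E) =
                (ε σ : E) • ((Q : Matrix (Fin n) (Fin n) E) *
                  (τ c σ : Matrix (Fin n) (Fin n) E) *
                  ((Q⁻¹ : GL (Fin n) E) : Matrix (Fin n) (Fin n) E))) := by
  obtain ⟨g, hg⟩ := exists_dense
  obtain ⟨k, L, T, N, x, hT1, hT2, htow, hx1, hN, hx2⟩ := exists_tower f g
  refine ⟨T, k, L, hT1, hT2, htow, ?_⟩
  intro Γ hΓ p hp E hE n ρ hρ hS hirr hn r τ hτ hSτ hss hfr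
  obtain ⟨i0, hi0⟩ := hfr
  obtain ⟨U, hU, hUΓ, h1⟩ := est4B p E n hn hΓ ρ hρ hS τ hτ hSτ g hg N hN x hx2 i0 (by
    intro j hj h
    obtain ⟨P, hP, hTP, hxP⟩ := hx1 j
    exact hi0 j hj P hP hTP (x j) h hxP)
  obtain ⟨c, y, V, hyU, hV, hVn, h2⟩ := exists_cosetB n hΓ ρ hρ τ hτ U hU (by
    intro γ hγ h
    obtain ⟨_, c, hc⟩ := h1 γ hγ h
    exact ⟨c, trace_of_charpolyB hn hc⟩)
  have hVs : (V.subgroupOf Γ).Normal := inferInstance
  have hfi : V.FiniteIndex := finiteIndex_of_open hV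
  have hfi2 : (V.subgroupOf Γ).FiniteIndex := inferInstance
  have hfin : Finite (Γ ⧸ V.subgroupOf Γ) := inferInstance
  obtain ⟨T', hT', h3⟩ := exists_hom ρ (τ c) (V.subgroupOf Γ)
    (clifford ρ hirr _) (clifford_ss (τ c) (hss c) _) y (h1 y hyU y.2).1 (fun v hv => h2 v hv)
  obtain ⟨d, π, A, h4, h5, h6⟩ := induced ρ hirr (τ c) (V.subgroupOf Γ) hfin T' hT' h3
  refine ⟨c, d, π, A, ⟨V, hV, fun σ hσ => h4 σ hσ⟩, h5, h6, fun hsp => ?_⟩
  obtain ⟨Q, ε, h7, h8⟩ := twist_of_hom ρ (τ c) hn (V.subgroupOf Γ) (hsp V hV) T' hT' h3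
  exact ⟨Q, ε, ⟨V, hV, fun σ hσ => h7 σ hσ⟩, h8⟩

end Pool.Agent.V11302.FM
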