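import Pool.Agent.V11302.FM.NEq

/-! Matrices over the ring of integers of the algebraic closure whose characteristic polynomials have the
same absolute values near one. -/

set_option autoImplicit false

open Matrix IsLocalRing Finset NumberField Topology Polynomial

namespace Pool.Agent.V11302.FM

variable {p : ℕ} [hp : Fact p.Prime] {n m : ℕ}

/-- the ideal of the elements of absolute value at most `p ^ (-i)` -/
noncomputable def JB (p : ℕ) [hp : Fact p.Prime] (i : ℕ) : Ideal (OB p) where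
  carrier := {x | ‖(x : PadicAlgCl p)‖ ≤ ((p : ℝ)⁻¹) ^ i}
  add_mem' := fun {x y} hx hy => by
    change ‖((x + y : OB p) : PadicAlgCl p)‖ ≤ _
    exact (IsUltrametricDist.norm_add_le_max _ _).trans (max_le hx hy)
  zero_mem' := by
    change ‖((0 : OB p) : PadicAlgCl p)‖ ≤ _
    have h0 : ((0 : OB p) : PadicAlgCl p) = 0 := rfl
    rw [h0, norm_zero]
    exact pow_nonneg (inv_nonneg.2 (Nat.cast_nonneg p)) _
  smul_mem' := fun c x hx => by
    change ‖((c * x : OB p) : PadicAlgCl p)‖ ≤ _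
    have h0 : ((c * x : OB p) : PadicAlgCl p) = (c : PadicAlgCl p) * x := rfl
    have h1 : ‖(c : PadicAlgCl p)‖ ≤ 1 := mem_OB.1 c.2
    have h2 : ‖(x : PadicAlgCl p)‖ ≤ ((p : ℝ)⁻¹) ^ i := hx
    rw [h0, norm_mul]
    calc _ ≤ 1 * ((p : ℝ)⁻¹) ^ i := mul_le_mul h1 h2 (norm_nonneg _) zero_le_one
      _ = _ := one_mul _

theorem mem_JB {i : ℕ} {x : OB p} : x ∈ JB p i ↔ ‖(x : PadicAlgCl p)‖ ≤ ((p : ℝ)⁻¹) ^ i := Iff.rfl

theorem JB_mono {i j : ℕ} (h : i ≤ j) : JB p j ≤ JB p i := by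
  intro x hx
  rw [mem_JB] at hx ⊢
  have hp1 : (1 : ℝ) < p := by exact_mod_cast hp.out.one_lt
  have hpi : ((p : ℝ)⁻¹) < 1 := inv_lt_one_of_one_lt₀ hp1
  have hpi0 : 0 < ((p : ℝ)⁻¹) := inv_pos.2 (by linarith)
  exact hx.trans (pow_le_pow_of_le_one hpi0.le hpi.le h)

/-- the matrix over the algebraic closure -/
noncomputable def Ψ (A : Matrix (Fin n) (Fin n) (OB p)) : Matrix (Fin n) (Fin n) (PadicAlgCl p) :=
  (OB p).subtype.mapMatrix A

theorem Ψ_pow (A : Matrix (Fin n) (Fin n) (OB p)) (k : ℕ) : Ψ (A ^ k) = Ψ A ^ k := map_pow _ _ _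

theorem near_of_memB {A : Matrix (Fin n) (Fin n) (OB p)} {i : ℕ}
    (h : ∀ a b, (A - 1) a b ∈ JB p i) (a b : Fin n) :
    ‖(Ψ A - 1) a b‖ ≤ ((p : ℝ)⁻¹) ^ i := by
  have h2 : Ψ A - 1 = Ψ (A - 1) := by rw [Ψ, Ψ, map_sub, map_one]
  rw [h2]
  exact h a b

theorem charpoly_Ψ (A : Matrix (Fin n) (Fin n) (OB p)) :
    (Ψ A).charpoly = A.charpoly.map (OB p).subtype := by
  rw [← Matrix.charpoly_map]
  rfl

theorem charpoly_inj {A B : Matrix (Fin n) (Fin n) (OB p)} :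
    (Ψ A).charpoly = (Ψ B).charpoly ↔ A.charpoly = B.charpoly := by
  rw [charpoly_Ψ, charpoly_Ψ]
  have hinj : Function.Injective (OB p).subtype := Subtype.coe_injective
  exact (map_injective _ hinj).eq_iff

/-- the characteristic polynomial is determined by its absolute values near one -/
theorem charpoly_eq_of_normB {A B : Matrix (Fin n) (Fin n) (OB p)}
    (hA : ∀ a b, (A - 1) a b ∈ JB p 2)
    (hB : ∀ a b, (B - 1) a b ∈ JB p 2)
    (h : ∀ z : PadicAlgCl p, ‖z - 1‖ ≤ ((p : ℝ)⁻¹) ^ 2 →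
      ‖(Ψ A).charpoly.eval z‖ = ‖(Ψ B).charpoly.eval z‖) : A.charpoly = B.charpoly := by
  have hp1 : (1 : ℝ) < p := by exact_mod_cast hp.out.one_lt
  have hpi : ((p : ℝ)⁻¹) < 1 := inv_lt_one_of_one_lt₀ hp1
  have hpi0 : 0 < ((p : ℝ)⁻¹) := inv_pos.2 (by linarith)
  have hA0 : (Ψ A).charpoly ≠ 0 := (Matrix.charpoly_monic _).ne_zero
  have hB0 : (Ψ B).charpoly ≠ 0 := (Matrix.charpoly_monic _).ne_zero
  have hr : (Ψ A).charpoly.roots = (Ψ B).charpoly.roots := by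
    classical
    refine Multiset.ext.2 fun l => ?_
    rw [count_roots, count_roots]
    by_cases hl : ‖l - 1‖ ≤ ((p : ℝ)⁻¹) ^ 2
    · have h1 : ∀ k ≥ 2, ‖(l + (p : PadicAlgCl p) ^ k) - 1‖ ≤ ((p : ℝ)⁻¹) ^ 2 := by
        intro k hk
        have e : (l + (p : PadicAlgCl p) ^ k) - 1 = (l - 1) + (p : PadicAlgCl p) ^ k := by ring
        rw [e]
        refine (IsUltrametricDist.norm_add_le_max _ _).trans (max_le hl ?_)
        rw [norm_pow, norm_p]
        exact pow_le_pow_of_le_one hpi0.le hpi.le hk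
      apply le_antisymm
      · exact mult_le hB0 hA0 fun k hk => (h _ (h1 k hk)).symm
      · exact mult_le hA0 hB0 fun k hk => h _ (h1 k hk)
    · rw [rootMultiplicity_eq_zero, rootMultiplicity_eq_zero]
      · intro h2
        exact hl (eig_near (near_of_memB hB) h2)
      · intro h2
        exact hl (eig_near (near_of_memB hA) h2)
  have h1 := (IsAlgClosed.splits (Ψ A).charpoly).eq_prod_roots_of_monic (Matrix.charpoly_monic _)
  have h2 := (IsAlgClosed.splits (Ψ B).charpoly).eq_prod_roots_of_monic (Matrix.charpoly_monic _)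
  have key : (Ψ A).charpoly = (Ψ B).charpoly := by rw [h1, h2, hr]
  exact charpoly_inj.1 key

/-- powers -/
theorem norm_eval_powB {A : Matrix (Fin n) (Fin n) (OB p)}
    (hA : ∀ a b, (A - 1) a b ∈ JB p 2) {z : PadicAlgCl p}
    (hz : ‖z - 1‖ ≤ ((p : ℝ)⁻¹) ^ 2) {N : ℕ} (hN : N ≠ 0) :
    ‖(Ψ (A ^ N)).charpoly.eval (z ^ N)‖ =
      ((p : ℝ)⁻¹) ^ (padicValNat p N * n) * ‖(Ψ A).charpoly.eval z‖ := by
  rw [eval_charpoly', eval_charpoly', Ψ_pow]
  exact norm_det_pow (Ψ A) z hz (near_of_memB hA) N hN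

theorem charpoly_eq_of_powB {A B : Matrix (Fin n) (Fin n) (OB p)}
    (hA : ∀ a b, (A - 1) a b ∈ JB p 2)
    (hB : ∀ a b, (B - 1) a b ∈ JB p 2) {a : ℕ} (ha : a ≠ 0)
    (h : (A ^ a).charpoly = (B ^ a).charpoly) : A.charpoly = B.charpoly := by
  have hp1 : (1 : ℝ) < p := by exact_mod_cast hp.out.one_lt
  have hpi0 : 0 < ((p : ℝ)⁻¹) := inv_pos.2 (by linarith)
  apply charpoly_eq_of_normB hA hB
  intro z hz
  have h1 := norm_eval_powB hA hz ha
  have h2 := norm_eval_powB hB hz ha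
  rw [charpoly_inj.2 h, h2] at h1
  exact (mul_left_cancel₀ (pow_pos hpi0 _).ne' h1).symm

/-- evaluations of congruent characteristic polynomials -/
theorem eval_congrB {A B : Matrix (Fin n) (Fin n) (OB p)} {i : ℕ}
    (h : ∀ k, A.charpoly.coeff k - B.charpoly.coeff k ∈ JB p i)
    {z : PadicAlgCl p} (hz : ‖z‖ ≤ 1) :
    ‖(Ψ A).charpoly.eval z - (Ψ B).charpoly.eval z‖ ≤ ((p : ℝ)⁻¹) ^ i := by
  have hp1 : (1 : ℝ) < p := by exact_mod_cast hp.out.one_lt
  have hpi0 : 0 < ((p : ℝ)⁻¹) := inv_pos.2 (by linarith)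
  rw [charpoly_Ψ, charpoly_Ψ, ← eval_sub, ← Polynomial.map_sub, eval_map, eval₂_eq_sum_range]
  refine IsUltrametricDist.norm_sum_le_of_forall_le_of_nonneg (pow_nonneg hpi0.le _) fun k _ => ?_
  rw [norm_mul, norm_pow, coeff_sub]
  have h1 := mem_JB.1 (h k)
  calc _ ≤ ((p : ℝ)⁻¹) ^ i * 1 :=
        mul_le_mul h1 (pow_le_one₀ (norm_nonneg _) hz) (pow_nonneg (norm_nonneg _) _)
          (pow_nonneg hpi0.le _)
    _ = _ := mul_one _

theorem mem_mul_leftB {J : Ideal (OB p)} {M : Matrix (Fin n) (Fin n) (OB p)}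
    (h : ∀ a b, M a b ∈ J) (Z : Matrix (Fin n) (Fin n) (OB p)) (a b : Fin n) : (M * Z) a b ∈ J := by
  rw [Matrix.mul_apply]
  exact Ideal.sum_mem _ fun k _ => Ideal.mul_mem_right _ _ (h a k)

theorem sub_mem_ofB {J : Ideal (OB p)} {X Y Z : Matrix (Fin n) (Fin n) (OB p)}
    (h : ∀ a b, (Y - 1) a b ∈ J) (hX : X = Y * Z) (a b : Fin n) : X a b - Z a b ∈ J := by
  have h1 : X - Z = (Y - 1) * Z := by rw [hX, sub_mul, one_mul]
  have h2 := congrFun (congrFun h1 a) b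
  rw [Matrix.sub_apply] at h2
  rw [h2]
  exact mem_mul_leftB h Z a b

theorem sub_mem_ofB' {J : Ideal (OB p)} {X Y Z : Matrix (Fin n) (Fin n) (OB p)}
    (h : ∀ a b, (Y - 1) a b ∈ J) (hX : X = Z * Y) (a b : Fin n) : X a b - Z a b ∈ J := by
  have h1 : X - Z = Z * (Y - 1) := by rw [hX, mul_sub, mul_one]
  have h2 := congrFun (congrFun h1 a) b
  rw [Matrix.sub_apply] at h2
  rw [h2, Matrix.mul_apply]
  exact Ideal.sum_mem _ fun k _ => Ideal.mul_mem_left _ _ (h k b)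

end Pool.Agent.V11302.FM
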