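import Pool.Agent.V11302.FM.BMain

/-! Conjugates of a representation by an element of the absolute Galois group of the field of rational
numbers and by an automorphism of the coefficients. -/

set_option autoImplicit false

open Matrix IsLocalRing Finset NumberField Topology Polynomial

namespace Pool.Agent.V11302.FM

attribute [local instance 10] DivisionRing.toRatAlgebra

open Pool.Agent.Y800 Pool.Agent.Y802 Pool.Agent.Y802.TS Kronecker

section alg

variable {k : Type*} [Field k] {n : ℕ}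

theorem bot_or_top (W : Submodule k (Fin n → k))
    (h : ∀ Y : Matrix (Fin n) (Fin n) k, ∀ w ∈ W, Y.mulVec w ∈ W) : W = ⊥ ∨ W = ⊤ := by
  by_cases hW : W = ⊥
  · exact Or.inl hW
  · obtain ⟨w, hw, hw0⟩ := (Submodule.ne_bot_iff W).1 hW
    obtain ⟨j, hj⟩ := Function.ne_iff.1 hw0
    refine Or.inr (Submodule.eq_top_iff'.2 fun u => ?_)
    have h1 := h (Matrix.of fun a b => if b = j then u a * (w j)⁻¹ else 0) w hw
    have h2 : (Matrix.of fun a b => if b = j then u a * (w j)⁻¹ else 0).mulVec w = u := by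
      funext a
      rw [Matrix.mulVec, dotProduct, Finset.sum_eq_single j]
      · rw [Matrix.of_apply, if_pos rfl, mul_assoc, inv_mul_cancel₀ hj, mul_one]
      · intro b _ hb
        rw [Matrix.of_apply, if_neg hb, zero_mul]
      · intro hb
        exact absurd (Finset.mem_univ _) hb
    rwa [h2] at h1

/-- the image of a representation under an automorphism of the coefficients -/
noncomputable def mapRep {G : Type*} [Group G] (a : k →+* k) (ρ : G →* GL (Fin n) k) :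
    G →* GL (Fin n) k := (Matrix.GeneralLinearGroup.map a).comp ρ

theorem mapRep_val {G : Type*} [Group G] (a : k →+* k) (ρ : G →* GL (Fin n) k) (g : G) :
    (mapRep a ρ g : Matrix (Fin n) (Fin n) k) = (ρ g : Matrix (Fin n) (Fin n) k).map a := by
  rfl

theorem irr_mapRep {G : Type*} [Group G] (a : k ≃+* k) (ρ : G →* GL (Fin n) k)
    (hspan : Submodule.span k {X | ∃ v, X = (ρ v : Matrix (Fin n) (Fin n) k)} = ⊤) :
    Irr (mapRep (a : k →+* k) ρ) := by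
  intro W hW
  apply bot_or_top
  have key : ∀ X : Matrix (Fin n) (Fin n) k, ∀ w ∈ W, (X.map a).mulVec w ∈ W := by
    intro X
    have hX : X ∈ Submodule.span k {X | ∃ v, X = (ρ v : Matrix (Fin n) (Fin n) k)} := by
      rw [hspan]; trivial
    induction hX using Submodule.span_induction with
    | mem X hX =>
      obtain ⟨v, rfl⟩ := hX
      exact fun w hw => hW v w hw
    | zero =>
      intro w _
      rw [Matrix.map_zero _ (map_zero a), Matrix.zero_mulVec]; exact zero_mem _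
    | add X Y _ _ hX hY =>
      intro w hw
      rw [Matrix.map_add _ (map_add a), Matrix.add_mulVec]; exact add_mem (hX w hw) (hY w hw)
    | smul c X _ hX =>
      intro w hw
      have h1 : (c • X).map a = a c • X.map a := by
        ext i j
        simp
      rw [h1, Matrix.smul_mulVec]; exact Submodule.smul_mem _ _ (hX w hw)
  intro Y w hw
  have h1 := key (Y.map a.symm) w hw
  have h2 : (Y.map a.symm).map a = Y := by
    ext i j
    simp
  rwa [h2] at h1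

theorem irr_of_span {G : Type*} [Group G] (ρ : G →* GL (Fin n) k)
    (hspan : Submodule.span k {X | ∃ v, X = (ρ v : Matrix (Fin n) (Fin n) k)} = ⊤) : Irr ρ := by
  have := irr_mapRep (RingEquiv.refl k) ρ hspan
  intro W hW
  apply this W
  intro g w hw
  have h1 := hW g w hw
  rwa [mapRep_val]

theorem ss_of_irr {G : Type*} [Group G] (ρ : G →* GL (Fin n) k) (h : Irr ρ) : IsSemisimpleRep ρ := by
  intro W hW
  rcases h W hW with rfl | rfl
  · exact ⟨⊤, fun g w _ => trivial, isCompl_bot_top⟩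
  · refine ⟨⊥, fun g w hw => ?_, isCompl_top_bot⟩
    rw [Submodule.mem_bot] at hw ⊢
    rw [hw, Matrix.mulVec_zero]

end alg

theorem cont_mapRep {p : ℕ} [Fact p.Prime] {E : IntermediateField ℚ_[p] (PadicAlgCl p)}
    [FiniteDimensional ℚ_[p] E] {n : ℕ} {G : Type*} [Group G] [TopologicalSpace G]
    (a : E ≃ₐ[ℚ_[p]] E) (ρ : G →* GL (Fin n) E) (hρ : Continuous ρ) :
    Continuous (mapRep ((a : E ≃+* E) : E →+* E) ρ) := by
  have ha : Continuous (a : E → E) :=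
    LinearMap.continuous_of_finiteDimensional (a.toLinearEquiv.toLinearMap)
  have h1 : Continuous (fun X : Matrix (Fin n) (Fin n) E => X.map a) :=
    continuous_id.matrix_map ha
  refine Units.continuous_iff.2 ⟨?_, ?_⟩
  · exact h1.comp (Units.continuous_val.comp hρ)
  · have h2 : Continuous fun γ => ((ρ γ)⁻¹ : GL (Fin n) E) := hρ.inv
    exact h1.comp (Units.continuous_val.comp h2)

/-- the elements of `Γ` whose conjugate by `g` lies in `Γ` -/
noncomputable def Dg (Γ : Subgroup GQ) (g : GQ) : Subgroup GQ := Γ ⊓ Γ.comap (MulAut.conj g).toMonoidHom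

theorem mem_Dg {Γ : Subgroup GQ} {g σ : GQ} : σ ∈ Dg Γ g ↔ σ ∈ Γ ∧ g * σ * g⁻¹ ∈ Γ := Iff.rfl

theorem conj_open {Γ : Subgroup GQ} (hΓ : IsOpen (Γ : Set GQ)) (g : GQ) :
    IsOpen ((Γ.comap (MulAut.conj g).toMonoidHom : Subgroup GQ) : Set GQ) := by
  have h1 : Continuous fun σ : GQ => g * σ * g⁻¹ := by fun_prop
  exact hΓ.preimage h1

theorem Dg_open {Γ : Subgroup GQ} (hΓ : IsOpen (Γ : Set GQ)) (g : GQ) : IsOpen (Dg Γ g : Set GQ) :=
  hΓ.inter (conj_open hΓ g)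

/-- the inclusion of `Dg` -/
noncomputable def inc (Γ : Subgroup GQ) (g : GQ) : Dg Γ g →* Γ :=
  Subgroup.inclusion (fun _ h => (mem_Dg.1 h).1)

/-- the conjugation -/
noncomputable def cj (Γ : Subgroup GQ) (g : GQ) : Dg Γ g →* Γ where
  toFun σ := ⟨g * σ * g⁻¹, (mem_Dg.1 σ.2).2⟩
  map_one' := by
    apply Subtype.ext
    simp
  map_mul' σ τ := by
    apply Subtype.ext
    simp [mul_assoc]

theorem inc_cont (Γ : Subgroup GQ) (g : GQ) : Continuous (inc Γ g) :=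
  Continuous.subtype_mk continuous_subtype_val _

theorem cj_cont (Γ : Subgroup GQ) (g : GQ) : Continuous (cj Γ g) := by
  refine Continuous.subtype_mk ?_ _
  have h1 : Continuous fun σ : GQ => g * σ * g⁻¹ := by fun_prop
  exact h1.comp continuous_subtype_val

/-- conjugation of the inertia groups -/
theorem inertia_conj {P : Ideal ZBar} {τ : GQ} (h : InInertia P τ) (g : GQ) :
    InInertia (P.comap (MulSemiringAction.toRingHom GQ ZBar g⁻¹)) (g * τ * g⁻¹) := by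
  intro x
  rw [Ideal.mem_comap]
  have h1 := h (g⁻¹ • x)
  have h2 : (MulSemiringAction.toRingHom GQ ZBar g⁻¹) ((g * τ * g⁻¹) • x - x) =
      τ • (g⁻¹ • x) - g⁻¹ • x := by
    rw [map_sub]
    change g⁻¹ • ((g * τ * g⁻¹) • x) - g⁻¹ • x = _
    rw [smul_smul, smul_smul]
    congr 2
    group
  rw [h2]
  exact h1

theorem comap_max {P : Ideal ZBar} (hP : P.IsMaximal) (g : GQ) :
    (P.comap (MulSemiringAction.toRingHom GQ ZBar g⁻¹)).IsMaximal := by
  apply Ideal.comap_isMaximal_of_surjective (H := hP)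
  intro x
  refine ⟨g • x, ?_⟩
  change g⁻¹ • (g • x) = x
  rw [smul_smul, inv_mul_cancel, one_smul]

theorem comap_mem {P : Ideal ZBar} {q : ℕ} (hq : (q : ZBar) ∈ P) (g : GQ) :
    (q : ZBar) ∈ P.comap (MulSemiringAction.toRingHom GQ ZBar g⁻¹) := by
  rw [Ideal.mem_comap, map_natCast]
  exact hq

theorem map_pow_charpoly {k : Type*} [Field k] {n : ℕ} (a : k ≃+* k) (X : Matrix (Fin n) (Fin n) k)
    (m : ℕ) : ((X.map a) ^ m).charpoly = ((X ^ m).map a).charpoly := by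
  have h : (X ^ m).map a = (X.map a) ^ m := by
    have := map_pow ((a : k →+* k).mapMatrix : Matrix (Fin n) (Fin n) k →+* _) X m
    exact this
  rw [h]

/-- **Conjugates at a sparse set of primes.** -/
theorem mainConj (f : ℕ → ℕ) :
    ∃ (T : ℕ → ℕ) (k L : IntermediateField ℚ (AlgebraicClosure ℚ)),
      (∀ i, (T i).Prime) ∧ (∀ i, f (T i) + T i < T (i + 1)) ∧ IsTower k L T ∧
      ∀ (Γ : Subgroup GQ), IsOpen (Γ : Set GQ) → ∀ (p : ℕ) [Fact p.Prime]
        (E : IntermediateField ℚ_[p] (PadicAlgCl p)), FiniteDimensional ℚ_[p] E → ∀ (n : ℕ)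
        (ρ : Γ →* GL (Fin n) E), Continuous ρ →
        (∃ S : Finset ℕ, ∀ q : ℕ, q.Prime → q ∉ S → ∀ P : Ideal ZBar, P.IsMaximal →
          (q : ZBar) ∈ P → ∀ τ : GQ, ∀ h : τ ∈ Γ, InInertia P τ → ρ ⟨τ, h⟩ = 1) →
        (∀ V : Subgroup GQ, IsOpen (V : Set GQ) →
          Submodule.span E {X | ∃ σ : Γ, (σ : GQ) ∈ V ∧
            X = (ρ σ : Matrix (Fin n) (Fin n) E)} = ⊤) → 0 < n →
        ∀ (A : Set (E ≃ₐ[ℚ_[p]] E)) (g : GQ),
        (∃ i0, ∀ i ≥ i0, ∀ P : Ideal ZBar, P.IsMaximal → (T i : ZBar) ∈ P →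
          ∀ σ : GQ, ∀ h : σ ∈ Γ, ∀ h' : g * σ * g⁻¹ ∈ Γ, IsGeomFrob (T i) P σ →
            ∃ a ∈ A, ∃ m : ℕ, m ≠ 0 ∧
            ((ρ ⟨g * σ * g⁻¹, h'⟩ : Matrix (Fin n) (Fin n) E) ^ m).charpoly =
              (((ρ ⟨σ, h⟩ : Matrix (Fin n) (Fin n) E) ^ m).map a).charpoly) →
        ∃ a ∈ A, ∃ (Q : GL (Fin n) E) (ε : Dg Γ g →* (E : Type)ˣ),
          (∃ V : Subgroup GQ, IsOpen (V : Set GQ) ∧ ∀ σ : Dg Γ g, (σ : GQ) ∈ V → ε σ = 1) ∧
          ∀ σ, (ρ (cj Γ g σ) : Matrix (Fin n) (Fin n) E) =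
            (ε σ : E) • ((Q : Matrix (Fin n) (Fin n) E) *
              (ρ (inc Γ g σ) : Matrix (Fin n) (Fin n) E).map a *
              ((Q⁻¹ : GL (Fin n) E) : Matrix (Fin n) (Fin n) E)) := by
  obtain ⟨T, k, L, hT1, hT2, htow, hrep⟩ := mainB f
  refine ⟨T, k, L, hT1, hT2, htow, ?_⟩
  intro Γ hΓ p hp E hE n ρ hρ hS hsp hn A g hfr
  obtain ⟨S, hS⟩ := hS
  obtain ⟨i0, hi0⟩ := hfr
  have hfin : Finite A := inferInstance
  obtain ⟨r, ⟨e⟩⟩ := Finite.exists_equiv_fin A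
  have hsp1 : ∀ V : Subgroup GQ, IsOpen (V : Set GQ) →
      Submodule.span E {X | ∃ σ : Dg Γ g, (σ : GQ) ∈ V ∧
        X = ((ρ.comp (cj Γ g)) σ : Matrix (Fin n) (Fin n) E)} = ⊤ := by
    intro V hV
    rw [← hsp ((V ⊓ Dg Γ g).comap (MulAut.conj g⁻¹).toMonoidHom)
      (conj_open (hV.inter (Dg_open hΓ g)) g⁻¹)]
    congr 1
    ext X
    constructor
    · rintro ⟨σ, hσ, rfl⟩
      refine ⟨cj Γ g σ, ?_, rfl⟩
      change g⁻¹ * (g * σ * g⁻¹) * g⁻¹⁻¹ ∈ V ⊓ Dg Γ g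
      have : g⁻¹ * (g * (σ : GQ) * g⁻¹) * g⁻¹⁻¹ = σ := by group
      rw [this]
      exact ⟨hσ, σ.2⟩
    · rintro ⟨σ, hσ, rfl⟩
      change g⁻¹ * (σ : GQ) * g⁻¹⁻¹ ∈ V ⊓ Dg Γ g at hσ
      refine ⟨⟨_, hσ.2⟩, hσ.1, ?_⟩
      change (ρ σ : Matrix (Fin n) (Fin n) E) = (ρ (cj Γ g ⟨g⁻¹ * σ * g⁻¹⁻¹, hσ.2⟩) : Matrix _ _ E)
      congr 3
      apply Subtype.ext
      change (σ : GQ) = g * (g⁻¹ * σ * g⁻¹⁻¹) * g⁻¹
      group
  have hsp2 : Submodule.span E {X | ∃ σ : Dg Γ g,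
        X = ((ρ.comp (inc Γ g)) σ : Matrix (Fin n) (Fin n) E)} = ⊤ := by
    rw [← hsp (Dg Γ g) (Dg_open hΓ g)]
    congr 1
    ext X
    constructor
    · rintro ⟨σ, rfl⟩
      exact ⟨inc Γ g σ, σ.2, rfl⟩
    · rintro ⟨σ, hσ, rfl⟩
      exact ⟨⟨σ, hσ⟩, rfl⟩
  have hirr : Irr (ρ.comp (cj Γ g)) := by
    apply irr_of_span
    rw [← hsp1 ⊤ isOpen_univ]
    congr 1
    ext X
    constructor
    · rintro ⟨σ, rfl⟩
      exact ⟨σ, trivial, rfl⟩
    · rintro ⟨σ, hσ, rfl⟩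
      exact ⟨σ, rfl⟩
  obtain ⟨c, _, _, _, _, _, _, h4⟩ := hrep (Dg Γ g) (Dg_open hΓ g) p E hE n (ρ.comp (cj Γ g))
    (hρ.comp (cj_cont Γ g))
    ⟨S, fun q hq hqS P hP hqP τ h hτ => hS q hq hqS _ (comap_max hP g) (comap_mem hqP g)
      (g * τ * g⁻¹) (mem_Dg.1 h).2 (inertia_conj hτ g)⟩
    hirr hn r (fun c => mapRep (((e.symm c : E ≃ₐ[ℚ_[p]] E) : E ≃+* E) : E →+* E) (ρ.comp (inc Γ g)))
    (fun c => cont_mapRep _ _ (hρ.comp (inc_cont Γ g)))
    (fun c => ⟨S, fun q hq hqS P hP hqP τ h hτ => by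
      change Matrix.GeneralLinearGroup.map _ (ρ ⟨τ, _⟩) = 1
      rw [hS q hq hqS P hP hqP τ _ hτ, map_one]⟩)
    (fun c => ss_of_irr _ (irr_mapRep _ _ hsp2))
    ⟨i0, fun i hi P hP hTP σ hσ hfr => by
      obtain ⟨a, ha, m, hm, h1⟩ := hi0 i hi P hP hTP σ (mem_Dg.1 hσ).1 (mem_Dg.1 hσ).2 hfr
      refine ⟨e ⟨a, ha⟩, m, hm, ?_⟩
      rw [Equiv.symm_apply_apply]
      exact h1.trans (map_pow_charpoly (a : E ≃+* E) _ m).symm⟩
  obtain ⟨Q, ε, h5, h6⟩ := h4 hsp1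
  exact ⟨(e.symm c : E ≃ₐ[ℚ_[p]] E), (e.symm c).2, Q, ε, h5, h6⟩

end Pool.Agent.V11302.FM
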