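import Pool.Agent.V11302.FM.Spec

/-! Comparison of the eigenvalues of two matrices over the `p`-adic integers. -/

set_option autoImplicit false

open Matrix IsLocalRing Finset Polynomial

namespace Pool.Agent.V11302.FM

section gen

variable {R S : Type*} [CommRing R] [CommRing S] {n m : ℕ}

theorem map_aevalM (f : R →+* S) (X : Matrix (Fin n) (Fin n) R) (q : R[X]) :
    f.mapMatrix (aeval X q) = aeval (f.mapMatrix X) (q.map f) := by
  induction q using Polynomial.induction_on' with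
  | add a b ha hb => rw [map_add, map_add, ha, hb, Polynomial.map_add, map_add]
  | monomial k c =>
    rw [aeval_monomial, map_monomial, aeval_monomial, map_mul, map_pow]
    congr 1
    rw [Algebra.algebraMap_eq_smul_one, Algebra.algebraMap_eq_smul_one]
    ext i j
    simp [RingHom.mapMatrix_apply, Matrix.map_apply, Matrix.smul_apply, Matrix.one_apply,
      apply_ite f]

/-- the characteristic polynomial of `Y` at `X` -/
noncomputable def CX (X : Matrix (Fin n) (Fin n) R) (Y : Matrix (Fin m) (Fin m) R) :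
    Matrix (Fin n) (Fin n) R := aeval X Y.charpoly

theorem map_CX (f : R →+* S) (X : Matrix (Fin n) (Fin n) R) (Y : Matrix (Fin m) (Fin m) R) :
    f.mapMatrix (CX X Y) = CX (f.mapMatrix X) (f.mapMatrix Y) := by
  rw [CX, CX, map_aevalM, ← Matrix.charpoly_map]
  rfl

theorem mapM_eq_of_sub {J : Ideal R} {X X' : Matrix (Fin n) (Fin n) R}
    (h : ∀ i j, X i j - X' i j ∈ J) :
    (Ideal.Quotient.mk J).mapMatrix X = (Ideal.Quotient.mk J).mapMatrix X' := by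
  ext i j
  rw [RingHom.mapMatrix_apply, RingHom.mapMatrix_apply, Matrix.map_apply, Matrix.map_apply]
  exact Ideal.Quotient.eq.2 (h i j)

theorem sub_of_mapM_eq {J : Ideal R} {X X' : Matrix (Fin n) (Fin n) R}
    (h : (Ideal.Quotient.mk J).mapMatrix X = (Ideal.Quotient.mk J).mapMatrix X') (i j : Fin n) :
    X i j - X' i j ∈ J := by
  have h4 := congrFun (congrFun h i) j
  rw [RingHom.mapMatrix_apply, RingHom.mapMatrix_apply, Matrix.map_apply, Matrix.map_apply] at h4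
  exact Ideal.Quotient.eq.1 h4

theorem CX_congr {J : Ideal R} {X X' : Matrix (Fin n) (Fin n) R} {Y Y' : Matrix (Fin m) (Fin m) R}
    (hX : ∀ i j, X i j - X' i j ∈ J) (hY : ∀ i j, Y i j - Y' i j ∈ J) (r : ℕ) (i j : Fin n) :
    (CX X Y ^ r) i j - (CX X' Y' ^ r) i j ∈ J := by
  apply sub_of_mapM_eq
  rw [map_pow, map_pow, map_CX, map_CX, mapM_eq_of_sub hX, mapM_eq_of_sub hY]

theorem coeff_congr {J : Ideal R} {X X' : Matrix (Fin n) (Fin n) R}
    (hX : ∀ i j, X i j - X' i j ∈ J) (k : ℕ) : X.charpoly.coeff k - X'.charpoly.coeff k ∈ J := by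
  have h1 : X.charpoly.map (Ideal.Quotient.mk J) = X'.charpoly.map (Ideal.Quotient.mk J) := by
    rw [← Matrix.charpoly_map, ← Matrix.charpoly_map]
    congr 1
    exact mapM_eq_of_sub hX
  have h2 := congrArg (fun q => q.coeff k) h1
  simp only [coeff_map] at h2
  exact Ideal.Quotient.eq.1 h2

end gen

variable {p : ℕ} [hp : Fact p.Prime] {n m : ℕ}

/-- the inclusion of the `p`-adic integers -/
noncomputable def φ (p : ℕ) [Fact p.Prime] : ℤ_[p] →+* PadicAlgCl p :=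
  (algebraMap ℚ_[p] (PadicAlgCl p)).comp (algebraMap ℤ_[p] ℚ_[p])

theorem norm_φ (x : ℤ_[p]) : ‖φ p x‖ = ‖x‖ := by
  have h := PadicAlgCl.norm_extends p ((x : ℤ_[p]) : ℚ_[p])
  exact h

theorem φ_inj : Function.Injective (φ p) := by
  apply (injective_iff_map_eq_zero _).2
  intro x hx
  have h := norm_φ x
  rw [hx, norm_zero] at h
  exact norm_eq_zero.1 h.symm

/-- the matrix over the algebraic closure -/
noncomputable def Φ (A : Matrix (Fin n) (Fin n) ℤ_[p]) : Matrix (Fin n) (Fin n) (PadicAlgCl p) :=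
  (φ p).mapMatrix A

theorem Φ_zero : Φ (0 : Matrix (Fin n) (Fin n) ℤ_[p]) = 0 := map_zero _

theorem Φ_pow (A : Matrix (Fin n) (Fin n) ℤ_[p]) (k : ℕ) : Φ (A ^ k) = Φ A ^ k := map_pow _ _ _

theorem Φ_CX (X : Matrix (Fin n) (Fin n) ℤ_[p]) (Y : Matrix (Fin m) (Fin m) ℤ_[p]) :
    Φ (CX X Y) = CX (Φ X) (Φ Y) := map_CX _ _ _

theorem Φ_inj {A B : Matrix (Fin n) (Fin n) ℤ_[p]} (h : Φ A = Φ B) : A = B := by
  ext i j
  apply φ_inj
  exact congrFun (congrFun h i) j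

theorem mem_pow (z : ℤ_[p]) (i : ℕ) : z ∈ maximalIdeal ℤ_[p] ^ i ↔ ‖z‖ ≤ ((p : ℝ)⁻¹) ^ i := by
  rw [PadicInt.maximalIdeal_eq_span_p, Ideal.span_singleton_pow,
    ← PadicInt.norm_le_pow_iff_mem_span_pow, _root_.zpow_neg, _root_.zpow_natCast, inv_pow]

theorem near_of_mem {A : Matrix (Fin n) (Fin n) ℤ_[p]} {i : ℕ}
    (h : ∀ a b, (A - 1) a b ∈ maximalIdeal ℤ_[p] ^ i) (a b : Fin n) :
    ‖(Φ A - 1) a b‖ ≤ ((p : ℝ)⁻¹) ^ i := by
  have h1 : (Φ A - 1) a b = φ p ((A - 1) a b) := by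
    have h2 : Φ A - 1 = Φ (A - 1) := by rw [Φ, Φ, map_sub, map_one]
    rw [h2]
    rfl
  rw [h1, norm_φ]
  exact (mem_pow _ _).1 (h a b)

/-- no roots of unity -/
theorem eig_of_pow {B : Matrix (Fin m) (Fin m) (PadicAlgCl p)} {z : PadicAlgCl p}
    (hz : ‖z - 1‖ ≤ ((p : ℝ)⁻¹) ^ 2) (hB : ∀ i j, ‖(B - 1) i j‖ ≤ ((p : ℝ)⁻¹) ^ 2) {a : ℕ}
    (ha : a ≠ 0) (h : Eig (B ^ a) (z ^ a)) : Eig B z := by
  rw [eig_iff_det] at h ⊢
  have h1 := norm_det_pow B z hz hB a ha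
  rw [h, norm_zero] at h1
  have hp1 : (1 : ℝ) < p := by exact_mod_cast hp.out.one_lt
  have h2 : ((p : ℝ)⁻¹) ^ (padicValNat p a * m) ≠ 0 := pow_ne_zero _ (inv_ne_zero (by linarith))
  exact norm_eq_zero.1 ((mul_eq_zero.1 h1.symm).resolve_left h2)

theorem eig_CX {K : Type*} [Field K] [IsAlgClosed K] {X : Matrix (Fin n) (Fin n) K}
    {Y : Matrix (Fin m) (Fin m) K} {μ : K} (h : Eig (CX X Y) μ) :
    ∃ z, Eig X z ∧ μ = Y.charpoly.eval z := by
  rcases n with _ | n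
  · exfalso
    obtain ⟨v, hv, _⟩ := exists_vec h
    exact hv (Subsingleton.elim _ _)
  have h1 : μ ∈ spectrum K (aeval X Y.charpoly) := by
    rw [Matrix.mem_spectrum_iff_isRoot_charpoly]
    exact h
  rw [spectrum.map_polynomial_aeval_of_nonempty X Y.charpoly
    (spectrum.nonempty_of_isAlgClosed_of_finiteDimensional K X)] at h1
  obtain ⟨z, hz, rfl⟩ := h1
  exact ⟨z, (Matrix.mem_spectrum_iff_isRoot_charpoly).1 hz, rfl⟩

theorem eig_CX' {K : Type*} [Field K] {X : Matrix (Fin n) (Fin n) K}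
    {Y : Matrix (Fin m) (Fin m) K} {z : K} (h : Eig X z) :
    Eig (CX X Y) (Y.charpoly.eval z) := by
  obtain ⟨v, hv, h1⟩ := exists_vec h
  exact eig_of_vec hv (aeval_vec h1 _)

/-- a matrix whose only eigenvalue is zero -/
theorem pow_eq_zero_of_eig {K : Type*} [Field K] [IsAlgClosed K] {X : Matrix (Fin n) (Fin n) K}
    (h : ∀ μ, Eig X μ → μ = 0) : X ^ n = 0 := by
  have hs : X.charpoly.Splits := IsAlgClosed.splits _
  have hm : X.charpoly.Monic := Matrix.charpoly_monic X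
  have h1 : X.charpoly.roots = Multiset.replicate (Multiset.card X.charpoly.roots) 0 := by
    rw [Multiset.eq_replicate_card]
    intro μ hμ
    exact h μ ((mem_roots'.1 hμ).2)
  have h2 : X.charpoly = Polynomial.X ^ (Multiset.card X.charpoly.roots) := by
    have h3 := hs.eq_prod_roots_of_monic hm
    rw [h1] at h3
    simpa using h3
  have h4 : Multiset.card X.charpoly.roots = n := by
    have h5 := congrArg natDegree h2
    rw [natDegree_X_pow, Matrix.charpoly_natDegree_eq_dim, Fintype.card_fin] at h5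
    exact h5.symm
  have h6 := Matrix.aeval_self_charpoly X
  rw [h2, map_pow, aeval_X, h4] at h6
  exact h6

theorem CX_pow_eq_zero {X : Matrix (Fin n) (Fin n) ℤ_[p]} {Y : Matrix (Fin m) (Fin m) ℤ_[p]}
    (h : ∀ z, Eig (Φ X) z → Eig (Φ Y) z) : CX X Y ^ n = 0 := by
  apply Φ_inj
  rw [Φ_pow, Φ_CX, Φ_zero]
  apply pow_eq_zero_of_eig
  intro μ hμ
  obtain ⟨z, hz, rfl⟩ := eig_CX hμ
  exact h z hz

theorem eig_of_CX {X : Matrix (Fin n) (Fin n) ℤ_[p]} {Y : Matrix (Fin m) (Fin m) ℤ_[p]}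
    (h : CX X Y ^ n = 0) {z : PadicAlgCl p} (hz : Eig (Φ X) z) : Eig (Φ Y) z := by
  obtain ⟨v, hv, h1⟩ := exists_vec hz
  have h2 : (CX (Φ X) (Φ Y)) *ᵥ v = ((Φ Y).charpoly.eval z) • v := aeval_vec h1 _
  have h3 := pow_vec h2 n
  have h4 : CX (Φ X) (Φ Y) ^ n = 0 := by
    rw [← Φ_CX, ← Φ_pow, h, Φ_zero]
  rw [h4, zero_mulVec] at h3
  have h5 := (smul_eq_zero.1 h3.symm).resolve_right hv
  have hn : n ≠ 0 := by
    rintro rfl
    exact hv (Subsingleton.elim _ _)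
  exact (pow_eq_zero_iff hn).1 h5

/-- the main step: division by `N` -/
theorem step {A : Matrix (Fin n) (Fin n) ℤ_[p]} {B : Matrix (Fin m) (Fin m) ℤ_[p]}
    (hA : ∀ a b, (A - 1) a b ∈ maximalIdeal ℤ_[p] ^ 2)
    (hB : ∀ a b, (B - 1) a b ∈ maximalIdeal ℤ_[p] ^ 2) {N D i : ℕ} (hN : N ≠ 0)
    (hD : i * n + padicValNat p N * m * n ≤ D)
    (h : ∀ a b, (CX (A ^ N) (B ^ N) ^ n) a b ∈ maximalIdeal ℤ_[p] ^ D) {z : PadicAlgCl p}
    (hz : Eig (Φ A) z) : ‖(Φ B).charpoly.eval z‖ ≤ ((p : ℝ)⁻¹) ^ i := by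
  have hp1 : (1 : ℝ) < p := by exact_mod_cast hp.out.one_lt
  have hpi : ((p : ℝ)⁻¹) < 1 := inv_lt_one_of_one_lt₀ hp1
  have hpi0 : 0 < ((p : ℝ)⁻¹) := inv_pos.2 (by linarith)
  obtain ⟨v, hv, h1⟩ := exists_vec hz
  have hn : n ≠ 0 := by
    rintro rfl
    exact hv (Subsingleton.elim _ _)
  have hzn : ‖z - 1‖ ≤ ((p : ℝ)⁻¹) ^ 2 := eig_near (near_of_mem hA) hz
  have h2 : (CX (Φ A ^ N) (Φ B ^ N)) *ᵥ v = ((Φ B ^ N).charpoly.eval (z ^ N)) • v :=
    aeval_vec (pow_vec h1 N) _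
  have h3 := pow_vec h2 n
  have h4 : CX (Φ A ^ N) (Φ B ^ N) ^ n = Φ (CX (A ^ N) (B ^ N) ^ n) := by
    rw [Φ_pow, Φ_CX, Φ_pow, Φ_pow]
  rw [h4] at h3
  have h5 : ‖((Φ B ^ N).charpoly.eval (z ^ N)) ^ n‖ ≤ ((p : ℝ)⁻¹) ^ D := by
    apply eig_small (fun a b => ?_) hv h3
    have h6 : (Φ (CX (A ^ N) (B ^ N) ^ n)) a b = φ p ((CX (A ^ N) (B ^ N) ^ n) a b) := rfl
    rw [h6, norm_φ]
    exact (mem_pow _ _).1 (h a b)
  rw [norm_pow, eval_charpoly', norm_det_pow (Φ B) z hzn (near_of_mem hB) N hN, ← eval_charpoly',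
    mul_pow, ← pow_mul] at h5
  have h7 : ((p : ℝ)⁻¹) ^ (padicValNat p N * m * n) * ‖(Φ B).charpoly.eval z‖ ^ n ≤
      ((p : ℝ)⁻¹) ^ (padicValNat p N * m * n) * (((p : ℝ)⁻¹) ^ i) ^ n := by
    refine h5.trans ?_
    rw [← pow_mul, ← pow_add]
    exact pow_le_pow_of_le_one hpi0.le hpi.le (by rw [add_comm]; exact hD)
  have h8 := le_of_mul_le_mul_left h7 (pow_pos hpi0 _)
  exact le_of_pow_le_pow_left₀ hn (pow_nonneg hpi0.le _) h8

/-- coefficients of the characteristic polynomial -/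
theorem coeff_small {M : Matrix (Fin n) (Fin n) ℤ_[p]} {ε : ℝ} (h0 : 0 ≤ ε) (h1 : ε ≤ 1)
    (h : ∀ μ, Eig (Φ M) μ → ‖μ‖ ≤ ε) {k : ℕ} (hk : k < n) :
    ‖M.charpoly.coeff k‖ ≤ ε * 2 ^ n := by
  have hs : (M.charpoly.map (φ p)).Splits := IsAlgClosed.splits _
  have hm : M.charpoly.Monic := Matrix.charpoly_monic M
  have h2 : M.charpoly.map (φ p) = (Φ M).charpoly := by
    rw [← Matrix.charpoly_map]
    rfl
  have h3 := coeff_le_of_roots_le (f := φ p) (B := ε) k hm hs (fun z hz => h z (by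
    rw [h2] at hz
    exact (mem_roots'.1 hz).2))
  rw [coeff_map, norm_φ, Matrix.charpoly_natDegree_eq_dim, Fintype.card_fin] at h3
  refine h3.trans ?_
  have h4 : ε ^ (n - k) ≤ ε := by
    calc ε ^ (n - k) ≤ ε ^ 1 := pow_le_pow_of_le_one h0 h1 (by omega)
      _ = ε := pow_one ε
  have h5 : ((n.choose k : ℕ) : ℝ) ≤ 2 ^ n := by exact_mod_cast Nat.choose_le_two_pow n k
  exact mul_le_mul h4 h5 (Nat.cast_nonneg _) h0

end Pool.Agent.V11302.FM
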