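import Pool.Agent.V11302.FM.Core
import Pool.Agent.Y802.TS.Est

/-! Matrices whose characteristic polynomials have the same absolute values near one. -/

set_option autoImplicit false

open Matrix IsLocalRing Finset NumberField Topology Polynomial

namespace Pool.Agent.V11302.FM

variable {p : ℕ} [hp : Fact p.Prime] {n m : ℕ}

theorem tendsto_p : Filter.Tendsto (fun k : ℕ => (p : PadicAlgCl p) ^ k) Filter.atTop (𝓝 0) := by
  have hp1 : (1 : ℝ) < p := by exact_mod_cast hp.out.one_lt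
  have hpi : ((p : ℝ)⁻¹) < 1 := inv_lt_one_of_one_lt₀ hp1
  apply tendsto_pow_atTop_nhds_zero_of_norm_lt_one
  rw [norm_p]
  exact hpi

theorem mult_le {P Q : (PadicAlgCl p)[X]} (hP : P ≠ 0) (hQ : Q ≠ 0) {l : PadicAlgCl p}
    (h : ∀ k ≥ 2, ‖P.eval (l + (p : PadicAlgCl p) ^ k)‖ = ‖Q.eval (l + (p : PadicAlgCl p) ^ k)‖) :
    rootMultiplicity l Q ≤ rootMultiplicity l P := by
  by_contra hlt
  push Not at hlt
  obtain ⟨P1, hP1, hP1'⟩ := exists_eq_pow_rootMultiplicity_mul_and_not_dvd P hP l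
  obtain ⟨Q1, hQ1, hQ1'⟩ := exists_eq_pow_rootMultiplicity_mul_and_not_dvd Q hQ l
  set a := rootMultiplicity l P with ha
  set b := rootMultiplicity l Q with hb
  have hpK : (p : PadicAlgCl p) ≠ 0 := by exact_mod_cast hp.out.ne_zero
  have h1 : ∀ k ≥ 2, ‖P1.eval (l + (p : PadicAlgCl p) ^ k)‖ =
      ‖((p : PadicAlgCl p) ^ k)‖ ^ (b - a) * ‖Q1.eval (l + (p : PadicAlgCl p) ^ k)‖ := by
    intro k hk
    have h2 := h k hk
    rw [hP1, hQ1] at h2
    simp only [eval_mul, eval_pow, eval_sub, eval_X, eval_C, add_sub_cancel_left, norm_mul,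
      norm_pow] at h2
    have h3 : b = a + (b - a) := by omega
    rw [h3, pow_add, mul_assoc] at h2
    have h4 : (‖(p : PadicAlgCl p)‖ ^ k) ^ a ≠ 0 := by
      apply pow_ne_zero
      apply pow_ne_zero
      exact norm_ne_zero_iff.2 hpK
    have h5 := mul_left_cancel₀ h4 h2
    rw [h5, norm_pow]
  have hlim : Filter.Tendsto (fun k : ℕ => l + (p : PadicAlgCl p) ^ k) Filter.atTop (𝓝 l) := by
    have := (tendsto_const_nhds (x := l)).add (tendsto_p (p := p))
    rwa [add_zero] at this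
  have l1 : Filter.Tendsto (fun k : ℕ => ‖P1.eval (l + (p : PadicAlgCl p) ^ k)‖) Filter.atTop
      (𝓝 ‖P1.eval l‖) := ((P1.continuous.tendsto l).comp hlim).norm
  have l2 : Filter.Tendsto (fun k : ℕ => ‖((p : PadicAlgCl p) ^ k)‖ ^ (b - a) *
      ‖Q1.eval (l + (p : PadicAlgCl p) ^ k)‖) Filter.atTop (𝓝 (0 * ‖Q1.eval l‖)) := by
    apply Filter.Tendsto.mul
    · have h3 := (tendsto_p (p := p)).norm.pow (b - a)
      rwa [norm_zero, zero_pow (by omega)] at h3
    · exact ((Q1.continuous.tendsto l).comp hlim).norm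
  have l3 : Filter.Tendsto (fun k : ℕ => ‖P1.eval (l + (p : PadicAlgCl p) ^ k)‖) Filter.atTop
      (𝓝 (0 * ‖Q1.eval l‖)) := by
    refine l2.congr' ?_
    filter_upwards [Filter.eventually_ge_atTop 2] with k hk
    exact (h1 k hk).symm
  have h6 := tendsto_nhds_unique l1 l3
  rw [zero_mul, norm_eq_zero] at h6
  exact hP1' (dvd_iff_isRoot.2 h6)

theorem charpoly_Φ (A : Matrix (Fin n) (Fin n) ℤ_[p]) :
    (Φ A).charpoly = A.charpoly.map (φ p) := by
  rw [← Matrix.charpoly_map]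
  rfl

/-- the characteristic polynomial is determined by its absolute values near one -/
theorem charpoly_eq_of_norm {A B : Matrix (Fin n) (Fin n) ℤ_[p]}
    (hA : ∀ a b, (A - 1) a b ∈ maximalIdeal ℤ_[p] ^ 2)
    (hB : ∀ a b, (B - 1) a b ∈ maximalIdeal ℤ_[p] ^ 2)
    (h : ∀ z : PadicAlgCl p, ‖z - 1‖ ≤ ((p : ℝ)⁻¹) ^ 2 →
      ‖(Φ A).charpoly.eval z‖ = ‖(Φ B).charpoly.eval z‖) : A.charpoly = B.charpoly := by
  have hp1 : (1 : ℝ) < p := by exact_mod_cast hp.out.one_lt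
  have hpi : ((p : ℝ)⁻¹) < 1 := inv_lt_one_of_one_lt₀ hp1
  have hpi0 : 0 < ((p : ℝ)⁻¹) := inv_pos.2 (by linarith)
  have hA0 : (Φ A).charpoly ≠ 0 := (Matrix.charpoly_monic _).ne_zero
  have hB0 : (Φ B).charpoly ≠ 0 := (Matrix.charpoly_monic _).ne_zero
  have key : (Φ A).charpoly = (Φ B).charpoly := by
    have hr : (Φ A).charpoly.roots = (Φ B).charpoly.roots := by
      classical
      refine Multiset.ext.2 fun l => ?_
      rw [count_roots, count_roots]
      by_cases hl : ‖l - 1‖ ≤ ((p : ℝ)⁻¹) ^ 2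
      · have h1 : ∀ k ≥ 2, ‖(l + (p : PadicAlgCl p) ^ k) - 1‖ ≤ ((p : ℝ)⁻¹) ^ 2 := by
          intro k hk
          have e : (l + (p : PadicAlgCl p) ^ k) - 1 = (l - 1) + (p : PadicAlgCl p) ^ k := by ring
          rw [e]
          refine (IsUltrametricDist.norm_add_le_max _ _).trans (max_le hl ?_)
          rw [norm_pow, norm_p]
          exact pow_le_pow_of_le_one hpi0.le hpi.le hk
        apply le_antisymm
        · exact mult_le hB0 hA0 fun k hk => (h _ (h1 k hk)).symm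
        · exact mult_le hA0 hB0 fun k hk => h _ (h1 k hk)
      · rw [rootMultiplicity_eq_zero, rootMultiplicity_eq_zero]
        · intro h2
          exact hl (eig_near (near_of_mem hB) h2)
        · intro h2
          exact hl (eig_near (near_of_mem hA) h2)
    have h1 := (IsAlgClosed.splits (Φ A).charpoly).eq_prod_roots_of_monic (Matrix.charpoly_monic _)
    have h2 := (IsAlgClosed.splits (Φ B).charpoly).eq_prod_roots_of_monic (Matrix.charpoly_monic _)
    rw [h1, h2, hr]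
  rw [charpoly_Φ, charpoly_Φ] at key
  exact map_injective _ φ_inj key

/-- powers -/
theorem norm_eval_pow {A : Matrix (Fin n) (Fin n) ℤ_[p]}
    (hA : ∀ a b, (A - 1) a b ∈ maximalIdeal ℤ_[p] ^ 2) {z : PadicAlgCl p}
    (hz : ‖z - 1‖ ≤ ((p : ℝ)⁻¹) ^ 2) {N : ℕ} (hN : N ≠ 0) :
    ‖(Φ (A ^ N)).charpoly.eval (z ^ N)‖ =
      ((p : ℝ)⁻¹) ^ (padicValNat p N * n) * ‖(Φ A).charpoly.eval z‖ := by
  rw [eval_charpoly', eval_charpoly', Φ_pow]
  exact norm_det_pow (Φ A) z hz (near_of_mem hA) N hN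

theorem charpoly_eq_of_pow {A B : Matrix (Fin n) (Fin n) ℤ_[p]}
    (hA : ∀ a b, (A - 1) a b ∈ maximalIdeal ℤ_[p] ^ 2)
    (hB : ∀ a b, (B - 1) a b ∈ maximalIdeal ℤ_[p] ^ 2) {a : ℕ} (ha : a ≠ 0)
    (h : (A ^ a).charpoly = (B ^ a).charpoly) : A.charpoly = B.charpoly := by
  have hp1 : (1 : ℝ) < p := by exact_mod_cast hp.out.one_lt
  have hpi0 : 0 < ((p : ℝ)⁻¹) := inv_pos.2 (by linarith)
  apply charpoly_eq_of_norm hA hB
  intro z hz
  have h1 := norm_eval_pow hA hz ha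
  have h2 := norm_eval_pow hB hz ha
  rw [charpoly_Φ, h, ← charpoly_Φ, h2] at h1
  exact (mul_left_cancel₀ (pow_pos hpi0 _).ne' h1).symm

/-- evaluations of congruent characteristic polynomials -/
theorem eval_congr {A B : Matrix (Fin n) (Fin n) ℤ_[p]} {i : ℕ}
    (h : ∀ k, A.charpoly.coeff k - B.charpoly.coeff k ∈ maximalIdeal ℤ_[p] ^ i)
    {z : PadicAlgCl p} (hz : ‖z‖ ≤ 1) :
    ‖(Φ A).charpoly.eval z - (Φ B).charpoly.eval z‖ ≤ ((p : ℝ)⁻¹) ^ i := by
  have hp1 : (1 : ℝ) < p := by exact_mod_cast hp.out.one_lt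
  have hpi0 : 0 < ((p : ℝ)⁻¹) := inv_pos.2 (by linarith)
  rw [charpoly_Φ, charpoly_Φ, ← eval_sub, ← Polynomial.map_sub, eval_map, eval₂_eq_sum_range]
  refine IsUltrametricDist.norm_sum_le_of_forall_le_of_nonneg (pow_nonneg hpi0.le _) fun k _ => ?_
  rw [norm_mul, norm_pow, norm_φ, coeff_sub]
  have h1 := (mem_pow _ _).1 (h k)
  calc _ ≤ ((p : ℝ)⁻¹) ^ i * 1 :=
        mul_le_mul h1 (pow_le_one₀ (norm_nonneg _) hz) (pow_nonneg (norm_nonneg _) _)
          (pow_nonneg hpi0.le _)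
    _ = _ := mul_one _

end Pool.Agent.V11302.FM
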