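import Pool.Agent.Y802.TS.Mat2

/-! Norms of eigenvalues of matrices over the field of `p`-adic numbers. -/

set_option autoImplicit false

open Matrix IsLocalRing Finset Polynomial

namespace Pool.Agent.V11302.FM

variable {p : ℕ} [hp : Fact p.Prime]

/-- the ring of integers of the algebraic closure -/
noncomputable abbrev OB (p : ℕ) [Fact p.Prime] : ValuationSubring (PadicAlgCl p) :=
  (Valued.v (R := PadicAlgCl p) (Γ₀ := NNReal)).valuationSubring

theorem mem_OB {x : PadicAlgCl p} : x ∈ OB p ↔ ‖x‖ ≤ 1 := by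
  rw [Valuation.mem_valuationSubring_iff, PadicAlgCl.valuation_def]
  exact Iff.rfl

theorem mem_max_of_lt {x : OB p} (h : ‖(x : PadicAlgCl p)‖ < 1) : x ∈ maximalIdeal (OB p) := by
  rw [mem_maximalIdeal, mem_nonunits_iff]
  rintro ⟨u, rfl⟩
  have h1 : ((u : OB p) : PadicAlgCl p) * ((u⁻¹ : (OB p)ˣ) : OB p) = 1 := by
    have := congrArg (fun z : OB p => (z : PadicAlgCl p)) u.mul_inv
    exact this
  have h2 : ‖(((u⁻¹ : (OB p)ˣ) : OB p) : PadicAlgCl p)‖ ≤ 1 := mem_OB.1 (Subtype.prop _)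
  have h3 := congrArg norm h1
  rw [norm_mul, norm_one] at h3
  nlinarith [norm_nonneg ((u : OB p) : PadicAlgCl p),
    norm_nonneg (((u⁻¹ : (OB p)ˣ) : OB p) : PadicAlgCl p)]

theorem norm_unit {x : OB p} (h : IsUnit x) : ‖(x : PadicAlgCl p)‖ = 1 := by
  obtain ⟨u, rfl⟩ := h
  have h1 : ((u : OB p) : PadicAlgCl p) * ((u⁻¹ : (OB p)ˣ) : OB p) = 1 := by
    have := congrArg (fun z : OB p => (z : PadicAlgCl p)) u.mul_inv
    exact this
  have h2 : ‖(((u⁻¹ : (OB p)ˣ) : OB p) : PadicAlgCl p)‖ ≤ 1 := mem_OB.1 (Subtype.prop _)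
  have h4 : ‖((u : OB p) : PadicAlgCl p)‖ ≤ 1 := mem_OB.1 (Subtype.prop _)
  have h3 := congrArg norm h1
  rw [norm_mul, norm_one] at h3
  nlinarith [norm_nonneg ((u : OB p) : PadicAlgCl p),
    norm_nonneg (((u⁻¹ : (OB p)ˣ) : OB p) : PadicAlgCl p)]

theorem norm_p : ‖(p : PadicAlgCl p)‖ = (p : ℝ)⁻¹ := by
  have h := PadicAlgCl.norm_extends p (p : ℚ_[p])
  rw [Padic.norm_p] at h
  rw [← h]
  congr 1

theorem norm_one_of_sub {z : PadicAlgCl p} (h : ‖z - 1‖ < 1) : ‖z‖ = 1 := by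
  apply le_antisymm
  · have h1 : z = (z - 1) + 1 := by ring
    rw [h1]
    refine (IsUltrametricDist.norm_add_le_max _ _).trans ?_
    rw [norm_one]
    exact max_le h.le le_rfl
  · have h1 : (1 : PadicAlgCl p) = z - (z - 1) := by ring
    by_contra hlt
    push Not at hlt
    have h2 : ‖(1 : PadicAlgCl p)‖ ≤ max ‖z‖ ‖z - 1‖ := by
      conv_lhs => rw [h1, sub_eq_add_neg]
      refine (IsUltrametricDist.norm_add_le_max _ _).trans ?_
      rw [norm_neg]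
    rw [norm_one] at h2
    rcases le_max_iff.1 h2 with h3 | h3 <;> linarith

/-- `|det (z ^ N - B ^ N)| = |p| ^ (v(N) m) |det (z - B)|` for `z` and `B` close to one -/
theorem norm_det_pow {m : ℕ} (B : Matrix (Fin m) (Fin m) (PadicAlgCl p)) (z : PadicAlgCl p)
    (hz : ‖z - 1‖ ≤ ((p : ℝ)⁻¹) ^ 2) (hB : ∀ i j, ‖(B - 1) i j‖ ≤ ((p : ℝ)⁻¹) ^ 2) (N : ℕ)
    (hN : N ≠ 0) :
    ‖(z ^ N • (1 : Matrix (Fin m) (Fin m) (PadicAlgCl p)) - B ^ N).det‖ =
      ((p : ℝ)⁻¹) ^ (padicValNat p N * m) *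
        ‖(z • (1 : Matrix (Fin m) (Fin m) (PadicAlgCl p)) - B).det‖ := by
  have hp1 : (1 : ℝ) < p := by exact_mod_cast hp.out.one_lt
  have hp0 : (0 : ℝ) < p := by linarith
  have hpi : ((p : ℝ)⁻¹) < 1 := inv_lt_one_of_one_lt₀ hp1
  have hpi0 : 0 < ((p : ℝ)⁻¹) := inv_pos.2 hp0
  have hsq : ((p : ℝ)⁻¹) ^ 2 < 1 := by nlinarith
  have hz1 : ‖z‖ = 1 := norm_one_of_sub (lt_of_le_of_lt hz hsq)
  have hz0 : z ≠ 0 := fun h => by rw [h, norm_zero] at hz1; exact zero_ne_one hz1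
  have hpK : (p : PadicAlgCl p) ≠ 0 := by exact_mod_cast hp.out.ne_zero
  set C : Matrix (Fin m) (Fin m) (PadicAlgCl p) := z⁻¹ • B with hC
  have hCB : B = z • C := by rw [hC, smul_smul, mul_inv_cancel₀ hz0, one_smul]
  have hC1 : ∀ i j, ‖(C - 1) i j‖ ≤ ((p : ℝ)⁻¹) ^ 2 := by
    intro i j
    have h1 : C - 1 = z⁻¹ • (B - 1) + (z⁻¹ * (1 - z)) • (1 : Matrix (Fin m) (Fin m) (PadicAlgCl p)) := by
      rw [hC, mul_sub, mul_one, inv_mul_cancel₀ hz0, sub_smul, smul_sub, one_smul]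
      abel
    rw [h1, Matrix.add_apply, Matrix.smul_apply, Matrix.smul_apply, smul_eq_mul, smul_eq_mul]
    refine (IsUltrametricDist.norm_add_le_max _ _).trans (max_le ?_ ?_)
    · rw [norm_mul, norm_inv, hz1, inv_one, one_mul]
      exact hB i j
    · rw [norm_mul, norm_mul, norm_inv, hz1, inv_one, one_mul]
      have h2 : ‖(1 : PadicAlgCl p) - z‖ ≤ ((p : ℝ)⁻¹) ^ 2 := by rw [norm_sub_rev]; exact hz
      have h3 : ‖(1 : Matrix (Fin m) (Fin m) (PadicAlgCl p)) i j‖ ≤ 1 := by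
        rw [Matrix.one_apply]
        split_ifs <;> simp
      calc _ ≤ ‖(1 : PadicAlgCl p) - z‖ * 1 := mul_le_mul_of_nonneg_left h3 (norm_nonneg _)
        _ ≤ _ := by rw [mul_one]; exact h2
  -- the matrices over the ring of integers
  have hY : ∀ i j, ‖(p : PadicAlgCl p)⁻¹ * (C - 1) i j‖ ≤ (p : ℝ)⁻¹ := by
    intro i j
    rw [norm_mul, norm_inv, norm_p, inv_inv]
    calc (p : ℝ) * ‖(C - 1) i j‖ ≤ (p : ℝ) * ((p : ℝ)⁻¹) ^ 2 :=
          mul_le_mul_of_nonneg_left (hC1 i j) hp0.le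
      _ = (p : ℝ)⁻¹ := by field_simp
  let Y : Matrix (Fin m) (Fin m) (OB p) := Matrix.of fun i j =>
    (⟨(p : PadicAlgCl p)⁻¹ * (C - 1) i j, mem_OB.2 ((hY i j).trans hpi.le)⟩ : OB p)
  have hYm : ∀ i j, Y i j ∈ maximalIdeal (OB p) := fun i j =>
    mem_max_of_lt (lt_of_le_of_lt (hY i j) hpi)
  have hpO : (p : OB p) ∈ maximalIdeal (OB p) := by
    apply mem_max_of_lt
    have h1 : (((p : ℕ) : OB p) : PadicAlgCl p) = (p : PadicAlgCl p) := by simp
    rw [h1, norm_p]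
    exact hpi
  let C' : Matrix (Fin m) (Fin m) (OB p) := 1 + (p : OB p) • Y
  have hDX : Pool.Agent.Y802.TS.DX p C' C' := ⟨Y, hYm,
    (Commute.one_right Y).add_right ((Commute.refl Y).smul_right _), rfl⟩
  obtain ⟨W, hW, _, hWN⟩ := Pool.Agent.Y802.TS.pow_comm hp.out hpO hDX N hN
  let φ : OB p →+* PadicAlgCl p := (OB p).subtype
  have hC' : φ.mapMatrix C' = C := by
    ext i j
    rw [RingHom.mapMatrix_apply, Matrix.map_apply]
    change φ ((1 : Matrix (Fin m) (Fin m) (OB p)) i j + (p : OB p) * Y i j) = C i j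
    rw [map_add, map_mul, map_natCast]
    have h1 : φ ((1 : Matrix (Fin m) (Fin m) (OB p)) i j) =
        (1 : Matrix (Fin m) (Fin m) (PadicAlgCl p)) i j := by
      rw [Matrix.one_apply, Matrix.one_apply]
      split_ifs <;> simp
    have h2 : φ (Y i j) = (p : PadicAlgCl p)⁻¹ * (C - 1) i j := rfl
    rw [h1, h2, ← mul_assoc, mul_inv_cancel₀ hpK, one_mul, Matrix.sub_apply]
    ring
  have key : C ^ N - 1 = (p : PadicAlgCl p) ^ (padicValNat p N) • ((C - 1) * φ.mapMatrix W) := by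
    have h1 := congrArg φ.mapMatrix hWN
    rw [map_sub, map_pow, hC', map_one] at h1
    rw [h1]
    have h2 : ∀ (c : OB p) (Z : Matrix (Fin m) (Fin m) (OB p)),
        φ.mapMatrix (c • Z) = φ c • φ.mapMatrix Z := by
      intro c Z
      ext i j
      simp [RingHom.mapMatrix_apply, Matrix.map_apply, Matrix.smul_apply]
    rw [h2, map_pow, map_natCast, map_mul, map_sub, hC', map_one]
  have hWdet : ‖(φ.mapMatrix W).det‖ = 1 := by
    rw [← RingHom.map_det]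
    exact norm_unit ((Matrix.isUnit_iff_isUnit_det W).1 hW)
  have e1 : z ^ N • (1 : Matrix (Fin m) (Fin m) (PadicAlgCl p)) - B ^ N =
      (-(z ^ N)) • (C ^ N - 1) := by
    rw [hCB, _root_.smul_pow, neg_smul, smul_sub]
    abel
  have e2 : z • (1 : Matrix (Fin m) (Fin m) (PadicAlgCl p)) - B = (-z) • (C - 1) := by
    rw [hCB, neg_smul, smul_sub]
    abel
  rw [e1, e2, key, Matrix.det_smul, Matrix.det_smul, Matrix.det_smul, Matrix.det_mul,
    Fintype.card_fin]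
  simp only [norm_mul, norm_pow, norm_neg, hz1, one_pow, one_mul, hWdet, mul_one, norm_p]
  rw [← pow_mul]

end Pool.Agent.V11302.FM
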