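import Pool.Agent.V11302.FM.Virt

/-! The field generated by the coefficients of the characteristic polynomials, detected at a sparse set of
primes. -/

set_option autoImplicit false

open Matrix IsLocalRing Finset NumberField Topology Polynomial

namespace Pool.Agent.V11302.FM

attribute [local instance 10] DivisionRing.toRatAlgebra

open Pool.Agent.Y800 Pool.Agent.Y802 Pool.Agent.Y802.TS Kronecker

section alg

variable {F0 : Type*} [Field F0] {E : Type*} [Field E] [Algebra F0 E]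

/-- an element fixed by all automorphisms over `F` lies in `F` -/
theorem mem_of_fixed (F : IntermediateField F0 E) [FiniteDimensional F E] [IsGalois F E] (x : E)
    (h : ∀ a : E ≃ₐ[F] E, a x = x) : x ∈ F := by
  obtain ⟨y, hy⟩ := (IsGalois.mem_bot_iff_fixed (F := F) x).2 h
  rw [← hy]
  exact y.2

theorem map_eq_of_mem (F : IntermediateField F0 E) (q : E[X]) (hq : ∀ k, q.coeff k ∈ F)
    (a : E ≃ₐ[F] E) : q.map ((a : E ≃+* E) : E →+* E) = q := by
  ext k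
  rw [coeff_map]
  exact a.commutes ⟨_, hq k⟩

end alg

/-- **The field of rationality at a sparse set of primes.** -/
theorem mainRat (f : ℕ → ℕ) :
    ∃ (T : ℕ → ℕ) (k L : IntermediateField ℚ (AlgebraicClosure ℚ)),
      (∀ i, (T i).Prime) ∧ (∀ i, f (T i) + T i < T (i + 1)) ∧ IsTower k L T ∧
      ∀ (Γ : Subgroup GQ), IsOpen (Γ : Set GQ) → ∀ (p : ℕ) [Fact p.Prime]
        (E : IntermediateField ℚ_[p] (PadicAlgCl p)), FiniteDimensional ℚ_[p] E → ∀ (n : ℕ)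
        (ρ : Γ →* GL (Fin n) E), Continuous ρ →
        (∃ S : Finset ℕ, ∀ q : ℕ, q.Prime → q ∉ S → ∀ P : Ideal ZBar, P.IsMaximal →
          (q : ZBar) ∈ P → ∀ τ : GQ, ∀ h : τ ∈ Γ, InInertia P τ → ρ ⟨τ, h⟩ = 1) →
        (∀ V : Subgroup GQ, IsOpen (V : Set GQ) →
          Submodule.span E {X | ∃ σ : Γ, (σ : GQ) ∈ V ∧
            X = (ρ σ : Matrix (Fin n) (Fin n) E)} = ⊤) → 0 < n →
        ∀ (F : IntermediateField ℚ_[p] E) [IsGalois F E],
        (∃ i0, ∀ i ≥ i0, ∀ P : Ideal ZBar, P.IsMaximal → (T i : ZBar) ∈ P →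
          ∀ σ : GQ, ∀ h : σ ∈ Γ, IsGeomFrob (T i) P σ →
            ∃ m : ℕ, m ≠ 0 ∧
            ∀ j, ((ρ ⟨σ, h⟩ : Matrix (Fin n) (Fin n) E) ^ m).charpoly.coeff j ∈ F) →
        ∃ V : Subgroup GQ, IsOpen (V : Set GQ) ∧ V.Normal ∧ V ≤ Γ ∧
          (∀ a : E ≃ₐ[F] E, ∃ (Q : GL (Fin n) E) (ε : Γ →* (E : Type)ˣ),
            (∀ σ : Γ, (σ : GQ) ∈ V → ε σ = 1) ∧
            ∀ σ, (ρ σ : Matrix (Fin n) (Fin n) E) =
              (ε σ : E) • ((Q : Matrix (Fin n) (Fin n) E) *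
                (ρ σ : Matrix (Fin n) (Fin n) E).map a *
                ((Q⁻¹ : GL (Fin n) E) : Matrix (Fin n) (Fin n) E))) ∧
          (∀ σ : Γ, (σ : GQ) ∈ V → ∀ j, (ρ σ : Matrix (Fin n) (Fin n) E).charpoly.coeff j ∈ F) ∧
          ((∀ σ, (ρ σ : Matrix (Fin n) (Fin n) E).det ∈ F) →
            ∀ σ, (ρ σ : Matrix (Fin n) (Fin n) E).trace ^ n ∈ F) := by
  classical
  obtain ⟨T, k, L, hT1, hT2, htow, hrep⟩ := mainB f
  refine ⟨T, k, L, hT1, hT2, htow, ?_⟩
  intro Γ hΓ p hp E hE n ρ hρ hS hsp hn F hF hfr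
  obtain ⟨S, hS⟩ := hS
  obtain ⟨i0, hi0⟩ := hfr
  have hsp2 : Submodule.span E {X | ∃ σ : Γ, X = (ρ σ : Matrix (Fin n) (Fin n) E)} = ⊤ := by
    rw [← hsp ⊤ isOpen_univ]
    congr 1
    ext X
    constructor
    · rintro ⟨σ, rfl⟩
      exact ⟨σ, trivial, rfl⟩
    · rintro ⟨σ, hσ, rfl⟩
      exact ⟨σ, rfl⟩
  have h1 : ∀ a : E ≃ₐ[F] E, ∃ (Q : GL (Fin n) E) (ε : Γ →* (E : Type)ˣ) (V : Subgroup GQ),
      IsOpen (V : Set GQ) ∧ (∀ σ : Γ, (σ : GQ) ∈ V → ε σ = 1) ∧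
      ∀ σ, (ρ σ : Matrix (Fin n) (Fin n) E) =
        (ε σ : E) • ((Q : Matrix (Fin n) (Fin n) E) *
          (ρ σ : Matrix (Fin n) (Fin n) E).map a *
          ((Q⁻¹ : GL (Fin n) E) : Matrix (Fin n) (Fin n) E)) := by
    intro a
    obtain ⟨_, _, _, _, _, _, _, h4⟩ := hrep Γ hΓ p E hE n ρ hρ ⟨S, hS⟩ (irr_of_span ρ hsp2) hn 1
      (fun _ => mapRep (((a.restrictScalars ℚ_[p] : E ≃ₐ[ℚ_[p]] E) : E ≃+* E) : E →+* E) ρ)
      (fun _ => cont_mapRep _ _ hρ)
      (fun _ => ⟨S, fun q hq hqS P hP hqP τ h hτ => by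
        change Matrix.GeneralLinearGroup.map _ (ρ ⟨τ, _⟩) = 1
        rw [hS q hq hqS P hP hqP τ _ hτ, map_one]⟩)
      (fun _ => ss_of_irr _ (irr_mapRep _ _ hsp2))
      ⟨i0, fun i hi P hP hTP σ hσ hfr => by
        obtain ⟨m, hm, h1⟩ := hi0 i hi P hP hTP σ hσ hfr
        refine ⟨0, m, hm, ?_⟩
        refine Eq.trans ?_ (map_pow_charpoly
          ((a.restrictScalars ℚ_[p] : E ≃ₐ[ℚ_[p]] E) : E ≃+* E) _ m).symm
        refine Eq.trans ?_ (Matrix.charpoly_map _ (((a : E ≃+* E)) : E →+* E)).symm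
        exact (map_eq_of_mem F _ h1 a).symm⟩
    obtain ⟨Q, ε, ⟨V, h5, h6⟩, h7⟩ := h4 hsp
    exact ⟨Q, ε, V, h5, h6, h7⟩
  choose Q ε V hV hε hσ using h1
  have hfE : FiniteDimensional F E := by
    exact Module.Finite.of_restrictScalars_finite ℚ_[p] F E
  have hfin : Finite (E ≃ₐ[F] E) := inferInstance
  have hW2 : IsOpen ((Γ ⊓ ⨅ a, V a : Subgroup GQ) : Set GQ) := by
    rw [Subgroup.coe_inf, Subgroup.coe_iInf]
    exact hΓ.inter (isOpen_iInter_of_finite hV)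
  have hle : ∀ a, (Γ ⊓ ⨅ a, V a).normalCore ≤ V a := by
    intro a v hv
    exact Subgroup.mem_iInf.1 (Subgroup.mem_inf.1 (Subgroup.normalCore_le _ hv)).2 a
  have hchar : ∀ (a : E ≃ₐ[F] E) (X : Matrix (Fin n) (Fin n) E),
      (((Q a : Matrix (Fin n) (Fin n) E) * X * (((Q a)⁻¹ : GL (Fin n) E) :
        Matrix (Fin n) (Fin n) E))).charpoly = X.charpoly := by
    intro a X
    rw [Matrix.coe_units_inv]
    exact Matrix.charpoly_units_conj (Q a) X
  refine ⟨(Γ ⊓ ⨅ a, V a).normalCore, core_open hW2, Subgroup.normalCore_normal _,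
    (Subgroup.normalCore_le _).trans inf_le_left,
    fun a => ⟨Q a, ε a, fun σ h => hε a σ (hle a h), hσ a⟩, fun σ h j => ?_, fun hdet σ => ?_⟩
  · apply mem_of_fixed
    intro a
    have h2 := hσ a σ
    rw [hε a σ (hle a h), Units.val_one, one_smul] at h2
    have h3 := congrArg Matrix.charpoly h2
    rw [hchar, show (ρ σ : Matrix (Fin n) (Fin n) E).map a =
      (ρ σ : Matrix (Fin n) (Fin n) E).map (((a : E ≃+* E)) : E →+* E) from rfl,
      Matrix.charpoly_map] at h3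
    have h4 := congrArg (fun q => coeff q j) h3
    simp only [coeff_map] at h4
    exact h4.symm
  · apply mem_of_fixed
    intro a
    have h2 := hσ a σ
    have h3 := congrArg Matrix.trace h2
    have h4 := congrArg Matrix.det h2
    have hQ : (Q a : Matrix (Fin n) (Fin n) E).det *
        (((Q a)⁻¹ : GL (Fin n) E) : Matrix (Fin n) (Fin n) E).det = 1 := by
      rw [← Matrix.det_mul, Units.mul_inv, Matrix.det_one]
    have h5 : ((ρ σ : Matrix (Fin n) (Fin n) E).map a).det =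
        (ρ σ : Matrix (Fin n) (Fin n) E).det := by
      have : ((ρ σ : Matrix (Fin n) (Fin n) E).map a).det = a (ρ σ : Matrix (Fin n) (Fin n) E).det :=
        (AlgEquiv.map_det a _).symm
      rw [this]
      exact a.commutes ⟨_, hdet σ⟩
    have h6 : ((ρ σ : Matrix (Fin n) (Fin n) E).map a).trace =
        a (ρ σ : Matrix (Fin n) (Fin n) E).trace := by
      simp [Matrix.trace]
    rw [Matrix.det_smul, Matrix.det_mul, Matrix.det_mul, h5, Fintype.card_fin] at h4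
    have h9 : (ρ σ : Matrix (Fin n) (Fin n) E).det ≠ 0 := by
      have h10 : IsUnit (ρ σ : Matrix (Fin n) (Fin n) E) := (ρ σ).isUnit
      exact ((Matrix.isUnit_iff_isUnit_det _).1 h10).ne_zero
    have h11 : (ε a σ : E) ^ n = 1 := by
      apply mul_right_cancel₀ h9
      linear_combination (-1 : E) * h4 - (ε a σ : E) ^ n * (ρ σ : Matrix (Fin n) (Fin n) E).det * hQ
    rw [Matrix.trace_smul, Matrix.trace_mul_cycle, Units.inv_mul, Matrix.one_mul, h6,
      smul_eq_mul] at h3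
    rw [map_pow]
    calc (a (ρ σ : Matrix (Fin n) (Fin n) E).trace) ^ n
        = ((ε a σ : E) ^ n) * (a (ρ σ : Matrix (Fin n) (Fin n) E).trace) ^ n := by rw [h11, one_mul]
      _ = ((ε a σ : E) * a (ρ σ : Matrix (Fin n) (Fin n) E).trace) ^ n := (mul_pow _ _ _).symm
      _ = (ρ σ : Matrix (Fin n) (Fin n) E).trace ^ n := by rw [← h3]

end Pool.Agent.V11302.FM
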