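import Pool.Agent.V11302.FM.Nrm

/-! Eigenvalues of polynomials in matrices. -/

set_option autoImplicit false

open Matrix IsLocalRing Finset Polynomial

namespace Pool.Agent.V11302.FM

section alg

variable {K : Type*} [Field K] {n m : ℕ}

/-- `z` is an eigenvalue of `A` -/
def Eig (A : Matrix (Fin n) (Fin n) K) (z : K) : Prop := A.charpoly.eval z = 0

theorem eval_charpoly' (A : Matrix (Fin n) (Fin n) K) (z : K) :
    A.charpoly.eval z = (z • (1 : Matrix (Fin n) (Fin n) K) - A).det := by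
  rw [eval_charpoly, scalar_apply, smul_one_eq_diagonal]

theorem eig_iff_det {A : Matrix (Fin n) (Fin n) K} {z : K} :
    Eig A z ↔ (z • (1 : Matrix (Fin n) (Fin n) K) - A).det = 0 := by
  rw [Eig, eval_charpoly']

theorem exists_vec {A : Matrix (Fin n) (Fin n) K} {z : K} (h : Eig A z) :
    ∃ v : Fin n → K, v ≠ 0 ∧ A *ᵥ v = z • v := by
  rw [eig_iff_det] at h
  obtain ⟨v, hv, h1⟩ := Matrix.exists_mulVec_eq_zero_iff.2 h
  refine ⟨v, hv, ?_⟩
  rw [sub_mulVec, smul_mulVec, one_mulVec, sub_eq_zero] at h1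
  exact h1.symm

theorem eig_of_vec {A : Matrix (Fin n) (Fin n) K} {z : K} {v : Fin n → K} (hv : v ≠ 0)
    (h : A *ᵥ v = z • v) : Eig A z := by
  rw [eig_iff_det]
  apply Matrix.exists_mulVec_eq_zero_iff.1
  refine ⟨v, hv, ?_⟩
  rw [sub_mulVec, smul_mulVec, one_mulVec, h, sub_self]

theorem aeval_vec {A : Matrix (Fin n) (Fin n) K} {z : K} {v : Fin n → K}
    (h : A *ᵥ v = z • v) (q : K[X]) : (aeval A q) *ᵥ v = (q.eval z) • v := by
  induction q using Polynomial.induction_on' with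
  | add a b ha hb => rw [map_add, add_mulVec, ha, hb, eval_add, add_smul]
  | monomial k c =>
    rw [aeval_monomial, eval_monomial]
    have h1 : ∀ k : ℕ, A ^ k *ᵥ v = z ^ k • v := by
      intro k
      induction k with
      | zero => simp
      | succ k ih => rw [pow_succ, ← mulVec_mulVec, h, mulVec_smul, ih, smul_smul, pow_succ']
    rw [← mulVec_mulVec, h1, mulVec_smul, Algebra.algebraMap_eq_smul_one, smul_mulVec, one_mulVec,
      smul_smul, mul_comm]

theorem pow_vec {A : Matrix (Fin n) (Fin n) K} {z : K} {v : Fin n → K}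
    (h : A *ᵥ v = z • v) (k : ℕ) : A ^ k *ᵥ v = z ^ k • v := by
  have h1 := aeval_vec h (X ^ k)
  rwa [map_pow, aeval_X, eval_pow, eval_X] at h1

end alg

variable {p : ℕ} [hp : Fact p.Prime] {n m : ℕ}

/-- eigenvalues of small matrices are small -/
theorem eig_small {A : Matrix (Fin n) (Fin n) (PadicAlgCl p)} {δ : ℝ} (hA : ∀ i j, ‖A i j‖ ≤ δ)
    {v : Fin n → PadicAlgCl p} (hv : v ≠ 0) {z : PadicAlgCl p} (h : A *ᵥ v = z • v) : ‖z‖ ≤ δ := by
  obtain ⟨k, hk⟩ := Function.ne_iff.1 hv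
  have hne : (Finset.univ : Finset (Fin n)).Nonempty := ⟨k, Finset.mem_univ k⟩
  obtain ⟨i, _, hi⟩ := Finset.exists_max_image Finset.univ (fun i => ‖v i‖) hne
  have hpos : 0 < ‖v i‖ := lt_of_lt_of_le (norm_pos_iff.2 hk) (hi k (Finset.mem_univ k))
  have h1 := congrFun h i
  rw [Pi.smul_apply, smul_eq_mul] at h1
  have h2 : ‖(A *ᵥ v) i‖ ≤ δ * ‖v i‖ := by
    rw [Matrix.mulVec, dotProduct]
    refine IsUltrametricDist.norm_sum_le_of_forall_le_of_nonneg
      (mul_nonneg ((norm_nonneg _).trans (hA i i)) (norm_nonneg _)) fun j _ => ?_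
    rw [norm_mul]
    exact mul_le_mul (hA i j) (hi j (Finset.mem_univ j)) (norm_nonneg _)
      ((norm_nonneg _).trans (hA i j))
  rw [h1, norm_mul] at h2
  exact le_of_mul_le_mul_right h2 hpos

theorem eig_near {A : Matrix (Fin n) (Fin n) (PadicAlgCl p)} {δ : ℝ}
    (hA : ∀ i j, ‖(A - 1) i j‖ ≤ δ) {z : PadicAlgCl p} (h : Eig A z) : ‖z - 1‖ ≤ δ := by
  obtain ⟨v, hv, h1⟩ := exists_vec h
  apply eig_small hA hv
  rw [sub_mulVec, one_mulVec, h1, sub_smul, one_smul]

end Pool.Agent.V11302.FM
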