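import Pool.Agent.V11302.FM.Conj

/-! Conjugates by all elements of a subgroup: a common open subgroup, and extension of the projective
representation. -/

set_option autoImplicit false

open Matrix IsLocalRing Finset NumberField Topology Polynomial

namespace Pool.Agent.V11302.FM

attribute [local instance 10] DivisionRing.toRatAlgebra

open Pool.Agent.Y800 Pool.Agent.Y802 Pool.Agent.Y802.TS Kronecker

theorem mapGL_val {k : Type*} [Field k] {n : ℕ} (a : k →+* k) (X : GL (Fin n) k) :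
    (Matrix.GeneralLinearGroup.map a X : Matrix (Fin n) (Fin n) k) =
      (X : Matrix (Fin n) (Fin n) k).map a := rfl

theorem mapGL_inv {k : Type*} [Field k] {n : ℕ} (a : k →+* k) (X : GL (Fin n) k) :
    ((Matrix.GeneralLinearGroup.map a X)⁻¹ : GL (Fin n) k) =
      Matrix.GeneralLinearGroup.map a X⁻¹ := (map_inv _ _).symm

/-- **A common open subgroup.** -/
theorem mainVirt (f : ℕ → ℕ) :
    ∃ (T : ℕ → ℕ) (k L : IntermediateField ℚ (AlgebraicClosure ℚ)),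
      (∀ i, (T i).Prime) ∧ (∀ i, f (T i) + T i < T (i + 1)) ∧ IsTower k L T ∧
      ∀ (Γ : Subgroup GQ), IsOpen (Γ : Set GQ) → ∀ (p : ℕ) [Fact p.Prime]
        (E : IntermediateField ℚ_[p] (PadicAlgCl p)), FiniteDimensional ℚ_[p] E → ∀ (n : ℕ)
        (ρ : Γ →* GL (Fin n) E), Continuous ρ →
        (∃ S : Finset ℕ, ∀ q : ℕ, q.Prime → q ∉ S → ∀ P : Ideal ZBar, P.IsMaximal →
          (q : ZBar) ∈ P → ∀ τ : GQ, ∀ h : τ ∈ Γ, InInertia P τ → ρ ⟨τ, h⟩ = 1) →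
        (∀ V : Subgroup GQ, IsOpen (V : Set GQ) →
          Submodule.span E {X | ∃ σ : Γ, (σ : GQ) ∈ V ∧
            X = (ρ σ : Matrix (Fin n) (Fin n) E)} = ⊤) → 0 < n →
        ∀ (A : Set (E ≃ₐ[ℚ_[p]] E)) (H : Subgroup GQ),
        (∀ g ∈ H, ∃ i0, ∀ i ≥ i0, ∀ P : Ideal ZBar, P.IsMaximal → (T i : ZBar) ∈ P →
          ∀ σ : GQ, ∀ h : σ ∈ Γ, ∀ h' : g * σ * g⁻¹ ∈ Γ, IsGeomFrob (T i) P σ →
            ∃ a ∈ A, ∃ m : ℕ, m ≠ 0 ∧
            ((ρ ⟨g * σ * g⁻¹, h'⟩ : Matrix (Fin n) (Fin n) E) ^ m).charpoly =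
              (((ρ ⟨σ, h⟩ : Matrix (Fin n) (Fin n) E) ^ m).map a).charpoly) →
        ∃ V : Subgroup GQ, IsOpen (V : Set GQ) ∧ V.Normal ∧ V ≤ Γ ∧
          ∀ g ∈ H, ∃ a ∈ A, ∃ (Q : GL (Fin n) E) (ε : Dg Γ g →* (E : Type)ˣ),
            (∀ σ : Dg Γ g, (σ : GQ) ∈ V → ε σ = 1) ∧
            ∀ σ, (ρ (cj Γ g σ) : Matrix (Fin n) (Fin n) E) =
              (ε σ : E) • ((Q : Matrix (Fin n) (Fin n) E) *
                (ρ (inc Γ g σ) : Matrix (Fin n) (Fin n) E).map a *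
                ((Q⁻¹ : GL (Fin n) E) : Matrix (Fin n) (Fin n) E)) := by
  classical
  obtain ⟨T, k, L, hT1, hT2, htow, hrep⟩ := mainConj f
  refine ⟨T, k, L, hT1, hT2, htow, ?_⟩
  intro Γ hΓ p hp E hE n ρ hρ hS hsp hn A H hfr
  have h1 : ∀ g : H, ∃ a ∈ A, ∃ (Q : GL (Fin n) E) (ε : Dg Γ g →* (E : Type)ˣ)
          (V : Subgroup GQ), IsOpen (V : Set GQ) ∧ (∀ σ : Dg Γ g, (σ : GQ) ∈ V → ε σ = 1) ∧
          ∀ σ, (ρ (cj Γ g σ) : Matrix (Fin n) (Fin n) E) =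
            (ε σ : E) • ((Q : Matrix (Fin n) (Fin n) E) *
              (ρ (inc Γ g σ) : Matrix (Fin n) (Fin n) E).map a *
              ((Q⁻¹ : GL (Fin n) E) : Matrix (Fin n) (Fin n) E)) := by
    intro g
    obtain ⟨a, ha, Q, ε, ⟨V, h1, h2⟩, h3⟩ := hrep Γ hΓ p E hE n ρ hρ hS hsp hn A g (hfr g g.2)
    exact ⟨a, ha, Q, ε, V, h1, h2, h3⟩
  choose a ha Q ε V hV hε hσ using h1
  have hfin : Finite (GQ ⧸ Γ) := Subgroup.quotient_finite_of_isOpen _ hΓ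
  let W : GQ ⧸ Γ → Subgroup GQ := fun c =>
    if h : ∃ g : H, (QuotientGroup.mk (g : GQ) : GQ ⧸ Γ) = c then V h.choose else ⊤
  have hW : ∀ c, IsOpen (W c : Set GQ) := by
    intro c
    by_cases h : ∃ g : H, (QuotientGroup.mk (g : GQ) : GQ ⧸ Γ) = c
    · simp only [W, dif_pos h]
      exact hV _
    · simp only [W, dif_neg h]
      exact isOpen_univ
  have hW2 : IsOpen ((Γ ⊓ ⨅ c, W c : Subgroup GQ) : Set GQ) := by
    rw [Subgroup.coe_inf, Subgroup.coe_iInf]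
    exact hΓ.inter (isOpen_iInter_of_finite hW)
  refine ⟨(Γ ⊓ ⨅ c, W c).normalCore, core_open hW2, Subgroup.normalCore_normal _,
    (Subgroup.normalCore_le _).trans inf_le_left, fun g hg => ?_⟩
  obtain ⟨g', hc, hle⟩ : ∃ g' : H, (QuotientGroup.mk (g' : GQ) : GQ ⧸ Γ) = QuotientGroup.mk g ∧
      (Γ ⊓ ⨅ c, W c).normalCore ≤ V g' := by
    have hex : ∃ g' : H, (QuotientGroup.mk (g' : GQ) : GQ ⧸ Γ) = QuotientGroup.mk g := ⟨⟨g, hg⟩, rfl⟩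
    refine ⟨hex.choose, hex.choose_spec, ?_⟩
    intro v hv
    have h2 := (Subgroup.mem_inf.1 (Subgroup.normalCore_le _ hv)).2
    have h3 := Subgroup.mem_iInf.1 h2 (QuotientGroup.mk g)
    simp only [W, dif_pos hex] at h3
    exact h3
  rw [QuotientGroup.eq] at hc
  -- `g = g' * h` with `h ∈ Γ`
  obtain ⟨h, hh, rfl⟩ : ∃ h : GQ, h ∈ Γ ∧ g = g' * h := ⟨(g' : GQ)⁻¹ * g, hc, by group⟩
  have hmem : ∀ σ : Dg Γ ((g' : GQ) * h), h * σ * h⁻¹ ∈ Dg Γ (g' : GQ) := by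
    intro σ
    obtain ⟨h1, h2⟩ := mem_Dg.1 σ.2
    refine mem_Dg.2 ⟨Γ.mul_mem (Γ.mul_mem hh h1) (Γ.inv_mem hh), ?_⟩
    have : (g' : GQ) * (h * σ * h⁻¹) * (g' : GQ)⁻¹ = g' * h * σ * (g' * h)⁻¹ := by group
    rw [this]
    exact h2
  let φ : Dg Γ ((g' : GQ) * h) →* Dg Γ (g' : GQ) :=
    { toFun := fun σ => ⟨h * σ * h⁻¹, hmem σ⟩
      map_one' := by
        apply Subtype.ext
        simp
      map_mul' := fun σ τ => by
        apply Subtype.ext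
        simp [mul_assoc] }
  refine ⟨a g', ha g', Q g' * Matrix.GeneralLinearGroup.map (((a g' : E ≃+* E)) : E →+* E) (ρ ⟨h, hh⟩),
    (ε g').comp φ, fun σ hσV => ?_, fun σ => ?_⟩
  · refine hε g' (φ σ) (hle ?_)
    exact (Subgroup.normalCore_normal _).conj_mem _ hσV h
  · have e1 := hσ g' (φ σ)
    have e2 : cj Γ (g' : GQ) (φ σ) = cj Γ ((g' : GQ) * h) σ := by
      apply Subtype.ext
      change (g' : GQ) * (h * σ * h⁻¹) * (g' : GQ)⁻¹ = g' * h * σ * (g' * h)⁻¹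
      group
    have e3 : inc Γ (g' : GQ) (φ σ) = ⟨h, hh⟩ * inc Γ ((g' : GQ) * h) σ * ⟨h, hh⟩⁻¹ := by
      apply Subtype.ext
      rfl
    rw [e2, e3] at e1
    rw [e1]
    change (ε g' (φ σ) : E) • _ = (ε g' (φ σ) : E) • _
    congr 1
    have e4 : ((ρ (⟨h, hh⟩ * inc Γ ((g' : GQ) * h) σ * ⟨h, hh⟩⁻¹) : GL (Fin n) E) :
        Matrix (Fin n) (Fin n) E).map (a g') =
        ((Matrix.GeneralLinearGroup.map (((a g' : E ≃+* E)) : E →+* E) (ρ ⟨h, hh⟩) *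
          Matrix.GeneralLinearGroup.map (((a g' : E ≃+* E)) : E →+* E) (ρ (inc Γ ((g' : GQ) * h) σ)) *
          (Matrix.GeneralLinearGroup.map (((a g' : E ≃+* E)) : E →+* E) (ρ ⟨h, hh⟩))⁻¹ :
            GL (Fin n) E) : Matrix (Fin n) (Fin n) E) := by
      rw [mapGL_inv, ← map_mul, ← map_mul, mapGL_val, map_mul, map_mul, map_inv]
      rfl
    rw [e4, _root_.mul_inv_rev, Units.val_mul, Units.val_mul, Units.val_mul, Units.val_mul, mapGL_val,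
      mapGL_val]
    simp only [Matrix.mul_assoc]
    rfl

/-- a matrix commuting with the matrices of an open subgroup is central -/
theorem central_of_comm {k : Type*} [Field k] {n : ℕ} {S : Set (Matrix (Fin n) (Fin n) k)}
    (hS : Submodule.span k S = ⊤) (X : GL (Fin n) k)
    (h : ∀ Y ∈ S, Y * (X : Matrix (Fin n) (Fin n) k) = (X : Matrix (Fin n) (Fin n) k) * Y) :
    X ∈ Subgroup.center (GL (Fin n) k) := by
  have key : ∀ Y : Matrix (Fin n) (Fin n) k,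
      Y * (X : Matrix (Fin n) (Fin n) k) = (X : Matrix (Fin n) (Fin n) k) * Y := by
    intro Y
    have hY : Y ∈ Submodule.span k S := by rw [hS]; trivial
    induction hY using Submodule.span_induction with
    | mem Y hY => exact h Y hY
    | zero => rw [zero_mul, mul_zero]
    | add Y Z _ _ hY hZ => rw [add_mul, mul_add, hY, hZ]
    | smul c Y _ hY => rw [smul_mul_assoc, mul_smul_comm, hY]
  rw [Subgroup.mem_center_iff]
  intro g
  apply Units.ext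
  rw [Units.val_mul, Units.val_mul]
  exact key g

/-- **Extension of the projective representation.** -/
theorem mainProj (f : ℕ → ℕ) :
    ∃ (T : ℕ → ℕ) (k L : IntermediateField ℚ (AlgebraicClosure ℚ)),
      (∀ i, (T i).Prime) ∧ (∀ i, f (T i) + T i < T (i + 1)) ∧ IsTower k L T ∧
      ∀ (Γ : Subgroup GQ), IsOpen (Γ : Set GQ) → ∀ (p : ℕ) [Fact p.Prime]
        (E : IntermediateField ℚ_[p] (PadicAlgCl p)), FiniteDimensional ℚ_[p] E → ∀ (n : ℕ)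
        (ρ : Γ →* GL (Fin n) E), Continuous ρ →
        (∃ S : Finset ℕ, ∀ q : ℕ, q.Prime → q ∉ S → ∀ P : Ideal ZBar, P.IsMaximal →
          (q : ZBar) ∈ P → ∀ τ : GQ, ∀ h : τ ∈ Γ, InInertia P τ → ρ ⟨τ, h⟩ = 1) →
        (∀ V : Subgroup GQ, IsOpen (V : Set GQ) →
          Submodule.span E {X | ∃ σ : Γ, (σ : GQ) ∈ V ∧
            X = (ρ σ : Matrix (Fin n) (Fin n) E)} = ⊤) → 0 < n →
        ∀ (H : Subgroup GQ),
        (∀ g ∈ H, ∃ i0, ∀ i ≥ i0, ∀ P : Ideal ZBar, P.IsMaximal → (T i : ZBar) ∈ P →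
          ∀ σ : GQ, ∀ h : σ ∈ Γ, ∀ h' : g * σ * g⁻¹ ∈ Γ, IsGeomFrob (T i) P σ →
            ∃ m : ℕ, m ≠ 0 ∧
            ((ρ ⟨g * σ * g⁻¹, h'⟩ : Matrix (Fin n) (Fin n) E) ^ m).charpoly =
              ((ρ ⟨σ, h⟩ : Matrix (Fin n) (Fin n) E) ^ m).charpoly) →
        ∃ P : H →* (GL (Fin n) E ⧸ Subgroup.center (GL (Fin n) E)), Continuous P ∧
          ∀ (σ : GQ) (h : σ ∈ H) (h' : σ ∈ Γ), P ⟨σ, h⟩ = QuotientGroup.mk (ρ ⟨σ, h'⟩) := by
  classical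
  obtain ⟨T, k, L, hT1, hT2, htow, hrep⟩ := mainVirt f
  refine ⟨T, k, L, hT1, hT2, htow, ?_⟩
  intro Γ hΓ p hp E hE n ρ hρ hS hsp hn H hfr
  obtain ⟨V, hV, hVn, hVΓ, h1⟩ := hrep Γ hΓ p E hE n ρ hρ hS hsp hn {1} H (by
    intro g hg
    obtain ⟨i0, hi0⟩ := hfr g hg
    refine ⟨i0, fun i hi P hP hTP σ h h' hfr => ?_⟩
    obtain ⟨m, hm, h1⟩ := hi0 i hi P hP hTP σ h h' hfr
    refine ⟨1, rfl, m, hm, ?_⟩
    rw [h1]
    congr 1)
  have hmem : ∀ (g : GQ) (v : V), g * v * g⁻¹ ∈ V := fun g v => hVn.conj_mem _ v.2 g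
  -- the conjugating matrices
  have h2 : ∀ g : H, ∃ Q : GL (Fin n) E, ∀ v : V,
      ρ ⟨g * v * (g : GQ)⁻¹, hVΓ (hmem g v)⟩ * Q = Q * ρ ⟨v, hVΓ v.2⟩ := by
    intro g
    obtain ⟨a, ha, Q, ε, h3, h4⟩ := h1 g g.2
    rw [Set.mem_singleton_iff] at ha
    subst ha
    refine ⟨Q, fun v => ?_⟩
    have hv : (v : GQ) ∈ Dg Γ g := mem_Dg.2 ⟨hVΓ v.2, hVΓ (hmem g v)⟩
    have h5 := h4 ⟨v, hv⟩
    rw [h3 ⟨v, hv⟩ v.2, Units.val_one, one_smul] at h5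
    apply Units.ext
    rw [Units.val_mul, Units.val_mul]
    have h6 : (ρ (cj Γ g ⟨v, hv⟩) : Matrix (Fin n) (Fin n) E) =
        (ρ ⟨g * v * (g : GQ)⁻¹, hVΓ (hmem g v)⟩ : Matrix (Fin n) (Fin n) E) := rfl
    have h7 : (ρ (inc Γ g ⟨v, hv⟩) : Matrix (Fin n) (Fin n) E).map (1 : E ≃ₐ[ℚ_[p]] E) =
        (ρ ⟨v, hVΓ v.2⟩ : Matrix (Fin n) (Fin n) E) := by
      ext i j
      rfl
    rw [h6, h7] at h5
    rw [h5, Matrix.mul_assoc, Units.inv_mul, Matrix.mul_one]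
  choose Q hQ using h2
  have hspV := hsp V hV
  -- uniqueness
  have huniq : ∀ (g : GQ) (X Y : GL (Fin n) E),
      (∀ v : V, ρ ⟨g * v * g⁻¹, hVΓ (hmem g v)⟩ * X = X * ρ ⟨v, hVΓ v.2⟩) →
      (∀ v : V, ρ ⟨g * v * g⁻¹, hVΓ (hmem g v)⟩ * Y = Y * ρ ⟨v, hVΓ v.2⟩) →
      (QuotientGroup.mk X : GL (Fin n) E ⧸ Subgroup.center (GL (Fin n) E)) = QuotientGroup.mk Y := by
    intro g X Y hX hY
    rw [QuotientGroup.eq]
    apply central_of_comm hspV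
    rintro _ ⟨σ, hσ, rfl⟩
    have h3 : ρ σ * (X⁻¹ * Y) = (X⁻¹ * Y) * ρ σ := by
      have e1 := hX ⟨σ, hσ⟩
      have e2 := hY ⟨σ, hσ⟩
      have e3 : ρ σ * X⁻¹ = X⁻¹ * ρ ⟨g * σ * g⁻¹, hVΓ (hmem g ⟨σ, hσ⟩)⟩ := by
        calc ρ σ * X⁻¹ = X⁻¹ * (X * ρ σ) * X⁻¹ := by group
          _ = X⁻¹ * ρ ⟨g * σ * g⁻¹, hVΓ (hmem g ⟨σ, hσ⟩)⟩ := by
            rw [show X * ρ σ = _ from e1.symm]; group
      calc ρ σ * (X⁻¹ * Y) = (ρ σ * X⁻¹) * Y := by group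
        _ = X⁻¹ * (ρ ⟨g * σ * g⁻¹, hVΓ (hmem g ⟨σ, hσ⟩)⟩ * Y) := by rw [e3]; group
        _ = (X⁻¹ * Y) * ρ σ := by rw [show _ = Y * ρ σ from e2]; group
    have := congrArg (fun u : GL (Fin n) E => (u : Matrix (Fin n) (Fin n) E)) h3
    exact this
  let P : H →* (GL (Fin n) E ⧸ Subgroup.center (GL (Fin n) E)) := MonoidHom.mk'
    (fun g => QuotientGroup.mk (Q g)) (by
      intro g h
      rw [← QuotientGroup.mk_mul]
      apply huniq ((g * h : H) : GQ) _ _ (hQ (g * h))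
      intro v
      have e1 := hQ h v
      have e2 := hQ g ⟨h * v * (h : GQ)⁻¹, hmem h v⟩
      have e3 : (⟨((g * h : H) : GQ) * v * ((g * h : H) : GQ)⁻¹, hVΓ (hmem _ v)⟩ : Γ) =
          ⟨g * (h * v * (h : GQ)⁻¹) * (g : GQ)⁻¹, hVΓ (hmem g ⟨h * v * (h : GQ)⁻¹, hmem h v⟩)⟩ := by
        apply Subtype.ext
        change (g : GQ) * h * v * ((g : GQ) * h)⁻¹ = g * (h * v * (h : GQ)⁻¹) * (g : GQ)⁻¹
        group
      rw [e3, ← mul_assoc]
      refine (congrArg (· * Q h) e2).trans ?_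
      refine (mul_assoc _ _ _).trans ?_
      refine (congrArg (Q g * ·) e1).trans ?_
      exact (mul_assoc _ _ _).symm)
  have hP : ∀ (σ : GQ) (h : σ ∈ H) (h' : σ ∈ Γ), P ⟨σ, h⟩ = QuotientGroup.mk (ρ ⟨σ, h'⟩) := by
    intro σ h h'
    apply huniq σ _ _ (hQ ⟨σ, h⟩)
    intro v
    rw [← map_mul, ← map_mul]
    congr 1
    apply Subtype.ext
    change σ * v * σ⁻¹ * σ = σ * v
    group
  refine ⟨P, ?_, hP⟩
  apply continuous_of_continuousAt_one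
  have hΓH : IsOpen {g : H | (g : GQ) ∈ Γ} := hΓ.preimage continuous_subtype_val
  have hc : ContinuousOn P {g : H | (g : GQ) ∈ Γ} := by
    rw [continuousOn_iff_continuous_domRestrict]
    have h3 : Continuous fun g : {g : H | (g : GQ) ∈ Γ} =>
        (QuotientGroup.mk (ρ ⟨(g : H), g.2⟩) : GL (Fin n) E ⧸ Subgroup.center (GL (Fin n) E)) := by
      refine QuotientGroup.continuous_mk.comp (hρ.comp (Continuous.subtype_mk ?_ _))
      exact continuous_subtype_val.comp continuous_subtype_val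
    refine h3.congr fun g => ?_
    exact (hP _ _ _).symm
  exact hc.continuousAt (hΓH.mem_nhds (show ((1 : H) : GQ) ∈ Γ from Γ.one_mem))

end Pool.Agent.V11302.FM
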